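import Pool.Agent.Lib.MP_a01f70_lc.GD.NZ
import Pool.Agent.Lib.MP_a01f70_lc.GK.R1

namespace Pool.Agent.GD
open Finset Pool.Agent.GK

theorem bb_key {K : Subfield ℝ} {c₁ c₂ d p₁ p₂ p₃ p₄ : K} (h1 : 0 < (c₁ : ℝ)) (h2 : 0 < (c₂ : ℝ))
    (hd : 0 < (d : ℝ)) (g1 : 0 < (p₁ : ℝ)) (g2 : 0 < (p₂ : ℝ)) (g3 : 0 < (p₃ : ℝ))
    (g4 : 0 < (p₄ : ℝ)) {j k a₁ a₂ a₃ a₄ : ℤ} (hk : 0 < k) (h12 : a₁ ≤ a₂) (h34 : a₃ ≤ a₄)
    (he : (sg j c₁ + sg (j + k) c₂) * (sg a₃ p₃ + sg a₄ p₄) = Pb d k * (sg a₁ p₁ + sg a₂ p₂)) :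
    c₂ = c₁ * d ∨ (a₃ < a₄ ∧ c₁ * p₃ = p₁ ∧ c₂ * p₄ = d * p₂) := by
  have H := fun l => congrArg (cf · l) he
  simp only [Pb, add_mul, mul_add, one_mul, sg_mul, cf_add, cf_sg, Subfield.coe_mul] at H
  have m1 := mul_pos h1 g3
  have m2 := mul_pos h1 g4
  have m3 := mul_pos h2 g3
  have m4 := mul_pos h2 g4
  have m5 := mul_pos hd g1
  have m6 := mul_pos hd g2
  obtain rfl : a₁ = j + a₃ := by
    rcases lt_trichotomy a₁ (j + a₃) with h | h | h
    · have h3 := H a₁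
      simp (disch := omega) only [if_neg, if_true] at h3
      split_ifs at h3 <;> linarith
    · exact h
    · have h3 := H (j + a₃)
      simp (disch := omega) only [if_neg, if_true] at h3
      split_ifs at h3 <;> linarith
  obtain rfl : a₂ = j + a₄ := by
    rcases lt_trichotomy a₂ (j + a₄) with h | h | h
    · have h3 := H (j + k + a₄)
      simp (disch := omega) only [if_neg, if_true] at h3
      linarith
    · exact h
    · have h3 := H (k + a₂)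
      simp (disch := omega) only [if_neg, if_true] at h3
      linarith
  have h3 := H (j + a₃)
  have h4 := H (j + k + a₄)
  rcases h34.eq_or_lt with h | h
  · simp (disch := omega) only [if_pos, if_neg, if_true] at h3 h4
    refine Or.inl (Subtype.ext (mul_right_cancel₀ (add_pos g3 g4).ne' ?_))
    rw [Subfield.coe_mul]
    linear_combination h4 - d * h3
  · simp (disch := omega) only [if_pos, if_neg, if_true] at h3 h4
    refine Or.inr ⟨h, Subtype.ext ?_, Subtype.ext ?_⟩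
    · rw [Subfield.coe_mul]
      linarith
    · rw [Subfield.coe_mul, Subfield.coe_mul]
      linarith

variable {m : ℕ} [NeZero m] {μ : Type} [AddCommGroup μ]

omit [NeZero m] in
theorem bb_tk (e f : ℤ) : tk m (e + f) = tk m e * tk m f := by
  rw [tk, tz_add, map_mul, tk, tk]

theorem same_chain {A B : GR m (ℤ × μ)} (hA : NZ A) (hB : NZ B) (h : DD A B) {i : ℤ} {a b : ℤ × μ}
    (hb : 0 < b.1) {c₁ c₂ : KK m} (h1 : 0 < (c₁ : ℝ)) (h2 : 0 < (c₂ : ℝ)) (hne : c₂ ≠ c₁ * tk m i)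
    (he : up A * (sg a c₁ + sg (a + b) c₂) = up B * Pb (tk m i) b) :
    ∃ e₁ e₂, c₁ = tk m e₁ ∧ c₂ = tk m e₂ := by
  let π := AddMonoidAlgebra.mapDomainRingHom (KK m) (AddMonoidHom.fst ℤ μ)
  have hs : ∀ l c, π (sg l c) = sg l.1 c := fun l c => AddMonoidAlgebra.mapDomain_single
  have hπ : ∀ f : GR m (ℤ × μ), π (up f) = up (spec m (AddMonoidHom.fst ℤ μ) f) := fun f =>
    (DFunLike.congr_fun (AddMonoidAlgebra.mapRingHom_comp_mapDomainRingHom (ok m)
      (AddMonoidHom.fst ℤ μ)) f).symm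
  have h3 := congrArg π he
  rw [map_mul, map_mul, hπ, hπ, map_add, hs, hs, Pb, map_add, map_one, hs, ← Pb,
    Prod.fst_add] at h3
  have h4 := form_rank_one hA.spec_ne hB.spec_ne (h.spec _)
  have h5 : up (spec m (AddMonoidHom.fst ℤ μ) A) ≠ 0 := fun e =>
    hA.spec_ne (up_injective (e.trans (map_zero up).symm))
  generalize spec m (AddMonoidHom.fst ℤ μ) A = A' at h3 h4 h5
  generalize spec m (AddMonoidHom.fst ℤ μ) B = B' at h3 h4
  have ht : ∀ e, 0 < (tk m e : ℝ) := fun e => coe_tk (m := m) e ▸ tr_pos e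
  have key : ∀ f g, A' * f = B' * g →
      (sg a.1 c₁ + sg (a.1 + b.1) c₂) * up g = Pb (tk m i) b.1 * up f := fun f g e => by
    have h6 := congrArg up e
    rw [map_mul, map_mul] at h6
    refine mul_left_cancel₀ h5 ?_
    linear_combination up g * h3 - Pb (tk m i) b.1 * h6
  have fin : ∀ γ₁ γ₂ γ₃ γ₄ : ℤ × ℤ, A' * (mon m γ₁ + mon m γ₂) = B' * (mon m γ₃ + mon m γ₄) →
      γ₁.2 ≤ γ₂.2 → γ₃.2 ≤ γ₄.2 → ∃ e₁ e₂, c₁ = tk m e₁ ∧ c₂ = tk m e₂ := by
    intro γ₁ γ₂ γ₃ γ₄ e h12 h34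
    have h6 := key _ _ e
    simp only [map_add, up_mon] at h6
    obtain ⟨-, h7, h8⟩ :=
      (bb_key h1 h2 (ht _) (ht _) (ht _) (ht _) (ht _) hb h12 h34 h6).resolve_left hne
    refine ⟨γ₁.1 - γ₃.1, i + γ₂.1 - γ₄.1, mul_right_cancel₀ (tk_ne_zero γ₃.1) ?_,
      mul_right_cancel₀ (tk_ne_zero γ₄.1) ?_⟩
    · rw [h7, ← bb_tk, sub_add_cancel]
    · rw [h8, ← bb_tk, ← bb_tk, sub_add_cancel]
  rcases h4 with ⟨p, q, v, hp, hq, e⟩ | ⟨γ₁, γ₂, γ₃, γ₄, e⟩
  · have h6 := key _ _ e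
    rw [up_single, up_single] at h6
    rw [← coe_ok] at hp hq
    exact absurd ((bb_key h1 h2 (ht i) hp hp hq hq hb (le_refl v) (le_refl 0) (by
      linear_combination 2 * h6)).resolve_left hne).1 (lt_irrefl _)
  · rcases le_total γ₁.2 γ₂.2 with h12 | h12 <;> rcases le_total γ₃.2 γ₄.2 with h34 | h34
    · exact fin _ _ _ _ e h12 h34
    · exact fin _ _ _ _ (by linear_combination e) h12 h34
    · exact fin _ _ _ _ (by linear_combination e) h12 h34
    · exact fin _ _ _ _ (by linear_combination e) h12 h34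

end Pool.Agent.GD
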