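import Pool.Agent.Lib.MP_a01f70_lc.GD.Deg

namespace Pool.Agent.GD
open Finset Pool.Agent.GK

variable {K : Subfield ℝ} {μ : Type} [AddCommGroup μ] [Fintype μ]

theorem mem_Box {s : ℤ} {T : ℕ} {l : ℤ × μ} : l ∈ Box μ s T ↔ s ≤ l.1 ∧ l.1 < s + T := by
  simp [Box]

theorem card_Box (s : ℤ) (T : ℕ) : #(Box μ s T) = T * Fintype.card μ := by
  simp [Box]

theorem sum_Box (f : ℤ × μ → ℝ) (s : ℤ) (T : ℕ) :
    ∑ l ∈ Box μ s T, f l = ∑ i ∈ range T, ∑ g, f (s + i, g) := by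
  rw [Box, sum_product, Int.Ico_eq_finset_map, sum_map, add_sub_cancel_left, Int.toNat_natCast]
  rfl

theorem sum_Box_add (f : ℤ × μ → ℝ) (s : ℤ) (T T' : ℕ) :
    ∑ l ∈ Box μ s (T + T'), f l = ∑ l ∈ Box μ s T, f l + ∑ l ∈ Box μ (s + T) T', f l := by
  simp only [sum_Box, sum_range_add, Nat.cast_add, add_assoc]

theorem sum_Box_shift (f : ℤ × μ → ℝ) (p : ℤ × μ) (s : ℤ) (T : ℕ) :
    ∑ l ∈ Box μ s T, f (l + p) = ∑ l ∈ Box μ (s + p.1) T, f l :=
  sum_equiv (Equiv.addRight p) (fun l => by simp only [mem_Box, Equiv.coe_addRight, Prod.fst_add]; omega)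
    fun _ _ => rfl

theorem sum_Box_neg (f : ℤ × μ → ℝ) (s : ℤ) (T : ℕ) :
    ∑ l ∈ Box μ s T, f (-l) = ∑ l ∈ Box μ (1 - s - T) T, f l :=
  sum_equiv (Equiv.neg _) (fun l => by simp only [mem_Box, Equiv.neg_apply, Prod.fst_neg]; omega)
    fun _ _ => rfl

theorem sum_Box_per {f : ℤ × μ → ℝ} {p : ℤ × μ} {n : ℕ} (hp : p.1 = n) (h : ∀ l, f (l + p) = f l)
    (s : ℤ) (N : ℕ) : ∑ l ∈ Box μ s (n * N), f l = N * ∑ l ∈ Box μ s n, f l := by
  induction N with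
  | zero => simp [sum_Box]
  | succ N ih =>
    rw [Nat.mul_succ, add_comm, sum_Box_add, ← hp, ← sum_Box_shift, funext h, ih]
    push_cast
    ring

theorem ng_eq (x : ℤ × μ → ℝ) (s : ℤ) (T : ℕ) :
    ng x s T = ∑ l ∈ Box μ s T, if x l < 0 then (1 : ℝ) else 0 := by
  rw [ng, natCast_card_filter]

theorem ng_zero (s : ℤ) (T : ℕ) : ng (0 : ℤ × μ → ℝ) s T = 0 := by
  simp [ng]

open Classical in
/-- a coset of `ℤ b + H` meets `deg b` consecutive degrees in one coset of `H` -/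
theorem card_St {b : ℤ × μ} {k : ℕ} (hb : b.1 = k) (hk : 0 < k) (H : AddSubgroup μ) (a : ℤ × μ)
    (s : ℤ) : #{l ∈ Box μ s k | l - a ∈ St b H} = Nat.card H := by
  have h0 : (0 : ℤ) < k := by exact_mod_cast hk
  have h1 := Int.emod_nonneg (a.1 - s) h0.ne'
  have h2 := Int.emod_lt_of_pos (a.1 - s) h0
  rw [Int.emod_def] at h1 h2
  generalize (a.1 - s) / k = i at h1 h2
  rw [Nat.card_eq_fintype_card, Fintype.card_subtype]
  refine (card_nbij (fun h => a + (-i • b + (0, h))) (fun h hh => ?_) (fun h _ h' _ e => ?_)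
    fun l hl => ?_).symm
  · refine mem_coe.2 (mem_filter.2 ⟨mem_Box.2 ?_, mem_St.2
      ⟨-i, h, (mem_filter.1 hh).2, add_sub_cancel_left _ _⟩⟩)
    simp only [Prod.fst_add, Prod.smul_fst, hb, smul_eq_mul]
    constructor <;> linarith
  · simpa using e
  · obtain ⟨h3, h4⟩ := mem_filter.1 hl
    obtain ⟨j, h, hh, e⟩ := mem_St.1 h4
    obtain ⟨h5, h6⟩ := mem_Box.1 h3
    have h7 : l.1 - a.1 = j * k := by simpa [hb] using congrArg Prod.fst e
    obtain rfl : j = -i := by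
      have h8 : j + i < 1 := lt_of_mul_lt_mul_right (by linarith) h0.le
      have h9 : -1 < j + i := lt_of_mul_lt_mul_right (by linarith) h0.le
      omega
    exact ⟨h, by simpa using hh, (eq_add_of_sub_eq' e).symm⟩

open Classical in
/-- a function that changes sign along `b` is negative on half of its support -/
theorem ng_alt {r : ℤ × μ → ℝ} {b : ℤ × μ} {k : ℕ} (hb : b.1 = k) {c : ℝ} (hc : 0 < c)
    (h : ∀ l, r (l + b) = -c * r l) (s : ℤ) :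
    ng r s (2 * k) = #{l ∈ Box μ s k | r l ≠ 0} := by
  rw [ng_eq, two_mul, sum_Box_add, ← hb, ← sum_Box_shift, ← sum_add_distrib, natCast_card_filter]
  refine sum_congr rfl fun l _ => ?_
  rw [h]
  rcases lt_trichotomy (r l) 0 with e | e | e
  · rw [if_pos e, if_neg (by nlinarith), if_pos e.ne, add_zero]
  · simp [e]
  · rw [if_neg e.not_gt, if_pos (by nlinarith), if_pos e.ne', zero_add]

theorem SMt.congr {a b a' b' : AL K (ℤ × μ)} (h : SMt a b)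
    (ha : a ∈ nonZeroDivisors (AL K (ℤ × μ))) (he : a * b' = a' * b) : SMt a' b' :=
  h.imp fun _ h x y e => h x y (e.congr ha he)

/-- `RV.rv`, `rv_rv`, `sum_Box_neg` -/
theorem SMt.rv {a b : AL K (ℤ × μ)} (h : SMt a b) : SMt (rv a) (rv b) := by
  refine h.imp fun C h x y e s T => ?_
  have h1 := e.rv
  rw [rv_rv, rv_rv] at h1
  have h2 := h _ _ h1 (1 - s - T) T
  rw [ng_eq, ng_eq, sum_Box_neg fun l => if y l < 0 then 1 else 0,
    sum_Box_neg fun l => if x l < 0 then 1 else 0, show 1 - (1 - s - T) - T = s by ring] at h2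
  rwa [ng_eq, ng_eq]

/-- time reversal (`SMt.rv`, `SMt.congr`, `rv_Pb`) -/
theorem SMt.rev {c : K} (hc : c ≠ 0) {b : ℤ × μ} (hb : 0 < b.1) {ξ : AL K (ℤ × μ)}
    (h : SMt (Pb c b) ξ) : SMt (Pb c⁻¹ b) (sg b c⁻¹ * GD.rv ξ) :=
  h.rv.congr (mul_mem_nonZeroDivisors.1 (by rw [rv_Pb hc b]; exact nzd_Pb c⁻¹ hb)).2
    (by rw [mul_left_comm, ← mul_assoc, rv_Pb hc])

omit [Fintype μ] in
theorem Pole.congr {a b a' b' : AL K (ℤ × μ)} {c : K} {b₀ : ℤ × μ} {H : AddSubgroup μ}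
    (h : Pole a b c b₀ H) (ha : a ∈ nonZeroDivisors (AL K (ℤ × μ)))
    (ha' : a' ∈ nonZeroDivisors (AL K (ℤ × μ))) (he : a * b' = a' * b) : Pole a' b' c b₀ H := by
  have g : ∀ {r}, Gs a b c b₀ r → Gs a' b' c b₀ r := fun e => ⟨e.1.congr ha' he.symm, e.2⟩
  refine ⟨h.pos, h.deg, fun x hx => ?_, h.gs0.imp fun r e => ⟨g e.1, e.2⟩,
    fun l => (h.gs1 l).imp fun r e => ⟨g e.1, e.2⟩,
    fun l l' hl => (h.gs2 l l' hl).imp fun r e => ⟨g e.1, e.2⟩⟩
  obtain ⟨w, e⟩ := h.inv x hx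
  exact ⟨w, (mul_cancel_left_mem_nonZeroDivisors ha).1
    (by linear_combination (sg (0, x) 1 - 1) * he + a' * e)⟩

omit [Fintype μ] in
theorem bx_gs {c : K} (hc : c ≠ 0) {b : ℤ × μ} (hb : 0 < b.1) {ξ : AL K (ℤ × μ)} {r : ℤ × μ → ℝ}
    (e : Gs (Pb c b) ξ c b r) : Gs (Pb c⁻¹ b) (sg b c⁻¹ * rv ξ) c⁻¹ b fun l => r (-l) := by
  have h1 := nzd_Pb c⁻¹ hb
  refine ⟨e.1.rv.congr h1 (by rw [mul_left_comm, ← mul_assoc, rv_Pb hc]), fun l => ?_⟩
  have h0 : (c : ℝ) ≠ 0 := by simpa using hc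
  have := e.2 (-(l + b))
  rw [show -(l + b) + b = -l by abel] at this
  simp only [this, Subfield.coe_inv]
  field_simp

omit [Fintype μ] in
/-- time reversal: the ground states are `l ↦ r (-l)`; `[-h] - 1 = -[-h] ([h] - 1)` -/
theorem Pole.rev {c : K} {b : ℤ × μ} {ξ : AL K (ℤ × μ)} {H : AddSubgroup μ}
    (h : Pole (Pb c b) ξ c b H) : Pole (Pb c⁻¹ b) (sg b c⁻¹ * rv ξ) c⁻¹ b H := by
  have hc : c ≠ 0 := by simpa using h.pos.ne'
  refine ⟨by simpa using h.pos, h.deg, fun x hx => ?_, ?_, fun l₀ => ?_, fun l₁ l₂ hl => ?_⟩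
  · have := mul_dvd_mul_left (sg b c⁻¹) (_root_.map_dvd rv (h.inv (-x) (neg_mem hx)))
    rw [rv_Pb hc, map_mul, map_sub, map_one, rv_sg, Prod.neg_mk, neg_zero, neg_neg] at this
    rwa [mul_left_comm]
  · obtain ⟨r, e, e'⟩ := h.gs0
    exact ⟨_, bx_gs hc h.deg e, fun l => e' _⟩
  · obtain ⟨r, e, e'⟩ := h.gs1 (-l₀)
    exact ⟨_, bx_gs hc h.deg e, fun l => (e' _).trans (by rw [← neg_sub', neg_mem_iff])⟩
  · obtain ⟨r, e, e1, e2⟩ := h.gs2 (-l₁) (-l₂) (by rwa [← neg_sub', neg_mem_iff])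
    exact ⟨_, bx_gs hc h.deg e, fun l => e1 _, by simpa only [neg_neg] using e2⟩

omit [Fintype μ] in
/-- `gs1` at `0`, `RV.cv_eq_zero`, `mem_St_zero` -/
theorem Pole.max {a b : AL K (ℤ × μ)} {c : K} {b₀ : ℤ × μ} {H : AddSubgroup μ}
    (h : Pole a b c b₀ H) {g : μ} (hg : a ∣ (sg (0, g) 1 - 1) * b) : g ∈ H := by
  obtain ⟨r, e, e'⟩ := h.gs1 0
  have h1 := congrFun (e.1.cv_eq_zero hg) (0, g)
  rw [cv_sub, cv_one, Pi.sub_apply, cv_sg, sub_self, (e' 0).2 (by simp), mul_zero, zero_sub,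
    Pi.zero_apply, neg_eq_zero, e', sub_zero] at h1
  exact (mem_St_zero h.deg.ne').1 h1

omit [Fintype μ] in
theorem Pole.not_dvd {a b : AL K (ℤ × μ)} {c : K} {b₀ : ℤ × μ} {H : AddSubgroup μ}
    (h : Pole a b c b₀ H) : ¬ a ∣ b := fun e => by
  obtain ⟨r, h1, h2⟩ := h.gs0
  exact h2 0 (congrFun ((cv_one r).symm.trans (h1.1.cv_eq_zero (by rwa [one_mul]))) 0)

theorem bx_one {Λ : Type} [AddCommGroup Λ] [DecidableEq Λ] : cf (1 : AL K Λ) = Pi.single 0 1 :=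
  funext fun l => by
    rw [AddMonoidAlgebra.one_def, cf_sg, Pi.single_apply]
    simp [eq_comm]

omit [Fintype μ] in
/-- `z l = (-c) ^ i` at `l = i b`, `i ≥ 0`, and `0` elsewhere, `D = cv ξ z` -/
theorem exists_ex (c : K) {b : ℤ × μ} (hb : 0 < b.1) {ξ : AL K (ℤ × μ)} {j : ℤ} (h : Low ξ j) :
    ∃ D, Ex (Pb c b) ξ D j ∧ ∀ l, D l = cf ξ l - c * D (l - b) := by
  classical
  let z := chn b fun i (g : μ) => if 0 ≤ i ∧ g = 0 then (-(c : ℝ)) ^ i.toNat else 0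
  have h1 : cv (Pb c b) z = cf (1 : AL K (ℤ × μ)) := funext fun l => by
    rw [cv_Pb, bx_one, Pi.single_apply]
    by_cases e : b.1 ∣ l.1
    · obtain ⟨i, g, rfl⟩ := exists_chn e
      rw [show i • b + (0, g) - b = (i - 1) • b + (0, g) by rw [sub_smul, one_smul]; abel]
      simp only [z, chn_apply hb.ne', Prod.ext_iff, Prod.fst_add, Prod.smul_fst, smul_eq_mul,
        add_zero, Prod.fst_zero, mul_eq_zero, hb.ne', or_false]
      rcases lt_trichotomy i 0 with e | rfl | e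
      · simp [e.ne, e.not_ge, show ¬ 1 ≤ i by omega]
      · simp
      · rw [show i.toNat = (i - 1).toNat + 1 by omega, pow_succ]
        by_cases e' : g = 0 <;> simp [e', e.ne', e.le, show 1 ≤ i by omega, mul_comm]
    · rw [if_neg fun e' => e (by simp [e'])]
      simp only [z]
      rw [chn_of_not_dvd e, chn_of_not_dvd fun e' => e (by simpa using e'), mul_zero, add_zero]
  refine ⟨cv ξ z, ⟨⟨z, h1.trans bx_one, rfl⟩, fun l hl => ?_⟩, fun l => ?_⟩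
  · refine sum_eq_zero fun a ha => mul_eq_zero_of_right _ ?_
    have h2 : (l - a).1 < 0 := by
      have := not_lt.1 fun e => Finsupp.mem_support_iff.1 ha (h a e)
      rw [Prod.fst_sub]
      omega
    exact ite_eq_right_iff.2 fun _ => if_neg fun e => (Int.ediv_neg_of_neg_of_pos h2 hb).not_ge e.1
  · rw [eq_sub_iff_add_eq, ← cv_Pb, ← cv_mul, mul_comm, cv_mul, h1, cv_cf, mul_one]

omit [Fintype μ] in
theorem ex_one {ξ : AL K (ℤ × μ)} {j : ℤ} (h : Low ξ j) : Ex 1 ξ (cf ξ) j := by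
  classical
  exact ⟨⟨cf 1, (cv_one _).trans bx_one, by rw [cv_cf, mul_one]⟩, fun l e => cf_eq_zero.2 (h l e)⟩

end Pool.Agent.GD
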