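import Pool.Agent.Lib.MP_a01f70_lc.GD.Test

namespace Pool.Agent.GD
open Finset Pool.Agent.GK

variable {K : Subfield ℝ} {μ : Type} [AddCommGroup μ] [Fintype μ]

theorem chain_per {f : ℤ × μ → ℝ} {p : ℤ × μ} {n : ℕ} (hp : p.1 = n) (h : ∀ l, f (l + p) = f l)
    (s : ℤ) : ∑ l ∈ Box μ s n, f l = ∑ l ∈ Box μ 0 n, f l := by
  have e : ∀ s : ℤ, ∑ l ∈ Box μ (s + 1) n, f l = ∑ l ∈ Box μ s n, f l := fun s => by
    have h1 := sum_Box_add f s n 1
    have h2 := sum_Box_add f s 1 n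
    have h3 := sum_Box_shift f p s 1
    simp only [h, hp] at h3
    rw [add_comm 1 n, Nat.cast_one] at h2
    linarith
  induction s using Int.induction_on with
  | zero => rfl
  | succ i ih => rw [e, ih]
  | pred i ih => rw [← e, sub_add_cancel, ih]

theorem chain_ct {b : ℤ × μ} (hb : b.1 ≠ 0) {H : AddSubgroup μ} [Fintype H] {f : ℤ → μ → ℝ}
    (hf : ∀ i g, g ∉ H → f i g = 0) (D : ℤ × μ → ℝ) (a₀ : ℤ × μ) (i i' : ℤ) (h : H) :
    ct D (chn b f) (i' * b.1) (a₀ + i • b + (0, h.1)) =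
      ∑ g : H, D (a₀ + (i - i') • b + (0, (h - g).1)) * f i' g := by
  classical
  have e : ∀ g : μ, ((i' * b.1, g + i' • b.2) : ℤ × μ) = i' • b + (0, g) := fun g =>
    Prod.ext (by simp) (by simp [add_comm])
  have e' : ∀ g : μ, a₀ + i • b + (0, h.1) - (i' • b + (0, g)) = a₀ + (i - i') • b + (0, h.1 - g) :=
    fun g => by
      have : (((0 : ℤ), h.1 - g) : ℤ × μ) = (0, h.1) - (0, g) := Prod.ext (by simp) rfl
      rw [this, sub_smul]
      abel
  rw [ct, ← Equiv.sum_comp (Equiv.addRight (i' • b.2))]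
  simp only [Equiv.coe_addRight, e, e', chn_apply hb]
  rw [← sum_subset (subset_univ (univ.filter (· ∈ H))) fun g _ hg => by
    rw [hf i' g (by simpa using hg), mul_zero]]
  exact sum_subtype _ (by simp) fun g => D (a₀ + (i - i') • b + (0, h.1 - g)) * f i' g

theorem chain_dom {b : ℤ × μ} (hb : 0 < b.1) {H : AddSubgroup μ} [Fintype H] {f : ℤ → μ → ℝ}
    (hf : ∀ i g, g ∉ H → f i g = 0) {D : ℤ × μ → ℝ} {a₀ : ℤ × μ} {i : ℤ} {h : H} (i₀ : ℤ)
    (h0 : ∑ g : H, D (a₀ + (i - i₀) • b + (0, (h - g).1)) * f i₀ g < 0)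
    (h1 : ∀ i', i₀ < i' → ∀ g : H, D (a₀ + (i - i') • b + (0, (h - g).1)) * f i' g = 0) :
    Dom D (chn b f) (a₀ + i • b + (0, h.1)) := by
  refine ⟨i₀ * b.1, by rwa [chain_ct hb.ne' hf], fun j hj => le_of_eq ?_⟩
  by_cases hd : b.1 ∣ j
  · obtain ⟨i', rfl⟩ := hd
    rw [mul_comm b.1 i'] at hj ⊢
    rw [chain_ct hb.ne' hf]
    exact sum_eq_zero fun g _ => h1 i' (lt_of_mul_lt_mul_right hj hb.le) g
  · exact sum_eq_zero fun g _ => by rw [chn_of_not_dvd (l := (j, g)) hd, mul_zero]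

open Classical in
/-- Sources on `ℤ b₀ + H` with pattern `w 0` at the even and `w 1` at the odd steps, responses on `a₀ + ℤ b₀ + H`.
`SMt.test` with `p = 2 b₀`, `r` from `gs1 a₀`, `N l` = `r l < 0` or `l = a₀ + i b₀ + h` with `h` in the set of the parity
of `i`; `ng_alt`, `card_St`. -/
theorem Pole.chain {a b : AL K (ℤ × μ)} (hs : SMt a b) {c : K} {b₀ : ℤ × μ} {H : AddSubgroup μ}
    [Fintype H] (hP : Pole a b c b₀ H) {D : ℤ × μ → ℝ} {j : ℤ} (hD : Ex a b D j) (a₀ : ℤ × μ)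
    (w₀ w₁ : H → ℝ) (N₀ N₁ : Finset H) {w : ℤ × μ → ℝ}
    (hw : w = chn b₀ fun i g => if h : g ∈ H then (if Even i then w₀ ⟨g, h⟩ else w₁ ⟨g, h⟩) else 0)
    (h₀ : ∀ i : ℤ, Even i → ∀ h ∈ N₀, Dom D w (a₀ + i • b₀ + (0, h.1)))
    (h₁ : ∀ i : ℤ, ¬ Even i → ∀ h ∈ N₁, Dom D w (a₀ + i • b₀ + (0, h.1))) :
    #N₀ + #N₁ ≤ Fintype.card H + #{h | w₀ h < 0} + #{h | w₁ h < 0} := by
  obtain ⟨k, hk⟩ := Int.eq_ofNat_of_zero_le hP.deg.le
  have k0 : 0 < k := by have := hP.deg; omega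
  have hb : b₀.1 ≠ 0 := hP.deg.ne'
  obtain ⟨r, ⟨hr, ha⟩, hz⟩ := hP.gs1 a₀
  have hp : ((2 : ℤ) • b₀).1 = ((2 * k : ℕ) : ℤ) := by simp [hk]
  have hr2 : ∀ l, r (l + (2 : ℤ) • b₀) < 0 ↔ r l < 0 := fun l => by
    rw [two_smul, ← add_assoc, ha, ha, ← mul_assoc, neg_mul_neg]
    exact ⟨fun h => neg_of_mul_neg_right h (mul_pos hP.pos hP.pos).le,
      mul_neg_of_pos_of_neg (mul_pos hP.pos hP.pos)⟩
  have hw2 : ∀ l, w (l + (2 : ℤ) • b₀) = w l := fun l => by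
    rw [hw]
    by_cases hd : b₀.1 ∣ l.1
    · obtain ⟨i, g, rfl⟩ := exists_chn hd
      rw [show i • b₀ + (0, g) + (2 : ℤ) • b₀ = (i + 2) • b₀ + (0, g) by rw [add_smul]; abel,
        chn_apply hb, chn_apply hb]
      simp
    · rw [chn_of_not_dvd hd, chn_of_not_dvd]
      intro h
      exact hd ((Int.dvd_add_left (Dvd.intro_left 2 rfl)).1 h)
  obtain ⟨M, hM⟩ : ∃ M : ℤ × μ → Prop, ∀ l, M l ↔ ∃ (i : ℤ) (h : H),
      l = a₀ + i • b₀ + (0, h.1) ∧ (Even i → h ∈ N₀) ∧ (¬ Even i → h ∈ N₁) := ⟨_, fun _ => Iff.rfl⟩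
  have hM2 : ∀ l, M (l + (2 : ℤ) • b₀) ↔ M l := fun l => by
    rw [hM, hM]
    constructor
    · rintro ⟨i, h, e, e'⟩
      refine ⟨i - 2, h, ?_, by simpa [Int.even_sub] using e'⟩
      rw [eq_sub_of_add_eq e, sub_smul]
      abel
    · rintro ⟨i, h, rfl, e'⟩
      refine ⟨i + 2, h, ?_, by simpa [Int.even_add] using e'⟩
      rw [add_smul]
      abel
  have hMr : ∀ l, M l → r l = 0 ∧ Dom D w l := fun l hl => by
    obtain ⟨i, h, rfl, e, e'⟩ := (hM l).1 hl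
    refine ⟨(hz _).2 (mem_St.2 ⟨i, h, h.2, by abel⟩), ?_⟩
    by_cases hi : Even i
    · exact h₀ i hi h (e hi)
    · exact h₁ i hi h (e' hi)
  have key := hs.test hD hr hp (fun l => r l < 0 ∨ M l) w (fun l => by rw [hr2, hM2])
    (fun l => by rw [hw2]) (fun l hl => hl.imp_right (hMr l)) a₀.1
  have c1 : #{l ∈ Box μ a₀.1 (2 * k) | r l < 0 ∨ M l} =
      #{l ∈ Box μ a₀.1 (2 * k) | r l < 0} + #{l ∈ Box μ a₀.1 (2 * k) | M l} := by
    rw [filter_or, card_union_of_disjoint]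
    exact disjoint_filter.2 fun l _ h h' => h.ne (hMr l h').1
  have c2 := ng_alt hk hP.pos ha a₀.1
  have c3 : #{l ∈ Box μ a₀.1 k | r l ≠ 0} + Fintype.card H = k * Fintype.card μ := by
    rw [← Nat.card_eq_fintype_card, ← card_St hk k0 H a₀ a₀.1, ← card_Box a₀.1 k, add_comm,
      ← card_filter_add_card_filter_not (s := Box μ a₀.1 k) fun l => r l = 0]
    congr 2
    exact filter_congr fun l _ => (hz l).symm
  have c4 : #N₀ + #N₁ ≤ #{l ∈ Box μ a₀.1 (2 * k) | M l} := by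
    have inj : ∀ x : ℤ × μ, Function.Injective fun h : H => x + ((0 : ℤ), h.1) := fun x h h' e =>
      Subtype.ext (congrArg Prod.snd (add_left_cancel e))
    rw [← card_image_of_injective N₀ (inj (a₀ + (0 : ℤ) • b₀)),
      ← card_image_of_injective N₁ (inj (a₀ + (1 : ℤ) • b₀)), ← card_union_of_disjoint]
    · refine card_le_card (union_subset (image_subset_iff.2 fun h hh => ?_)
        (image_subset_iff.2 fun h hh => ?_))
      · exact mem_filter.2 ⟨mem_Box.2 (by simp; omega),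
          (hM _).2 ⟨0, h, rfl, fun _ => hh, fun e => absurd Even.zero e⟩⟩
      · exact mem_filter.2 ⟨mem_Box.2 (by simp [hk]; omega),
          (hM _).2 ⟨1, h, rfl, fun e => absurd e Int.not_even_one, fun _ => hh⟩⟩
    · refine disjoint_left.2 fun l h h' => ?_
      obtain ⟨g, -, rfl⟩ := mem_image.1 h
      obtain ⟨g', -, e⟩ := mem_image.1 h'
      exact hb (by simpa using congrArg Prod.fst e)
  have c5 : ng w a₀.1 (2 * k) ≤ (#{h | w₀ h < 0} + #{h | w₁ h < 0} : ℕ) := by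
    rw [ng_eq, chain_per hp fun l => by rw [hw2], ← ng_eq, ng, Nat.cast_le]
    refine (card_le_card (t := (univ.filter fun h => w₀ h < 0).image
        (fun h : H => (0 : ℤ) • b₀ + ((0 : ℤ), h.1)) ∪ (univ.filter fun h => w₁ h < 0).image
        (fun h : H => (1 : ℤ) • b₀ + ((0 : ℤ), h.1))) fun l hl => ?_).trans
      ((card_union_le _ _).trans (add_le_add card_image_le card_image_le))
    obtain ⟨h1, h2⟩ := mem_filter.1 hl
    rw [hw] at h2
    have hd : b₀.1 ∣ l.1 := by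
      by_contra hd
      rw [chn_of_not_dvd hd] at h2
      exact lt_irrefl _ h2
    obtain ⟨i, g, rfl⟩ := exists_chn hd
    rw [chn_apply hb] at h2
    have hg : g ∈ H := by
      by_contra hg
      rw [dif_neg hg] at h2
      exact lt_irrefl _ h2
    rw [dif_pos hg] at h2
    obtain ⟨h3, h4⟩ := mem_Box.1 h1
    simp only [Prod.fst_add, Prod.smul_fst, smul_eq_mul, add_zero, hk, zero_add, Nat.cast_mul,
      Nat.cast_ofNat] at h3 h4
    have k1 : (0 : ℤ) < k := Int.natCast_pos.2 k0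
    have i0 : 0 ≤ i := nonneg_of_mul_nonneg_left h3 k1
    have i1 : i < 2 := lt_of_mul_lt_mul_right h4 k1.le
    obtain rfl | rfl : i = 0 ∨ i = 1 := by omega
    · rw [if_pos Even.zero] at h2
      exact mem_union_left _ (mem_image.2 ⟨⟨g, hg⟩, mem_filter.2 ⟨mem_univ _, h2⟩, rfl⟩)
    · rw [if_neg Int.not_even_one] at h2
      exact mem_union_right _ (mem_image.2 ⟨⟨g, hg⟩, mem_filter.2 ⟨mem_univ _, h2⟩, rfl⟩)
  rw [ng] at c2
  rw [c1] at key
  have c3' := congrArg (Nat.cast : ℕ → ℝ) c3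
  have c4' : ((#N₀ + #N₁ : ℕ) : ℝ) ≤ _ := Nat.cast_le.2 c4
  refine (Nat.cast_le (α := ℝ)).1 ?_
  push_cast at key c3' c4' c5 ⊢
  linarith

/-- the lowest slice of `D` in a coset of `ℤ b₀ + H` (`chain` with `w₀ = w₁ = w`) -/
theorem Pole.pc {a b : AL K (ℤ × μ)} (hs : SMt a b) {c : K} {b₀ : ℤ × μ} {H : AddSubgroup μ}
    [Fintype H] (hP : Pole a b c b₀ H) {D : ℤ × μ → ℝ} {j : ℤ} (hD : Ex a b D j) (a₀ : ℤ × μ)
    (h : ∀ i : ℤ, i < 0 → ∀ g ∈ H, D (a₀ + i • b₀ + (0, g)) = 0) (w : H → ℝ) :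
    2 * #{g : H | ∑ g' : H, D (a₀ + (0, (g - g').1)) * w g' < 0} ≤
      Fintype.card H + 2 * #{g | w g < 0} := by
  classical
  have e : ∀ (i : ℤ) (g : H), g ∈ (univ.filter fun g : H =>
      ∑ g' : H, D (a₀ + (0, (g - g').1)) * w g' < 0) → Dom D (chn b₀ fun i g =>
        if h : g ∈ H then (if Even i then w ⟨g, h⟩ else w ⟨g, h⟩) else 0) (a₀ + i • b₀ + (0, g.1)) :=
    fun i g hg => chain_dom hP.deg (fun _ _ hg => dif_neg hg) i
      (by simpa using (mem_filter.1 hg).2) fun i' hi g' => by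
        rw [h _ (sub_neg.2 hi) _ (g - g').2, zero_mul]
  have := hP.chain hs hD a₀ w w _ _ (by convert rfl) (fun i _ => e i) fun i _ => e i
  omega

/-- sources of both signs at the even steps only (`chain` with `w₁ = 0`, `N₁ = univ`) -/
theorem Pole.ha {a b : AL K (ℤ × μ)} (hs : SMt a b) {c : K} {b₀ : ℤ × μ} {H : AddSubgroup μ}
    [Fintype H] (hP : Pole a b c b₀ H) {D : ℤ × μ → ℝ} {a₀ : ℤ × μ} (hD : Ex a b D a₀.1) {v : ℝ}
    (hv : 0 < v) (h : ∀ g ∈ H, D (a₀ + b₀ + (0, g)) = -v) (w : H → ℝ) (hw : 0 < ∑ g, w g) :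
    #{g : H | ∑ g' : H, D (a₀ + (0, (g - g').1)) * w g' < 0} ≤ #{g | w g < 0} := by
  classical
  have z : ∀ i : ℤ, i < 0 → ∀ g : μ, D (a₀ + i • b₀ + (0, g)) = 0 := fun i hi g =>
    hD.2 _ (by simpa using mul_neg_of_neg_of_pos hi hP.deg)
  have := hP.chain hs hD a₀ w 0
    (univ.filter fun g : H => ∑ g' : H, D (a₀ + (0, (g - g').1)) * w g' < 0) univ rfl
    (fun i hi g hg => chain_dom hP.deg (fun _ _ hg => dif_neg hg) i
      (by simpa [hi] using (mem_filter.1 hg).2) fun i' hi g' => by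
        rw [z _ (sub_neg.2 hi), zero_mul])
    (fun i hi g _ => chain_dom hP.deg (fun _ _ hg => dif_neg hg) (i - 1) (by
      have ev : Even (i - 1) := by simpa [Int.even_sub] using hi
      have e : ∀ g' : H, D (a₀ + b₀ + (0, (g - g').1)) = -v := fun g' => h _ (g - g').2
      simp only [sub_sub_cancel, one_smul, e, SetLike.coe_mem, dif_pos, ev, if_pos, ← mul_sum]
      exact mul_neg_of_neg_of_pos (neg_neg_of_pos hv) hw) fun i' hi' g' => by
        obtain rfl | hl : i' = i ∨ i < i' := by omega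
        · simp [hi]
        · rw [z _ (sub_neg.2 hl), zero_mul])
  simp only [card_univ, Pi.zero_apply, lt_self_iff_false, filter_false, card_empty] at this
  omega

end Pool.Agent.GD
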