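import Pool.Agent.Lib.MP_a01f70_lc.GD.Defs

namespace Pool.Agent.GD
open Finset Pool.Agent.GK

variable {K : Subfield ℝ} {Λ : Type} [AddCommGroup Λ]

theorem cf_add (f f' : AL K Λ) (l : Λ) : cf (f + f') l = cf f l + cf f' l := by
  simp [cf]

theorem cf_sub (f f' : AL K Λ) (l : Λ) : cf (f - f') l = cf f l - cf f' l := by
  simp [cf]

theorem cf_zero (l : Λ) : cf (0 : AL K Λ) l = 0 := by
  simp [cf]

theorem cf_eq_zero {f : AL K Λ} {l : Λ} : cf f l = 0 ↔ f.coeff l = 0 := by
  simp [cf]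

theorem cf_ext {f f' : AL K Λ} (h : ∀ l, cf f l = cf f' l) : f = f' :=
  AddMonoidAlgebra.coeff_injective (Finsupp.ext fun l => Subtype.ext (h l))

open Classical in
theorem cf_sg (j l : Λ) (c : K) : cf (sg j c) l = if j = l then (c : ℝ) else 0 := by
  simp only [cf, AddMonoidAlgebra.coeff_single, Finsupp.single_apply]
  split_ifs <;> simp

theorem cf_sg_mul (j : Λ) (c : K) (f : AL K Λ) (l : Λ) : cf (sg j c * f) l = c * cf f (l - j) := by
  simp [cf, AddMonoidAlgebra.coeff_single_mul_apply, neg_add_eq_sub]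

theorem cf_sum {ι : Type} (s : Finset ι) (f : ι → AL K Λ) (l : Λ) :
    cf (∑ i ∈ s, f i) l = ∑ i ∈ s, cf (f i) l := by
  simp [cf, Finsupp.finsetSum_apply]

theorem cf_rv (f : AL K Λ) (l : Λ) : cf (rv f) l = cf f (-l) := by
  have h := Finsupp.mapDomain_apply (neg_injective (G := Λ)) f.coeff (-l)
  rw [neg_neg] at h
  exact congrArg Subtype.val h

theorem rv_sg (j : Λ) (c : K) : rv (sg j c) = sg (-j) c := AddMonoidAlgebra.mapDomain_single

theorem rv_rv (f : AL K Λ) : rv (rv f) = f := cf_ext fun l => by rw [cf_rv, cf_rv, neg_neg]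

theorem sg_mul (j j' : Λ) (c c' : K) : sg j c * sg j' c' = sg (j + j') (c * c') :=
  AddMonoidAlgebra.single_mul_single _ _ _ _

theorem isUnit_sg (j : Λ) {c : K} (hc : c ≠ 0) : IsUnit (sg j c) :=
  IsUnit.of_mul_eq_one (sg (-j) c⁻¹) (by
    rw [sg_mul, add_neg_cancel, mul_inv_cancel₀ hc, AddMonoidAlgebra.one_def])

theorem cv_eq_sum {f : AL K Λ} {S : Finset Λ} (h : f.coeff.support ⊆ S) (z : Λ → ℝ) (l : Λ) :
    cv f z l = ∑ j ∈ S, cf f j * z (l - j) :=
  Finsupp.sum_of_support_subset _ h _ fun _ _ => by simp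

theorem cv_sg (j : Λ) (c : K) (z : Λ → ℝ) (l : Λ) : cv (sg j c) z l = c * z (l - j) :=
  Finsupp.sum_single_index (by simp)

theorem cv_one (z : Λ → ℝ) : cv (1 : AL K Λ) z = z := funext fun l => by
  rw [AddMonoidAlgebra.one_def, cv_sg]
  simp

theorem cv_add (f f' : AL K Λ) (z : Λ → ℝ) : cv (f + f') z = cv f z + cv f' z :=
  funext fun _ => Finsupp.sum_add_index' (fun _ => by simp) fun _ _ _ => by simp [add_mul]

theorem cv_zero_left (z : Λ → ℝ) : cv (0 : AL K Λ) z = 0 := funext fun _ => by simp [cv]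

theorem cv_sub (f f' : AL K Λ) (z : Λ → ℝ) : cv (f - f') z = cv f z - cv f' z :=
  eq_sub_of_add_eq (by rw [← cv_add, sub_add_cancel])

theorem cv_mul (f f' : AL K Λ) (z : Λ → ℝ) : cv (f * f') z = cv f (cv f' z) := by
  induction f using AddMonoidAlgebra.induction_linear with
  | zero => rw [zero_mul, cv_zero_left, cv_zero_left]
  | add f g hf hg => rw [add_mul, cv_add, cv_add, hf, hg]
  | single j c =>
    funext l
    rw [cv_sg]
    induction f' using AddMonoidAlgebra.induction_linear with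
    | zero => simp [cv_zero_left]
    | add f g hf hg => rw [mul_add, cv_add, cv_add, Pi.add_apply, Pi.add_apply, hf, hg, mul_add]
    | single j' c' =>
      rw [sg_mul, cv_sg, cv_sg, sub_sub]
      push_cast
      ring

theorem cv_Pb (c : K) (b : Λ) (z : Λ → ℝ) (l : Λ) : cv (Pb c b) z l = z l + c * z (l - b) := by
  rw [Pb, cv_add, cv_one, Pi.add_apply, cv_sg]

theorem cv_zero (f : AL K Λ) : cv f 0 = 0 := funext fun _ => by simp [cv]

theorem cv_add_right (f : AL K Λ) (z z' : Λ → ℝ) : cv f (z + z') = cv f z + cv f z' :=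
  funext fun _ => by simp [cv, mul_add, Finsupp.sum_add]

theorem cv_smul (f : AL K Λ) (t : ℝ) (z : Λ → ℝ) : cv f (t • z) = t • cv f z :=
  funext fun _ => by simp [cv, Finsupp.mul_sum, mul_left_comm]

theorem cv_shift (f : AL K Λ) (z : Λ → ℝ) (j : Λ) :
    cv f (fun l => z (l + j)) = fun l => cv f z (l + j) := funext fun _ => by
  simp only [cv, add_sub_right_comm]

theorem cv_cf (f f' : AL K Λ) : cv f (cf f') = cf (f * f') := by
  induction f using AddMonoidAlgebra.induction_linear with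
  | zero => rw [zero_mul, cv_zero_left]; exact funext fun l => (cf_zero l).symm
  | add f g hf hg => rw [add_mul, cv_add, hf, hg]; exact funext fun l => (cf_add _ _ l).symm
  | single j c => exact funext fun l => by rw [cv_sg, cf_sg_mul]

theorem cv_rv (f : AL K Λ) (z : Λ → ℝ) : cv (rv f) (fun l => z (-l)) = fun l => cv f z (-l) := by
  induction f using AddMonoidAlgebra.induction_linear with
  | zero => rw [map_zero, cv_zero_left, cv_zero_left]; rfl
  | add f g hf hg => rw [map_add, cv_add, cv_add, hf, hg]; rfl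
  | single j c => exact funext fun l => by rw [rv_sg, cv_sg, cv_sg, sub_neg_eq_add, neg_add']

/-- a linear functional on the group algebra is a function on the group -/
theorem cv_fun (Z : AL K Λ →ₗ[K] ℝ) (f : AL K Λ) (l : Λ) :
    cv f (fun j => Z (sg (-j) 1)) l = Z (f * sg (-l) 1) := by
  induction f using AddMonoidAlgebra.induction_linear with
  | zero => simp [cv_zero_left]
  | add f g hf hg => rw [add_mul, cv_add, Pi.add_apply, hf, hg, map_add]
  | single j c =>
    have h : sg (j + -l) (c * 1) = c • sg (-(l - j)) (1 : K) := by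
      rw [AddMonoidAlgebra.smul_single, neg_sub, sub_eq_add_neg, smul_eq_mul]
    rw [cv_sg, sg_mul, h, map_smul]
    rfl

/-- a function on the group is a linear functional -/
theorem exists_fun (z : Λ → ℝ) : ∃ Z : AL K Λ →ₗ[K] ℝ, ∀ f l, Z (f * sg (-l) 1) = cv f z l := by
  refine ⟨⟨⟨fun f => cv f z 0, fun f g => congrFun (cv_add f g z) 0⟩, fun c f => ?_⟩, fun f l => ?_⟩
  · have h : c • f = sg 0 c * f := by
      rw [Algebra.smul_def]
      rfl
    show cv (c • f) z 0 = (c : ℝ) * cv f z 0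
    rw [h, cv_mul, cv_sg, sub_zero]
  · show cv (f * sg (-l) 1) z 0 = _
    rw [mul_comm, cv_mul, cv_sg]
    simp

theorem RV.zero (a b : AL K Λ) : RV a b 0 0 := ⟨0, cv_zero a, cv_zero b⟩

theorem RV.add {a b : AL K Λ} {x y x' y' : Λ → ℝ} (h : RV a b x y) (h' : RV a b x' y') :
    RV a b (x + x') (y + y') := by
  obtain ⟨z, rfl, rfl⟩ := h
  obtain ⟨z', rfl, rfl⟩ := h'
  exact ⟨z + z', cv_add_right _ _ _, cv_add_right _ _ _⟩

theorem RV.smul {a b : AL K Λ} {x y : Λ → ℝ} (h : RV a b x y) (t : ℝ) : RV a b (t • x) (t • y) := by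
  obtain ⟨z, rfl, rfl⟩ := h
  exact ⟨t • z, cv_smul _ _ _, cv_smul _ _ _⟩

theorem RV.shift {a b : AL K Λ} {x y : Λ → ℝ} (h : RV a b x y) (j : Λ) :
    RV a b (fun l => x (l + j)) (fun l => y (l + j)) := by
  obtain ⟨z, rfl, rfl⟩ := h
  exact ⟨_, cv_shift _ _ _, cv_shift _ _ _⟩

theorem RV.sum {a b : AL K Λ} {ι : Type} (s : Finset ι) {x y : ι → Λ → ℝ}
    (h : ∀ i ∈ s, RV a b (x i) (y i)) : RV a b (∑ i ∈ s, x i) (∑ i ∈ s, y i) := by
  classical
  induction s using Finset.induction_on with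
  | empty => simpa using RV.zero a b
  | insert i s hi ih =>
    rw [sum_insert hi, sum_insert hi]
    exact (h i (mem_insert_self _ _)).add (ih fun j hj => h j (mem_insert_of_mem hj))

theorem RV.symm {a b : AL K Λ} {x y : Λ → ℝ} (h : RV a b x y) : RV b a y x :=
  h.imp fun _ hz => hz.symm

theorem RV.rv {a b : AL K Λ} {x y : Λ → ℝ} (h : RV a b x y) :
    RV (rv a) (rv b) (fun l => x (-l)) (fun l => y (-l)) := by
  obtain ⟨z, rfl, rfl⟩ := h
  exact ⟨_, cv_rv _ _, cv_rv _ _⟩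

theorem cv_factor {k U V W : Type} [Field k] [AddCommGroup U] [Module k U] [AddCommGroup V]
    [Module k V] [AddCommGroup W] [Module k W] (Φ : U →ₗ[k] V) (Ψ : U →ₗ[k] W)
    (h : Φ.ker ≤ Ψ.ker) : ∃ Z : V →ₗ[k] W, ∀ p, Z (Φ p) = Ψ p := by
  obtain ⟨Z, hZ⟩ := LinearMap.exists_extend
    ((Φ.ker.liftQ Ψ h).comp Φ.quotKerEquivRange.symm.toLinearMap)
  refine ⟨Z, fun p => ?_⟩
  have h1 := LinearMap.congr_fun hZ ⟨Φ p, LinearMap.mem_range_self Φ p⟩
  simpa [LinearMap.quotKerEquivRange_symm_apply_image] using h1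

/-- Two functionals `X`, `Y` with `X f + Y g = 0` whenever `f a + g b = 0` define a functional on the ideal
`(a, b)`; extend it (`LinearMap.exists_extend`, or `LinearMap.exists_leftInverse_of_injective`), `cv_fun`. -/
theorem rv_of_fun {a b : AL K Λ} (X Y : AL K Λ →ₗ[K] ℝ)
    (h : ∀ f g, f * a + g * b = 0 → X f + Y g = 0) :
    RV a b (fun l => X (sg (-l) 1)) (fun l => Y (sg (-l) 1)) := by
  let Φ : AL K Λ × AL K Λ →ₗ[K] AL K Λ := (LinearMap.mulRight K a).coprod (LinearMap.mulRight K b)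
  have hle : Φ.ker ≤ (X.coprod Y).ker := fun p hp => h p.1 p.2 hp
  obtain ⟨Z, key⟩ := cv_factor Φ (X.coprod Y) hle
  refine ⟨fun j => Z (sg (-j) 1), funext fun l => ?_, funext fun l => ?_⟩
  · simpa [Φ, cv_fun, mul_comm] using key (sg (-l) 1, 0)
  · simpa [Φ, cv_fun, mul_comm] using key (0, sg (-l) 1)

/-- `exists_fun`, `rv_of_fun` with `X f = Z (f a')`, `Y g = Z (g b')`: `f a + g b = 0` gives `a (f a' + g b') = 0`. -/
theorem RV.congr {a b a' b' : AL K Λ} (ha : a ∈ nonZeroDivisors (AL K Λ)) (he : a * b' = a' * b)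
    {x y : Λ → ℝ} (h : RV a' b' x y) : RV a b x y := by
  obtain ⟨z, rfl, rfl⟩ := h
  obtain ⟨Z, hZ⟩ := exists_fun (K := K) z
  have h1 := rv_of_fun (a := a) (b := b) (Z.comp (LinearMap.mulRight K a'))
    (Z.comp (LinearMap.mulRight K b')) fun f g hfg => by
      have h2 : f * a' + g * b' = 0 := (mul_left_mem_nonZeroDivisors_eq_zero_iff ha).1 (by
        linear_combination a' * hfg + g * he)
      simp only [LinearMap.comp_apply, LinearMap.mulRight_apply]
      rw [← map_add, h2, map_zero]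
  simpa only [LinearMap.comp_apply, LinearMap.mulRight_apply, mul_comm (sg _ _), hZ] using h1

theorem mem_Den {a b η : AL K Λ} : η ∈ Den a b ↔ a ∣ η * b := by
  rw [Den, Submodule.mem_colon_singleton, Ideal.mem_span_singleton, smul_eq_mul]

theorem Gs.shift {a b : AL K Λ} {c : K} {b₀ : Λ} {r : Λ → ℝ} (h : Gs a b c b₀ r) (j : Λ) :
    Gs a b c b₀ fun l => r (l + j) :=
  ⟨h.1.shift j, fun l => by simp only [add_right_comm l b₀ j, h.2]⟩

theorem Gs.neg {a b : AL K Λ} {c : K} {b₀ : Λ} {r : Λ → ℝ} (h : Gs a b c b₀ r) :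
    Gs a b c b₀ (-r) :=
  ⟨by simpa using h.1.smul (-1), fun l => by simp [h.2]⟩

theorem Gs.zsmul {a b : AL K Λ} {c : K} (hc : c ≠ 0) {b₀ : Λ} {r : Λ → ℝ} (h : Gs a b c b₀ r) (i : ℤ)
    (l : Λ) : r (l + i • b₀) = (-(c : ℝ)) ^ i * r l := by
  have hc' : -(c : ℝ) ≠ 0 := by simpa using hc
  induction i using Int.induction_on with
  | zero => simp
  | succ i ih => rw [add_smul, one_smul, ← add_assoc, h.2, ih, zpow_add_one₀ hc']; ring
  | pred i ih =>
    have h1 := h.2 (l + (-(i : ℤ) - 1) • b₀)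
    rw [add_assoc, ← add_one_zsmul, sub_add_cancel, ih] at h1
    rw [zpow_sub_one₀ hc', mul_right_comm, h1, mul_right_comm, mul_inv_cancel₀ hc', one_mul]

/-- a denominator kills every response without source -/
theorem RV.cv_eq_zero {a b η : AL K Λ} {r : Λ → ℝ} (h : RV a b 0 r) (hη : a ∣ η * b) :
    cv η r = 0 := by
  obtain ⟨z, h0, rfl⟩ := h
  obtain ⟨e, he⟩ := hη
  rw [← cv_mul, he, mul_comm, cv_mul, h0, cv_zero]

end Pool.Agent.GD
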