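import Pool.Agent.Lib.MP_a01f70_lc.GD.Deg

namespace Pool.Agent.GD
open Finset Pool.Agent.GK

theorem nu0_alg1 {R : Type} [CommRing R] {u ξ ξ' P P' s : R} (h1 : u * (ξ - P * s) = 0)
    (he : ξ * ξ' = P * P') : (u * P' - u * s * ξ') * P = 0 := by
  linear_combination ξ' * h1 - u * he

theorem nu0_alg2 {R : Type} [CommRing R] {u ξ' P' s s' : R} (h2 : 1 = s * s')
    (h5 : u * P' - u * s * ξ' = 0) : u * ξ' = P' * (u * s') := by
  linear_combination u * ξ' * h2 - s' * h5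

theorem nu0_alg12 {R : Type} [CommRing R] {u ξ ξ' P P' s s' : R} (hP : P ∈ nonZeroDivisors R)
    (h1 : u * (ξ - P * s) = 0) (he : ξ * ξ' = P * P') (h2 : 1 = s * s') : P' ∣ u * ξ' :=
  ⟨_, nu0_alg2 h2 (mem_nonZeroDivisors_iff.1 hP |>.2 _ (nu0_alg1 h1 he))⟩

theorem nu0_alg3 {R : Type} [CommRing R] (a b : R) : (1 + a) * (1 + b) = 1 + a + b + a * b := by
  ring

theorem nu0_alg4 {R : Type} [CommRing R] (N ξ ξ' : R) : N * ξ * (N * ξ') = N * (N * (ξ * ξ')) := by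
  ring

variable {K : Subfield ℝ} {μ : Type} [AddCommGroup μ] [Fintype μ]

omit [Fintype μ] in
/-- `([h] - 1) ξ = P ζ`; by `span_Pb`, `ζ` lies in degree `j`, so it is the slice `([h] - 1) * sl ξ j` -/
theorem inv_eq {c : K} (hc : c ≠ 0) {b : ℤ × μ} (hb : 0 < b.1) {ξ : AL K (ℤ × μ)} {j : ℤ}
    (hl : Low ξ j) (hh : High ξ (j + b.1)) {g : μ} (h : Pb c b ∣ (sg (0, g) 1 - 1) * ξ) :
    (sg (0, g) 1 - 1) * (ξ - Pb c b * sl ξ j) = 0 := by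
  obtain ⟨ζ, hζ⟩ := h
  have u1 : Low (sg ((0 : ℤ), g) (1 : K) - 1) 0 := (low_sg _ _).sub low_one
  have u2 : High (sg ((0 : ℤ), g) (1 : K) - 1) 0 := (high_sg _ _).sub high_one
  have h1 := u1.mul hl
  have h2 := u2.mul hh
  have h3 := u1.sl_mul hl
  rw [hζ, zero_add] at h1 h2
  obtain ⟨h4, h5⟩ := span_Pb hc hb h1 h2
  rw [hζ, (low_Pb c hb).1.sl_mul h4, (low_Pb c hb).2, one_mul, sl_eq_self h4 h5,
    sl_eq_self u1 u2] at h3
  rw [mul_sub, hζ, mul_left_comm, ← h3, sub_self]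

omit [Fintype μ] in
/-- multiply `inv_eq` by `ξ'`, cancel `P`, and use `sl ξ j * sl ξ' (-j) = 1` -/
theorem inv_other {c c' : K} (hc : c ≠ 0) {b b' : ℤ × μ} (hb : 0 < b.1) (hb' : 0 < b'.1)
    {ξ ξ' : AL K (ℤ × μ)} (he : ξ * ξ' = Pb c b * Pb c' b') {j : ℤ} (hl : Low ξ j)
    (hh : High ξ (j + b.1)) (hl' : Low ξ' (-j)) {g : μ} (h : Pb c b ∣ (sg (0, g) 1 - 1) * ξ) :
    Pb c' b' ∣ (sg (0, g) 1 - 1) * ξ' := by
  have h1 := inv_eq hc hb hl hh h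
  have h2 := hl.sl_mul hl'
  have h3 := (low_Pb c hb).1.sl_mul (low_Pb c' hb').1
  rw [(low_Pb c hb).2, (low_Pb c' hb').2, one_mul, add_zero] at h3
  rw [add_neg_cancel, he, h3] at h2
  exact nu0_alg12 (nzd_Pb c hb) h1 he h2

omit [Fintype μ] in
theorem nu0_cf {H : AddSubgroup μ} [Fintype H] (ξ : AL K (ℤ × μ)) (l : ℤ × μ) :
    cf ((∑ g : H, sg ((0 : ℤ), -g.1) (1 : K)) * ξ) l = ∑ g : H, cf ξ (l + (0, g.1)) := by
  rw [sum_mul, cf_sum]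
  refine sum_congr rfl fun g _ => ?_
  rw [cf_sg_mul, sub_eq_add_neg]
  simp

omit [Fintype μ] in
theorem nu0_pos {H : AddSubgroup μ} [Fintype H] {ξ : AL K (ℤ × μ)}
    (hp : ∀ a, (∀ g ∈ H, cf ξ (a + (0, g)) = 0) ∨ 0 < ∑ g : H, cf ξ (a + (0, g.1))) (l : ℤ × μ) :
    0 ≤ cf ((∑ g : H, sg ((0 : ℤ), -g.1) (1 : K)) * ξ) l ∧
      (cf ξ l ≠ 0 → 0 < cf ((∑ g : H, sg ((0 : ℤ), -g.1) (1 : K)) * ξ) l) := by
  rw [nu0_cf]
  rcases hp l with h | h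
  · refine ⟨(sum_eq_zero fun g _ => h g.1 g.2).ge, fun h0 => absurd ?_ h0⟩
    have := h 0 H.zero_mem
    rwa [Prod.mk_zero_zero, add_zero] at this
  · exact ⟨h.le, fun _ => h⟩

omit [Fintype μ] in
theorem nu0_slice {ξ : AL K (ℤ × μ)} {j : ℤ} (h : sl ξ j ≠ 0) : ∃ l, l.1 = j ∧ cf ξ l ≠ 0 := by
  by_contra hcon
  push Not at hcon
  refine h (cf_ext fun l => ?_)
  rw [cf_sl, cf_zero]
  split_ifs with h1
  · exact hcon l h1
  · rfl

/-- With `N = ∑ h ∈ H, [h]`, `n = N ξ` and `n' = N ξ'` have nonnegative coefficients, positive on the supports of `ξ`, `ξ'`,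
and `n n' = N N P P'` is supported on `{0, b, b', b + b'} + H`. So `x + x'` lies in this set for `x` in the support
of `ξ` and `x'` in the support of `ξ'`. Use a point `x'` of degree `-j` and one of degree `-j + deg b'`. -/
theorem two_cosets {c c' : K} {b b' : ℤ × μ} (hb : 0 < b.1) (hbb : b.1 ≤ b'.1)
    {ξ ξ' : AL K (ℤ × μ)} (he : ξ * ξ' = Pb c b * Pb c' b') {H : AddSubgroup μ} [Fintype H]
    (hp : ∀ a, (∀ g ∈ H, cf ξ (a + (0, g)) = 0) ∨ 0 < ∑ g : H, cf ξ (a + (0, g.1)))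
    (hp' : ∀ a, (∀ g ∈ H, cf ξ' (a + (0, g)) = 0) ∨ 0 < ∑ g : H, cf ξ' (a + (0, g.1))) {j : ℤ}
    (hh : High ξ (j + b.1)) (h0 : sl ξ' (-j) ≠ 0) (h1 : sl ξ' (-j + b'.1) ≠ 0) :
    ∃ a₀ a₁ : ℤ × μ, a₀.1 = j ∧ a₁.1 = j + b.1 ∧
      ∀ l, cf ξ l ≠ 0 → ∃ g ∈ H, l = a₀ + (0, g) ∨ l = a₁ + (0, g) := by
  classical
  have key : ∀ x x', cf ξ x ≠ 0 → cf ξ' x' ≠ 0 → ∃ g ∈ H, x + x' + (0, g) = 0 ∨
      x + x' + (0, g) = b ∨ x + x' + (0, g) = b' ∨ x + x' + (0, g) = b + b' := by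
    intro x x' hx hx'
    have h2 : 0 < cf (((∑ g : H, sg ((0 : ℤ), -g.1) (1 : K)) * ξ) *
        ((∑ g : H, sg ((0 : ℤ), -g.1) (1 : K)) * ξ')) (x + x') := by
      rw [← cv_cf, cv_eq_sum (subset_insert x _)]
      refine sum_pos' (fun y _ => mul_nonneg (nu0_pos hp _).1 (nu0_pos hp' _).1)
        ⟨x, mem_insert_self _ _, mul_pos ((nu0_pos hp _).2 hx) ?_⟩
      rw [add_sub_cancel_left]
      exact (nu0_pos hp' _).2 hx'
    rw [nu0_alg4, he, nu0_cf] at h2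
    obtain ⟨g, -, h3⟩ := exists_ne_zero_of_sum_ne_zero h2.ne'
    rw [nu0_cf] at h3
    obtain ⟨g', -, h4⟩ := exists_ne_zero_of_sum_ne_zero h3
    refine ⟨g.1 + g'.1, H.add_mem g.2 g'.2, ?_⟩
    have h5 : x + x' + (0, g.1) + (0, g'.1) = x + x' + (0, g.1 + g'.1) := by
      rw [add_assoc]
      simp
    rw [h5] at h4
    generalize x + x' + (0, g.1 + g'.1) = y at h4
    by_contra hcon
    push Not at hcon
    apply h4
    have h6 : Pb c b * Pb c' b' = sg 0 1 + sg b c + sg b' c' + sg (b + b') (c * c') := by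
      rw [← sg_mul, Pb, Pb]
      exact nu0_alg3 _ _
    rw [h6, cf_add, cf_add, cf_add, cf_sg, cf_sg, cf_sg, cf_sg, if_neg hcon.1.symm,
      if_neg hcon.2.1.symm, if_neg hcon.2.2.1.symm, if_neg hcon.2.2.2.symm]
    simp
  obtain ⟨p, p1, p2⟩ := nu0_slice h0
  obtain ⟨q, q1, q2⟩ := nu0_slice h1
  refine ⟨-p, b + b' - q, by simp [p1], by simp [q1]; ring, fun l hl => ?_⟩
  have h2 : ¬ j + b.1 < l.1 := fun h => hl (cf_eq_zero.2 (hh l h))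
  obtain ⟨g, hg, h3⟩ := key l p hl p2
  obtain ⟨g', hg', h4⟩ := key l q hl q2
  have e : ∀ (g : μ) (x y : ℤ × μ), l + x + (0, g) = y → l = y - x + (0, -g) ∧ l.1 + x.1 = y.1 := by
    rintro g x y rfl
    refine ⟨?_, by simp⟩
    rw [show ((0 : ℤ), -g) = -((0 : ℤ), g) by simp]
    abel
  rcases h3 with h3 | h3
  · exact ⟨-g, H.neg_mem hg, Or.inl (by simpa using (e _ _ _ h3).1)⟩
  have h5 : l.1 = j + b.1 := by
    rcases h3 with h3 | h3 | h3 <;> have := (e _ _ _ h3).2 <;>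
      (try simp only [Prod.fst_add] at this) <;> omega
  rcases h4 with h4 | h4 | h4 | h4
  · have := (e _ _ _ h4).2
    simp only [Prod.fst_zero] at this
    omega
  · have := (e _ _ _ h4).2
    omega
  · have := (e _ _ _ h4).2
    omega
  · exact ⟨-g', H.neg_mem hg', Or.inr (e _ _ _ h4).1⟩

end Pool.Agent.GD
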