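import Pool.Agent.Lib.MP_a01f70_lc.GD.HX
import Pool.Agent.Lib.MP_a01f70_lc.GD.Nu0

namespace Pool.Agent.GD
open Finset Pool.Agent.GK

variable {K : Subfield ℝ} {μ : Type} [AddCommGroup μ] [Fintype μ]

/-- As many poles as zeros. `H = H'` by `inv_other` and `Pole.max`; `pos_low`, `pos_high`, `two_cosets`. Suppose `H ≠ ⊥`,
`D₀ = sl ξ j` (a unit, supported on `a₀ + H`), `η = ξ - P D₀` is invariant under `H` (`inv_eq`) and lies in degree
`j + deg b`. If `a₁ ∉ a₀ + b + H` then `D₀` is invariant, which is absurd. Otherwise `η` is a constant `-v` on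
`a₀ + b + H` and zero elsewhere; `v = 0` contradicts `Pole.not_dvd`, `v ≠ 0` contradicts `Pole.hx`. -/
theorem nu_zero (hμ : Odd (Fintype.card μ)) {c c' : K} {b b' : ℤ × μ} {ξ ξ' : AL K (ℤ × μ)}
    {H H' : AddSubgroup μ} (hs : SMt (Pb c b) ξ) (hP : Pole (Pb c b) ξ c b H)
    (hs' : SMt (Pb c' b') ξ') (hP' : Pole (Pb c' b') ξ' c' b' H') (he : ξ * ξ' = Pb c b * Pb c' b')
    (hbb : b.1 ≤ b'.1) {j : ℤ} (hl : Low ξ j) (hh : High ξ (j + b.1)) (hl' : Low ξ' (-j))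
    (hh' : High ξ' (-j + b'.1)) : H = ⊥ ∧ Two ξ b := by
  classical
  have hb := hP.deg
  have hb' := hP'.deg
  have hc : c ≠ 0 := fun e => by simpa [e] using hP.pos
  have hc' : c' ≠ 0 := fun e => by simpa [e] using hP'.pos
  obtain rfl : H = H' := le_antisymm
    (fun g hg => hP'.max (inv_other hc hb hb' he hl hh hl' (hP.inv g hg)))
    fun g hg => hP.max (inv_other hc' hb' hb (by rw [mul_comm, he, mul_comm]) hl' hh'
      (by rwa [neg_neg]) (hP'.inv g hg))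
  have hp : ∀ a, (∀ g ∈ H, cf ξ (a + (0, g)) = 0) ∨ 0 < ∑ g : H, cf ξ (a + (0, g.1)) := fun a =>
    (lt_or_ge a.1 (j + b.1)).elim (hP.pos_low hμ hs hl) fun h => hP.pos_high hμ hs hh (by omega)
  have hp' : ∀ a, (∀ g ∈ H, cf ξ' (a + (0, g)) = 0) ∨ 0 < ∑ g : H, cf ξ' (a + (0, g.1)) := fun a =>
    (lt_or_ge a.1 (-j + b'.1)).elim (hP'.pos_low hμ hs' hl') fun h =>
      hP'.pos_high hμ hs' hh' (by omega)
  have e0 : sl ξ j * sl ξ' (-j) = 1 := by
    rw [← hl.sl_mul hl', he, add_neg_cancel, ← add_zero (0 : ℤ),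
      (low_Pb c hb).1.sl_mul (low_Pb c' hb').1, (low_Pb c hb).2, (low_Pb c' hb').2, one_mul]
  have e1 : sl ξ (j + b.1) * sl ξ' (-j + b'.1) ≠ 0 := by
    rw [← hh.sl_mul hh', he, show j + b.1 + (-j + b'.1) = b.1 + b'.1 by ring,
      (high_Pb c hb).1.sl_mul (high_Pb c' hb').1, (high_Pb c hb).2, (high_Pb c' hb').2]
    exact ((isUnit_sg b hc).mul (isUnit_sg b' hc')).ne_zero
  obtain ⟨a₀, a₁, rfl, h1, h2⟩ := two_cosets hb hbb he hp hp' hh
    (right_ne_zero_of_mul (e0 ▸ one_ne_zero)) (right_ne_zero_of_mul e1)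
  have h3 : ∃ g ∈ H, cf ξ (a₀ + (0, g)) ≠ 0 := by
    by_contra h4
    push Not at h4
    refine left_ne_zero_of_mul (e0 ▸ one_ne_zero) (cf_ext fun l => ?_)
    rw [cf_sl, cf_zero]
    split_ifs with h5
    · by_contra h6
      obtain ⟨g, hg, rfl | rfl⟩ := h2 l h6
      · exact h6 (h4 g hg)
      · simp at h5
        omega
    · rfl
  have hcf : ∀ l, cf (Pb c b * sl ξ a₀.1) l = (if l.1 = a₀.1 then cf ξ l else 0) +
      c * if l.1 - b.1 = a₀.1 then cf ξ (l - b) else 0 := fun l => by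
    rw [Pb, add_mul, one_mul, cf_add, cf_sg_mul, cf_sl, cf_sl]
    rfl
  have hH : H = ⊥ := by
    by_contra hH
    have h4 : ∀ g ∈ H, cf ξ (a₀ + b + (0, g)) - c * cf ξ (a₀ + (0, g)) =
        -(-(cf ξ (a₀ + b) - c * cf ξ a₀)) := fun g hg => by
      have h5 := congrArg (cf · (a₀ + b + (0, g))) (inv_eq hc hb hl hh (hP.inv g hg))
      simp only [sub_mul, one_mul, cf_sub, cf_sg_mul, cf_zero, add_sub_cancel_right, hcf] at h5
      have h6 : a₀ + b + (0, g) - b = a₀ + (0, g) := by abel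
      simp [hb.ne', h6] at h5
      linarith
    by_cases hv : -(cf ξ (a₀ + b) - c * cf ξ a₀) = 0
    · rw [hv, neg_zero] at h4
      obtain ⟨g₀, hg₀, h5⟩ := h3
      have h6 : cf ξ (a₀ + b + (0, g₀)) ≠ 0 := by
        rw [sub_eq_zero.1 (h4 g₀ hg₀)]
        exact mul_ne_zero hP.pos.ne' h5
      obtain ⟨g₁, hg₁, h7 | h7⟩ := h2 _ h6
      · have h8 := congrArg Prod.fst h7
        simp at h8
        omega
      obtain rfl : a₁ = a₀ + b + (0, g₀ - g₁) := by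
        rw [← add_left_inj ((0 : ℤ), g₁), ← h7]
        ext <;> simp [add_assoc]
      refine hP.not_dvd ⟨sl ξ a₀.1, cf_ext fun l => ?_⟩
      rw [hcf]
      split_ifs with e2 e3 e3
      · omega
      · simp
      · by_cases e4 : ∃ g ∈ H, l = a₀ + b + (0, g)
        · obtain ⟨g, hg, rfl⟩ := e4
          rw [sub_eq_zero.1 (h4 g hg), zero_add, add_right_comm, add_sub_cancel_right]
        · have e5 : cf ξ (l - b) = 0 := by
            by_contra e6
            obtain ⟨g, hg, e7 | e7⟩ := h2 _ e6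
            · exact e4 ⟨g, hg, by rw [add_right_comm, ← e7, sub_add_cancel]⟩
            · have e8 := congrArg Prod.fst e7
              simp at e8
              omega
          rw [e5, mul_zero, add_zero]
          by_contra e6
          obtain ⟨g, hg, e7 | e7⟩ := h2 _ e6
          · exact e2 (by simp [e7])
          · exact e4 ⟨g₀ - g₁ + g, add_mem (sub_mem hg₀ hg₁) hg, by
              rw [e7]
              ext <;> simp [add_assoc]⟩
      · rw [mul_zero, add_zero]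
        by_contra e6
        obtain ⟨g, hg, e7 | e7⟩ := h2 _ e6
        · exact e2 (by simp [e7])
        · exact e3 (by simp [e7])
    · exact hP.hx hμ hs hH hl hh hv h4
  subst hH
  have hq : ∀ a, 0 ≤ cf ξ a := fun a => by
    rcases hp a with h | h
    · simpa [Prod.mk_zero_zero] using (h 0 (zero_mem _)).ge
    · refine not_lt.1 fun h5 => h.not_ge (sum_nonpos fun g _ => ?_)
      rw [AddSubgroup.mem_bot.1 g.2, Prod.mk_zero_zero, add_zero]
      exact h5.le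
  have hne : a₀ ≠ a₁ := fun e => by rw [← e] at h1; omega
  refine ⟨rfl, a₀, a₁, ξ.coeff a₀, ξ.coeff a₁, ?_, hq a₁, hne, by omega, h1.le, cf_ext fun l => ?_⟩
  · obtain ⟨g, hg, h4⟩ := h3
    rw [AddSubgroup.mem_bot.1 hg, Prod.mk_zero_zero, add_zero] at h4
    exact (hq a₀).lt_of_ne h4.symm
  · rw [cf_add, cf_sg, cf_sg]
    split_ifs with e2 e3 e3
    · exact absurd (e2.trans e3.symm) hne
    · rw [add_zero, e2, cf]
    · rw [zero_add, e3, cf]
    · rw [add_zero]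
      by_contra e6
      obtain ⟨g, hg, e7⟩ := h2 _ e6
      rw [AddSubgroup.mem_bot.1 hg, Prod.mk_zero_zero, add_zero, add_zero] at e7
      exact e7.elim (fun e => e2 e.symm) fun e => e3 e.symm

theorem d2_deg {P ξ : AL K (ℤ × μ)} (h : Side P ξ) : ∃ k : ℤ, Low P 0 ∧ sl P 0 = 1 ∧ High P k ∧
    IsUnit (sl P k) ∧ ((P = 1 ∧ k = 0) ∨ ∃ c b H, P = Pb c b ∧ Pole P ξ c b H ∧ k = b.1) := by
  rcases h.2 with rfl | ⟨c, b, H, rfl, hP⟩
  · have h1 := sl_eq_self (low_one (K := K) (μ := μ)) high_one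
    exact ⟨0, low_one, h1, high_one, h1.symm ▸ isUnit_one, .inl ⟨rfl, rfl⟩⟩
  · exact ⟨b.1, (low_Pb c hP.deg).1, (low_Pb c hP.deg).2, (high_Pb c hP.deg).1,
      (high_Pb c hP.deg).2.symm ▸ isUnit_sg b (fun e => by simpa [e] using hP.pos),
      .inr ⟨c, b, H, rfl, hP, rfl⟩⟩

/-- Lowest degrees `j`, `j'` and highest degrees `i`, `i'` of `ξ`, `ξ'` (`exists_low`, `exists_high`); `Side.low`, `Side.high`,
`tot_mul`, `Low.unique` give `j + j' = 0` and `i + i' = k + k'` (`k = deg b`, or `0` for `P = 1`). If `i - j < k`,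
`nu_neg`; if `i' - j' < k'`, the same for `ξ'`; otherwise `i - j = k`, `i' - j' = k'`: for `P = 1` take `η = sl ξ' (-j)`,
for `P' = 1` the same on the other side, else `nu_zero`. -/
theorem d2 (hμ : Odd (Fintype.card μ)) {P ξ P' ξ' : AL K (ℤ × μ)} (h : Side P ξ) (h' : Side P' ξ')
    (he : ξ * ξ' = P * P') : Shp P ξ ∨ Shp P' ξ' := by
  obtain ⟨k, p0, p1, p2, p3, p4⟩ := d2_deg h
  obtain ⟨k', p0', p1', p2', p3', p4'⟩ := d2_deg h'
  have hn : ξ * ξ' ∈ nonZeroDivisors _ :=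
    he ▸ mul_mem (nzd_of_low p0 (p1 ▸ isUnit_one)) (nzd_of_low p0' (p1' ▸ isUnit_one))
  obtain ⟨hξ, hξ'⟩ := mul_mem_nonZeroDivisors.1 hn
  obtain ⟨j, hl, l0⟩ := exists_low (nonZeroDivisors.ne_zero hξ)
  obtain ⟨j', hl', l0'⟩ := exists_low (nonZeroDivisors.ne_zero hξ')
  obtain ⟨i, hh, h0⟩ := exists_high (nonZeroDivisors.ne_zero hξ)
  obtain ⟨i', hh', h0'⟩ := exists_high (nonZeroDivisors.ne_zero hξ')
  have e0 : sl (ξ * ξ') (0 + 0) = 1 := by rw [he, p0.sl_mul p0', p1, p1', one_mul]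
  have e1 : j + j' = 0 + 0 := (hl.mul hl').unique
    (sl_ne_zero (by rw [hl.tot_mul hl']; exact (mul_pos (h.low hμ hl l0) (h'.low hμ hl' l0')).ne'))
    (he ▸ p0.mul p0') (e0 ▸ one_ne_zero)
  have e2 : i + i' = k + k' := (hh.mul hh').unique
    (sl_ne_zero (by rw [hh.tot_mul hh']; exact (mul_pos (h.high hμ hh h0) (h'.high hμ hh' h0')).ne'))
    (he ▸ p2.mul p2') (by rw [he, p2.sl_mul p2']; exact (p3.mul p3').ne_zero)
  have e3 : j ≤ i := not_lt.1 fun e => nonZeroDivisors.ne_zero hξ (eq_zero_of_high_low hl hh e)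
  have e3' : j' ≤ i' := not_lt.1 fun e => nonZeroDivisors.ne_zero hξ' (eq_zero_of_high_low hl' hh' e)
  rw [← e1, hl.sl_mul hl'] at e0
  by_cases c1 : i < j + k
  · rcases p4 with ⟨-, rfl⟩ | ⟨c, b, H, rfl, hP, rfl⟩
    · omega
    · obtain ⟨rfl, h2⟩ := hP.nu_neg hμ h.1 hξ hl hh c1
      exact .inl (.inr ⟨c, b, rfl, hP, h2⟩)
  by_cases c2 : i' < j' + k'
  · rcases p4' with ⟨-, rfl⟩ | ⟨c, b, H, rfl, hP, rfl⟩
    · omega
    · obtain ⟨rfl, h2⟩ := hP.nu_neg hμ h'.1 hξ' hl' hh' c2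
      exact .inr (.inr ⟨c, b, rfl, hP, h2⟩)
  obtain rfl : i = j + k := by omega
  obtain rfl : i' = j' + k' := by omega
  obtain rfl : j' = -j := by omega
  rcases p4 with ⟨rfl, rfl⟩ | ⟨c, b, H, rfl, hP, rfl⟩
  · rw [add_zero] at hh
    exact .inl (.inl ⟨rfl, j, _, hl, hh, low_sl ξ' _, high_sl ξ' _, by rwa [sl_eq_self hl hh] at e0⟩)
  rcases p4' with ⟨rfl, rfl⟩ | ⟨c', b', H', rfl, hP', rfl⟩
  · rw [add_zero] at hh'
    refine .inr (.inl ⟨rfl, -j, _, hl', hh', low_sl ξ _, high_sl ξ _, ?_⟩)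
    rwa [sl_eq_self hl' hh', mul_comm, ← neg_neg j] at e0
  rcases le_total b.1 b'.1 with e | e
  · obtain ⟨rfl, h2⟩ := nu_zero hμ h.1 hP h'.1 hP' he e hl hh hl' hh'
    exact .inl (.inr ⟨c, b, rfl, hP, h2⟩)
  · obtain ⟨rfl, h2⟩ := nu_zero hμ h'.1 hP' h.1 hP (by rw [mul_comm, he, mul_comm]) e hl' hh'
      (by rwa [neg_neg]) (by rwa [neg_neg])
    exact .inr (.inr ⟨c', b', rfl, hP', h2⟩)

end Pool.Agent.GD
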