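import Pool.Agent.Lib.MP_a01f70_lc.GK.Bas
import Pool.Agent.Lib.MP_a01f70_lc.GK.GRb

/-!
Definitions for the rank one classification over `ℤ × μ`, `μ` a finite group of odd order.
-/

namespace Pool.Agent.GD
open Finset Pool.Agent.GK

/-- group algebra over a field of real numbers -/
abbrev AL (K : Subfield ℝ) (Λ : Type) := AddMonoidAlgebra K Λ

section General
variable {K : Subfield ℝ} {Λ : Type} [AddCommGroup Λ]

/-- the monomial `c [l]` -/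
noncomputable abbrev sg (l : Λ) (c : K) : AL K Λ := AddMonoidAlgebra.single l c

/-- the coefficient as a real number -/
noncomputable def cf (f : AL K Λ) (l : Λ) : ℝ := (f.coeff l : ℝ)

/-- convolution of an element of the group algebra with a function -/
noncomputable def cv (f : AL K Λ) (z : Λ → ℝ) (l : Λ) : ℝ :=
  f.coeff.sum fun j c => (c : ℝ) * z (l - j)

/-- `y = (b / a) x` -/
def RV (a b : AL K Λ) (x y : Λ → ℝ) : Prop := ∃ z, cv a z = x ∧ cv b z = y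

/-- the binomial `1 + c [b]` -/
noncomputable def Pb (c : K) (b : Λ) : AL K Λ := 1 + sg b c

/-- the reflection `[l] ↦ [-l]` -/
noncomputable def rv : AL K Λ →+* AL K Λ := AddMonoidAlgebra.mapDomainRingHom K negAddMonoidHom

/-- the denominators of `b / a` -/
noncomputable def Den (a b : AL K Λ) : Ideal (AL K Λ) := (Ideal.span {a}).colon {b}

/-- a complex point of the group algebra -/
def Pt (φ : AL K Λ →+* ℂ) : Prop := ∀ c : K, φ (sg 0 c) = ((c : ℝ) : ℂ)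

/-- a ground state: a response without source that changes sign along `b₀` -/
def Gs (a b : AL K Λ) (c : K) (b₀ : Λ) (r : Λ → ℝ) : Prop :=
  RV a b 0 r ∧ ∀ l, r (l + b₀) = -(c : ℝ) * r l

end General

section Lines
variable {K : Subfield ℝ} {μ : Type} [AddCommGroup μ]

/-- the lines of degree in `[s, s + T)` -/
noncomputable def Box (μ : Type) [Fintype μ] (s : ℤ) (T : ℕ) : Finset (ℤ × μ) := Ico s (s + T) ×ˢ univ

/-- number of negative values in a box -/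
noncomputable def ng [Fintype μ] (x : ℤ × μ → ℝ) (s : ℤ) (T : ℕ) : ℝ :=
  #{l ∈ Box μ s T | x l < 0}

/-- the sign model -/
def SMt [Fintype μ] (a b : AL K (ℤ × μ)) : Prop :=
  ∃ C : ℝ, ∀ x y, RV a b x y → ∀ (s : ℤ) (T : ℕ),
    ng y s T - ng x s T ≤ T * Fintype.card μ / 2 + C

/-- no term of degree below `j` -/
def Low (f : AL K (ℤ × μ)) (j : ℤ) : Prop := ∀ l : ℤ × μ, l.1 < j → f.coeff l = 0

/-- no term of degree above `j` -/
def High (f : AL K (ℤ × μ)) (j : ℤ) : Prop := ∀ l : ℤ × μ, j < l.1 → f.coeff l = 0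

/-- the terms of degree `j` -/
noncomputable def sl (f : AL K (ℤ × μ)) (j : ℤ) : AL K (ℤ × μ) :=
  AddMonoidAlgebra.ofCoeff (f.coeff.filter fun l => l.1 = j)

/-- the sum of the coefficients of degree `j` -/
noncomputable def tot [Fintype μ] (f : AL K (ℤ × μ)) (j : ℤ) : ℝ := ∑ g, cf f (j, g)

/-- the group `ℤ b + H` -/
def St (b : ℤ × μ) (H : AddSubgroup μ) : AddSubgroup (ℤ × μ) :=
  AddSubgroup.zmultiples b ⊔ H.map (AddMonoidHom.inr ℤ μ)

/-- the poles of `b / a` are zeros of `1 + c [b₀]`, with enough ground states -/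
structure Pole (a b : AL K (ℤ × μ)) (c : K) (b₀ : ℤ × μ) (H : AddSubgroup μ) : Prop where
  pos : 0 < (c : ℝ)
  deg : 0 < b₀.1
  inv : ∀ h ∈ H, a ∣ (sg (0, h) 1 - 1) * b
  gs0 : ∃ r, Gs a b c b₀ r ∧ ∀ l, r l ≠ 0
  gs1 : ∀ l₀, ∃ r, Gs a b c b₀ r ∧ ∀ l, r l = 0 ↔ l - l₀ ∈ St b₀ H
  gs2 : ∀ l₁ l₂, l₁ - l₂ ∉ St b₀ H →
    ∃ r, Gs a b c b₀ r ∧ (∀ l, r l ≠ 0) ∧ 0 < r l₁ ∧ 0 < r l₂

open Classical in
/-- `D` is the expansion of `b / a` in increasing degrees, starting in degree `j` -/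
def Ex (a b : AL K (ℤ × μ)) (D : ℤ × μ → ℝ) (j : ℤ) : Prop :=
  RV a b (Pi.single 0 1) D ∧ ∀ l : ℤ × μ, l.1 < j → D l = 0

/-- the response at `l` to the sources of degree `j` -/
noncomputable def ct [Fintype μ] (D w : ℤ × μ → ℝ) (j : ℤ) (l : ℤ × μ) : ℝ :=
  ∑ g, D (l - (j, g)) * w (j, g)

/-- for quickly growing sources the response at `l` is negative -/
def Dom [Fintype μ] (D w : ℤ × μ → ℝ) (l : ℤ × μ) : Prop :=
  ∃ j, ct D w j l < 0 ∧ ∀ j', j < j' → ct D w j' l ≤ 0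

/-- the function with value `f i g` at `i b + (0, g)` and `0` in the other degrees -/
noncomputable def chn (b : ℤ × μ) (f : ℤ → μ → ℝ) (l : ℤ × μ) : ℝ :=
  if b.1 ∣ l.1 then f (l.1 / b.1) (l.2 - (l.1 / b.1) • b.2) else 0

/-- the fraction `ξ / P` after the analysis of the poles -/
def Side [Fintype μ] (P ξ : AL K (ℤ × μ)) : Prop :=
  SMt P ξ ∧ (P = 1 ∨ ∃ c b₀ H, P = Pb c b₀ ∧ Pole P ξ c b₀ H)

/-- `ξ` has at most two terms -/
def Two (ξ : AL K (ℤ × μ)) (b₀ : ℤ × μ) : Prop :=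
  ∃ (a₁ a₂ : ℤ × μ) (c₁ c₂ : K), 0 < (c₁ : ℝ) ∧ 0 ≤ (c₂ : ℝ) ∧ a₁ ≠ a₂ ∧ a₁.1 ≤ a₂.1 ∧
    a₂.1 ≤ a₁.1 + b₀.1 ∧ ξ = sg a₁ c₁ + sg a₂ c₂

/-- the possible fractions `ξ / P` -/
def Shp (P ξ : AL K (ℤ × μ)) : Prop :=
  (P = 1 ∧ ∃ (j : ℤ) (η : AL K (ℤ × μ)), Low ξ j ∧ High ξ j ∧ Low η (-j) ∧ High η (-j) ∧
    ξ * η = 1) ∨
  ∃ c b₀, P = Pb c b₀ ∧ Pole P ξ c b₀ ⊥ ∧ Two ξ b₀

end Lines

section Integral
variable {m : ℕ}

/-- the inclusion of `O m` in its field of fractions -/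
noncomputable def ok (m : ℕ) : O m →+* KK m := (O m).subtype.codRestrict (KK m) fun x => O_le_KK x.2

/-- `t ^ e` in the field -/
noncomputable def tk (m : ℕ) (e : ℤ) : KK m := ok m (tz m e)

/-- extension of scalars -/
noncomputable def up {Λ : Type} [AddCommGroup Λ] : GR m Λ →+* AL (KK m) Λ :=
  AddMonoidAlgebra.mapRingHom Λ (ok m)

/-- `(X, Y)` is of the form `(Z (A ·), Z (B ·))` -/
def Vd {Λ S : Type} [AddCommGroup Λ] [AddCommGroup S] (A B : GR m Λ) (X Y : GR m Λ →+ S) : Prop :=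
  ∀ η ξ, η * B = ξ * A → Y η = X ξ

/-- `A` divides a nonzero element without torsion part -/
def NZ {Λ μ : Type} [AddCommGroup Λ] [AddCommGroup μ] (A : GR m (Λ × μ)) : Prop :=
  ∃ (C : GR m (Λ × μ)) (a : GR m Λ), a ≠ 0 ∧ A * C = spec m (AddMonoidHom.inl Λ μ) a

/-- `B / A` is supported on one coset of `μ` -/
def FormT {Λ μ : Type} [AddCommGroup Λ] [AddCommGroup μ] (A B : GR m (Λ × μ)) : Prop :=
  ∃ (q : ℕ) (p : GR m (Λ × μ)) (v : Λ), 0 < q ∧ (∀ l : Λ × μ, l.1 ≠ v → p.coeff l = 0) ∧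
    A * p = B * q

variable {μ : Type} [AddCommGroup μ] [Fintype μ]

/-- the criterion on boxes -/
def Dinft (A B : GR m (ℤ × μ)) : Prop :=
  ∃ C₁ : ℝ, ∀ T : ℕ, ∃ C : ℝ, ∀ (H : ℕ) (X Y : GR m (ℤ × μ) →+ Tc), Vd A B X Y →
    ∑ l ∈ Box μ 0 T, ∑ e ∈ range (m * H),
      (dgr (C * tr m e / 2 ^ H) (Y (mon m ((e : ℤ), -l))) - dig (X (mon m ((e : ℤ), -l))))
        ≤ m * H * (T * Fintype.card μ) / 2 + C₁ * H + C

/-- periodic characters on a background of signs -/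
def TLt (A B : GR m (ℤ × μ)) : Prop :=
  ∃ C₁ : ℝ, ∀ D : ℕ, 0 < D → ∀ X Y : GR m (ℤ × μ) →+ Tc, Vd A B X Y →
    (∀ f, (2 ^ D - 1) • X f = 0) → (∀ f, (2 ^ D - 1) • Y f = 0) →
    ∀ x y : ℤ × μ → ℝ, RV (up A) (up B) x y → ∀ (s : ℤ) (T : ℕ),
      ∑ l ∈ Box μ s T, ∑ e ∈ range (m * D),
        (sdig (Y (mon m ((e : ℤ), -l))) (y l) - sdig (X (mon m ((e : ℤ), -l))) (x l))
          ≤ m * D * (T * Fintype.card μ) / 2 + C₁ * D

end Integral

end Pool.Agent.GD
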