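import Pool.Agent.Lib.MP_a01f70_lc.GD.Cv

namespace Pool.Agent.GD
open Finset Pool.Agent.GK

variable {K : Subfield ℝ} {μ : Type} [AddCommGroup μ]

theorem sl_coeff (f : AL K (ℤ × μ)) (j : ℤ) (l : ℤ × μ) :
    (sl f j).coeff l = if l.1 = j then f.coeff l else 0 := Finsupp.filter_apply _ _ _

theorem cf_sl (f : AL K (ℤ × μ)) (j : ℤ) (l : ℤ × μ) :
    cf (sl f j) l = if l.1 = j then cf f l else 0 := by
  rw [cf, sl_coeff]
  split_ifs <;> rfl

theorem low_sl (f : AL K (ℤ × μ)) (j : ℤ) : Low (sl f j) j := fun l h => by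
  rw [sl_coeff, if_neg h.ne]

theorem high_sl (f : AL K (ℤ × μ)) (j : ℤ) : High (sl f j) j := fun l h => by
  rw [sl_coeff, if_neg h.ne']

theorem sl_eq_self {f : AL K (ℤ × μ)} {j : ℤ} (h : Low f j) (h' : High f j) : sl f j = f := by
  ext l
  rw [sl_coeff]
  split_ifs with e
  · rfl
  · rw [(lt_or_gt_of_ne e).elim (h l) (h' l)]

theorem sl_add (f f' : AL K (ℤ × μ)) (j : ℤ) : sl (f + f') j = sl f j + sl f' j :=
  congrArg AddMonoidAlgebra.ofCoeff Finsupp.filter_add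

theorem sl_sub (f f' : AL K (ℤ × μ)) (j : ℤ) : sl (f - f') j = sl f j - sl f' j :=
  congrArg AddMonoidAlgebra.ofCoeff (Finsupp.filter_sub _ _ _)

theorem sl_sg (l : ℤ × μ) (c : K) (j : ℤ) : sl (sg l c) j = if l.1 = j then sg l c else 0 := by
  split_ifs with e
  · exact congrArg AddMonoidAlgebra.ofCoeff (Finsupp.filter_single_of_pos _ e)
  · exact congrArg AddMonoidAlgebra.ofCoeff (Finsupp.filter_single_of_neg _ e)

theorem Low.mono {f : AL K (ℤ × μ)} {j j' : ℤ} (h : Low f j) (hj : j' ≤ j) : Low f j' :=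
  fun l e => h l (e.trans_le hj)

theorem High.mono {f : AL K (ℤ × μ)} {j j' : ℤ} (h : High f j) (hj : j ≤ j') : High f j' :=
  fun l e => h l (hj.trans_lt e)

theorem Low.add {f f' : AL K (ℤ × μ)} {j : ℤ} (h : Low f j) (h' : Low f' j) : Low (f + f') j :=
  fun l e => by rw [AddMonoidAlgebra.coeff_add, Finsupp.add_apply, h l e, h' l e, add_zero]

theorem High.add {f f' : AL K (ℤ × μ)} {j : ℤ} (h : High f j) (h' : High f' j) : High (f + f') j :=
  fun l e => by rw [AddMonoidAlgebra.coeff_add, Finsupp.add_apply, h l e, h' l e, add_zero]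

theorem Low.sub {f f' : AL K (ℤ × μ)} {j : ℤ} (h : Low f j) (h' : Low f' j) : Low (f - f') j :=
  fun l e => by rw [AddMonoidAlgebra.coeff_sub, Finsupp.sub_apply, h l e, h' l e, sub_zero]

theorem High.sub {f f' : AL K (ℤ × μ)} {j : ℤ} (h : High f j) (h' : High f' j) : High (f - f') j :=
  fun l e => by rw [AddMonoidAlgebra.coeff_sub, Finsupp.sub_apply, h l e, h' l e, sub_zero]

theorem low_sg (l : ℤ × μ) (c : K) : Low (sg l c) l.1 := fun _ e =>
  Finsupp.single_eq_of_ne fun e' => e.ne (congrArg Prod.fst e')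

theorem high_sg (l : ℤ × μ) (c : K) : High (sg l c) l.1 := fun _ e =>
  Finsupp.single_eq_of_ne fun e' => e.ne' (congrArg Prod.fst e')

theorem low_one : Low (1 : AL K (ℤ × μ)) 0 := low_sg 0 1

theorem high_one : High (1 : AL K (ℤ × μ)) 0 := high_sg 0 1

theorem Low.mul {f f' : AL K (ℤ × μ)} {j j' : ℤ} (h : Low f j) (h' : Low f' j') :
    Low (f * f') (j + j') := fun l e => by
  rw [AddMonoidAlgebra.coeff_mul_apply_left]
  refine sum_eq_zero fun a _ => mul_eq_zero.2 ((lt_or_ge a.1 j).imp (h a) fun e' => h' _ ?_)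
  rw [Prod.fst_add, Prod.fst_neg]
  omega

theorem High.mul {f f' : AL K (ℤ × μ)} {j j' : ℤ} (h : High f j) (h' : High f' j') :
    High (f * f') (j + j') := fun l e => by
  rw [AddMonoidAlgebra.coeff_mul_apply_left]
  refine sum_eq_zero fun a _ => mul_eq_zero.2 ((lt_or_ge j a.1).imp (h a) fun e' => h' _ ?_)
  rw [Prod.fst_add, Prod.fst_neg]
  omega

theorem deg_sl_mul {f f' : AL K (ℤ × μ)} {j j' : ℤ}
    (h : ∀ a b : ℤ × μ, a.1 + b.1 = j + j' → a.1 ≠ j → f.coeff a = 0 ∨ f'.coeff b = 0) :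
    sl (f * f') (j + j') = sl f j * sl f' j' := by
  classical
  refine cf_ext fun l => ?_
  rw [cf_sl, ← cv_cf, ← cv_cf, cv_eq_sum Subset.rfl,
    cv_eq_sum (f := sl f j) (S := f.coeff.support) (filter_subset _ _), ← sum_const_zero,
    ← sum_ite_irrel]
  refine sum_congr rfl fun a _ => ?_
  rw [cf_sl, cf_sl, Prod.fst_sub]
  by_cases e : a.1 = j
  · simp [e, sub_eq_iff_eq_add']
  · simpa [e, cf_eq_zero] using fun e' => h a (l - a) (by simpa using e') e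

theorem Low.sl_mul {f f' : AL K (ℤ × μ)} {j j' : ℤ} (h : Low f j) (h' : Low f' j') :
    sl (f * f') (j + j') = sl f j * sl f' j' :=
  deg_sl_mul fun a b e e' => (lt_or_gt_of_ne e').imp (h a) fun _ => h' b (by omega)

theorem High.sl_mul {f f' : AL K (ℤ × μ)} {j j' : ℤ} (h : High f j) (h' : High f' j') :
    sl (f * f') (j + j') = sl f j * sl f' j' :=
  deg_sl_mul fun a b e e' => (lt_or_gt_of_ne e').symm.imp (h a) fun _ => h' b (by omega)

theorem Low.rv {f : AL K (ℤ × μ)} {j : ℤ} (h : Low f j) : High (rv f) (-j) := fun l e =>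
  cf_eq_zero.1 ((cf_rv f l).trans (cf_eq_zero.2 (h _ (neg_lt.1 e))))

theorem High.rv {f : AL K (ℤ × μ)} {j : ℤ} (h : High f j) : Low (rv f) (-j) := fun l e =>
  cf_eq_zero.1 ((cf_rv f l).trans (cf_eq_zero.2 (h _ (lt_neg.1 e))))

theorem eq_zero_of_high_low {f : AL K (ℤ × μ)} {j j' : ℤ} (h : Low f j) (h' : High f j')
    (hj : j' < j) : f = 0 := by
  ext l
  rw [(lt_or_ge l.1 j).elim (h l) fun e => h' l (hj.trans_le e)]
  rfl

theorem deg_zero (j : ℤ) : sl (0 : AL K (ℤ × μ)) j = 0 :=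
  congrArg AddMonoidAlgebra.ofCoeff (Finsupp.filter_zero _)

theorem deg_ne {f : AL K (ℤ × μ)} {l : ℤ × μ} (h : l ∈ f.coeff.support) : sl f l.1 ≠ 0 := fun e =>
  Finsupp.mem_support_iff.1 h (((sl_coeff f l.1 l).trans (if_pos rfl)).symm.trans (e ▸ rfl))

theorem deg_low {f : AL K (ℤ × μ)} {j j' : ℤ} (h : Low f j) (h0 : sl f j' ≠ 0) : j ≤ j' :=
  not_lt.1 fun e => h0 (eq_zero_of_high_low (fun l e' => by rw [sl_coeff, h l e', ite_self])
    (high_sl f j') e)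

theorem deg_high {f : AL K (ℤ × μ)} {j j' : ℤ} (h : High f j) (h0 : sl f j' ≠ 0) : j' ≤ j :=
  not_lt.1 fun e => h0 (eq_zero_of_high_low (low_sl f j')
    (fun l e' => by rw [sl_coeff, h l e', ite_self]) e)

theorem exists_low {f : AL K (ℤ × μ)} (h : f ≠ 0) : ∃ j, Low f j ∧ sl f j ≠ 0 := by
  obtain ⟨l, h1, h2⟩ := f.coeff.support.exists_min_image Prod.fst
    (Finsupp.support_nonempty_iff.2 fun e => h (AddMonoidAlgebra.coeff_eq_zero.1 e))
  exact ⟨l.1, fun a e => Finsupp.notMem_support_iff.1 fun e' => (h2 a e').not_gt e, deg_ne h1⟩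

theorem exists_high {f : AL K (ℤ × μ)} (h : f ≠ 0) : ∃ j, High f j ∧ sl f j ≠ 0 := by
  obtain ⟨l, h1, h2⟩ := f.coeff.support.exists_max_image Prod.fst
    (Finsupp.support_nonempty_iff.2 fun e => h (AddMonoidAlgebra.coeff_eq_zero.1 e))
  exact ⟨l.1, fun a e => Finsupp.notMem_support_iff.1 fun e' => (h2 a e').not_gt e, deg_ne h1⟩

theorem Low.unique {f : AL K (ℤ × μ)} {j j' : ℤ} (h : Low f j) (h0 : sl f j ≠ 0) (h' : Low f j')
    (h0' : sl f j' ≠ 0) : j = j' := (deg_low h h0').antisymm (deg_low h' h0)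

theorem High.unique {f : AL K (ℤ × μ)} {j j' : ℤ} (h : High f j) (h0 : sl f j ≠ 0) (h' : High f j')
    (h0' : sl f j' ≠ 0) : j = j' := (deg_high h' h0).antisymm (deg_high h h0')

theorem low_Pb (c : K) {b : ℤ × μ} (hb : 0 < b.1) : Low (Pb c b) 0 ∧ sl (Pb c b) 0 = 1 :=
  ⟨low_one.add ((low_sg b c).mono hb.le), by
    rw [Pb, sl_add, sl_eq_self low_one high_one, sl_sg, if_neg hb.ne', add_zero]⟩

theorem high_Pb (c : K) {b : ℤ × μ} (hb : 0 < b.1) :
    High (Pb c b) b.1 ∧ sl (Pb c b) b.1 = sg b c :=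
  ⟨(high_one.mono hb.le).add (high_sg b c), by
    rw [Pb, sl_add, AddMonoidAlgebra.one_def, sl_sg, sl_sg, if_pos rfl, Prod.fst_zero,
      if_neg hb.ne, zero_add]⟩

/-- an element whose lowest slice is a unit is not a zero divisor (`exists_low`, `Low.sl_mul`) -/
theorem nzd_of_low {f : AL K (ℤ × μ)} {j : ℤ} (h : Low f j) (hu : IsUnit (sl f j)) :
    f ∈ nonZeroDivisors (AL K (ℤ × μ)) := by
  refine mem_nonZeroDivisors_iff_left.2 fun x e => by_contra fun h0 => ?_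
  obtain ⟨i, h1, h2⟩ := exists_low h0
  have h3 := h.sl_mul h1
  rw [e, deg_zero] at h3
  exact h2 (hu.mul_right_eq_zero.1 h3.symm)

theorem nzd_Pb (c : K) {b : ℤ × μ} (hb : 0 < b.1) : Pb c b ∈ nonZeroDivisors (AL K (ℤ × μ)) :=
  nzd_of_low (low_Pb c hb).1 ((low_Pb c hb).2 ▸ isUnit_one)

/-- spans add -/
theorem span_Pb {c : K} (hc : c ≠ 0) {b : ℤ × μ} (hb : 0 < b.1) {ζ : AL K (ℤ × μ)} {j j' : ℤ}
    (h : Low (Pb c b * ζ) j) (h' : High (Pb c b * ζ) (j' + b.1)) : Low ζ j ∧ High ζ j' := by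
  by_cases h0 : ζ = 0
  · subst h0
    exact ⟨fun _ _ => rfl, fun _ _ => rfl⟩
  obtain ⟨i, h1, h2⟩ := exists_low h0
  obtain ⟨i', h3, h4⟩ := exists_high h0
  have h5 := deg_low h (j' := 0 + i) (by rwa [(low_Pb c hb).1.sl_mul h1, (low_Pb c hb).2, one_mul])
  have h6 := deg_high h' (j' := b.1 + i') (by
    rwa [(high_Pb c hb).1.sl_mul h3, (high_Pb c hb).2, Ne, (isUnit_sg b hc).mul_right_eq_zero])
  exact ⟨h1.mono (by omega), h3.mono (by omega)⟩

theorem rv_Pb {c : K} (hc : c ≠ 0) (b : ℤ × μ) : sg b c⁻¹ * rv (Pb c b) = Pb c⁻¹ b := by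
  rw [Pb, Pb, map_add, map_one, rv_sg, mul_add, mul_one, sg_mul, add_neg_cancel, inv_mul_cancel₀ hc,
    add_comm]
  rfl

theorem mem_St {b l : ℤ × μ} {H : AddSubgroup μ} :
    l ∈ St b H ↔ ∃ i : ℤ, ∃ h ∈ H, l = i • b + (0, h) := by
  rw [St, AddSubgroup.mem_sup]
  exact ⟨fun ⟨_, ⟨i, rfl⟩, _, ⟨h, hh, rfl⟩, e⟩ => ⟨i, h, hh, e.symm⟩,
    fun ⟨i, h, hh, e⟩ => ⟨_, ⟨i, rfl⟩, _, ⟨h, hh, rfl⟩, e.symm⟩⟩

theorem mem_St_zero {b : ℤ × μ} (hb : b.1 ≠ 0) {H : AddSubgroup μ} {g : μ} :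
    ((0 : ℤ), g) ∈ St b H ↔ g ∈ H := by
  refine mem_St.trans ⟨fun ⟨i, h, hh, e⟩ => ?_, fun h => ⟨0, g, h, by simp⟩⟩
  obtain rfl : i = 0 := by simpa [hb] using congrArg Prod.fst e
  rwa [show g = h by simpa using congrArg Prod.snd e]

theorem chn_apply {b : ℤ × μ} (hb : b.1 ≠ 0) (f : ℤ → μ → ℝ) (i : ℤ) (g : μ) :
    chn b f (i • b + (0, g)) = f i g := by
  simp [chn, hb]

theorem chn_of_not_dvd {b l : ℤ × μ} (h : ¬ b.1 ∣ l.1) (f : ℤ → μ → ℝ) : chn b f l = 0 := if_neg h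

theorem exists_chn {b l : ℤ × μ} (h : b.1 ∣ l.1) : ∃ (i : ℤ) (g : μ), l = i • b + (0, g) := by
  obtain ⟨i, e⟩ := h
  exact ⟨i, l.2 - i • b.2, Prod.ext (by simp [e, mul_comm]) (by simp)⟩

variable [Fintype μ]

theorem tot_sl (f : AL K (ℤ × μ)) (j : ℤ) : tot (sl f j) j = tot f j :=
  sum_congr rfl fun g _ => (cf_sl f j (j, g)).trans (if_pos rfl)

theorem sl_ne_zero {f : AL K (ℤ × μ)} {j : ℤ} (h : tot f j ≠ 0) : sl f j ≠ 0 := fun e =>
  h (by rw [← tot_sl, e]; exact sum_eq_zero fun g _ => cf_zero _)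

theorem deg_tot (f f' : AL K (ℤ × μ)) (j j' : ℤ) :
    tot (sl f j * sl f' j') (j + j') = tot f j * tot f' j' := by
  have h : (sl f j).coeff.support ⊆ {j} ×ˢ univ := fun l hl =>
    mem_product.2 ⟨mem_singleton.2 (mem_filter.1 hl).2, mem_univ _⟩
  simp only [tot, ← cv_cf, cv_eq_sum h, sum_product, sum_singleton, cf_sl, Prod.mk_sub_mk,
    add_sub_cancel_left, if_true]
  rw [sum_comm, sum_mul]
  refine sum_congr rfl fun g _ => ?_
  rw [← mul_sum]
  exact congrArg _ (Fintype.sum_equiv (Equiv.subRight g) _ _ fun _ => rfl)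

theorem Low.tot_mul {f f' : AL K (ℤ × μ)} {j j' : ℤ} (h : Low f j) (h' : Low f' j') :
    tot (f * f') (j + j') = tot f j * tot f' j' := by
  rw [← tot_sl, h.sl_mul h', deg_tot]

theorem High.tot_mul {f f' : AL K (ℤ × μ)} {j j' : ℤ} (h : High f j) (h' : High f' j') :
    tot (f * f') (j + j') = tot f j * tot f' j' := by
  rw [← tot_sl, h.sl_mul h', deg_tot]

theorem tot_rv (f : AL K (ℤ × μ)) (j : ℤ) : tot (rv f) (-j) = tot f j :=
  Fintype.sum_equiv (Equiv.neg μ) _ _ fun g => by rw [cf_rv, Prod.neg_mk, neg_neg, Equiv.neg_apply]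

end Pool.Agent.GD
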