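import Pool.Agent.Lib.MP_a01f70_lc.GD.Deg

namespace Pool.Agent.GD
open Finset Pool.Agent.GK

theorem exists_dual_zero {K V ι : Type} [Field K] [Infinite K] [AddCommGroup V] [Module K V] [Finite ι]
    (w : V) (v : ι → V) (h : ∀ i (c : K), v i ≠ c • w) :
    ∃ φ : V →ₗ[K] K, φ w = 0 ∧ ∀ i, φ (v i) ≠ 0 := by
  obtain ⟨f, hf⟩ := Module.exists_dual_forall_apply_ne_zero (K := K)
    (fun i => (Submodule.span K {w}).mkQ (v i)) fun i hi => by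
      obtain ⟨c, hc⟩ := Submodule.mem_span_singleton.1 ((Submodule.Quotient.mk_eq_zero _).1 hi)
      exact h i c hc.symm
  refine ⟨f ∘ₗ (Submodule.span K {w}).mkQ, ?_, hf⟩
  rw [LinearMap.comp_apply, Submodule.mkQ_apply,
    (Submodule.Quotient.mk_eq_zero _).2 (Submodule.mem_span_singleton_self _), map_zero]

theorem exists_dual_pos {K : Subfield ℝ} {V ι : Type} [AddCommGroup V] [Module K V] [Finite ι]
    {w₁ w₂ : V} (h1 : w₁ ≠ 0) (h2 : ∀ c : K, w₂ ≠ c • w₁) (v : ι → V) (h : ∀ i, v i ≠ 0) :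
    ∃ φ : V →ₗ[K] K, 0 < (φ w₁ : ℝ) ∧ 0 < (φ w₂ : ℝ) ∧ ∀ i, φ (v i) ≠ 0 := by
  obtain ⟨f, hf⟩ := Module.exists_dual_forall_apply_ne_zero (K := K) v h
  obtain ⟨g, hg⟩ := Module.exists_dual_forall_apply_eq_one (linearIndepOn_univ_iff.2
    ((LinearIndependent.pair_iff' (K := K) h1).2 fun c e => h2 c e.symm))
  have e1 : g w₁ = 1 := hg 0 trivial
  have e2 : g w₂ = 1 := hg 1 trivial
  have h3 : ∀ b : ℝ, ∀ᶠ t : ℕ in Filter.atTop, 0 < t + b := fun b =>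
    (tendsto_natCast_atTop_atTop.eventually_gt_atTop (-b)).mono fun t ht => by linarith
  have h4 : ∀ i, ∀ᶠ t : ℕ in Filter.atTop, t * g (v i) + f (v i) ≠ 0 := fun i => by
    rw [← Nat.cofinite_eq_atTop]
    refine Set.Subsingleton.finite fun s hs t ht => ?_
    have h5 : s * g (v i) + f (v i) = 0 := not_not.1 hs
    have h6 : t * g (v i) + f (v i) = 0 := not_not.1 ht
    have h7 : g (v i) ≠ 0 := fun e => hf i (by rwa [e, mul_zero, zero_add] at h5)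
    exact Nat.cast_injective (mul_right_cancel₀ h7 (add_right_cancel (h5.trans h6.symm)))
  obtain ⟨t, h5, h6, h7⟩ := ((h3 (f w₁)).and ((h3 (f w₂)).and (Filter.eventually_all.2 h4))).exists
  exact ⟨(t : K) • g + f, by simpa [e1] using h5, by simpa [e2] using h6, h7⟩

variable {K : Subfield ℝ} {μ : Type} [AddCommGroup μ] [Fintype μ]

omit [Fintype μ] in
theorem gnd_red {b₀ : ℤ × μ} (hb : 0 < b₀.1) (l : ℤ × μ) :
    ∃ (p : Set.Ico 0 b₀.1 × μ) (i : ℤ), l = (p.1.1, p.2) + i • b₀ :=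
  ⟨(⟨l.1 % b₀.1, Int.emod_nonneg _ hb.ne', Int.emod_lt_of_pos _ hb⟩, l.2 - (l.1 / b₀.1) • b₀.2),
    l.1 / b₀.1, Prod.ext (Int.emod_add_ediv_mul _ _).symm (sub_add_cancel _ _).symm⟩

theorem pole_of_ideal {a b : AL K (ℤ × μ)} {J : Ideal (AL K (ℤ × μ))} (hJ : J ≠ ⊤)
    (hD : Den a b ≤ J) {c : K} {b₀ : ℤ × μ} {H : AddSubgroup μ} (hc : 0 < (c : ℝ)) (hb : 0 < b₀.1)
    (hP : Pb c b₀ ∈ J) (hH : ∀ g ∈ H, sg (0, g) 1 - 1 ∈ Den a b)
    (hS : ∀ l c', sg l 1 - sg 0 c' ∈ J → l ∈ St b₀ H) : Pole a b c b₀ H := by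
  let π := (Ideal.Quotient.mkₐ K J).toLinearMap
  have hπ : ∀ f g, π f = π g ↔ f - g ∈ J := fun f g => Ideal.Quotient.eq
  let v : ℤ × μ → AL K (ℤ × μ) ⧸ J := fun l => π (sg (-l) 1)
  have hs : ∀ l (t : K), t • v l = π (sg (-l) t) := fun l t => by
    rw [← map_smul, AddMonoidAlgebra.smul_single, smul_eq_mul, mul_one]
  have hc0 : c ≠ 0 := fun e => hc.ne' (congrArg Subtype.val e)
  have v0 : ∀ l, v l ≠ 0 := fun l e =>
    hJ (J.eq_top_of_isUnit_mem (Ideal.Quotient.eq_zero_iff_mem.1 e) (isUnit_sg _ one_ne_zero))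
  have v1 : ∀ l, v (l + b₀) = -c • v l := fun l => by
    have h1 := J.mul_mem_left (sg (-(l + b₀)) 1) hP
    rw [Pb, mul_add, mul_one, sg_mul, one_mul, show -(l + b₀) + b₀ = -l by abel] at h1
    rw [neg_smul, hs, ← map_neg, hπ, sub_neg_eq_add]
    exact h1
  have v2 : ∀ l, ∀ g ∈ H, v (l + (0, g)) = v l := fun l g hg => by
    have h1 := J.mul_mem_left (sg (-(l + (0, g))) 1) (hD (hH g hg))
    rw [mul_sub, mul_one, sg_mul, one_mul, show -(l + (0, g)) + (0, g) = -l by abel] at h1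
    exact ((hπ _ _).2 h1).symm
  have v3 : ∀ l l', l - l' ∉ St b₀ H → ∀ t : K, v l ≠ t • v l' := fun l l' h t e => by
    have h1 := J.mul_mem_left (sg l' 1) ((hπ _ _).1 (e.trans (hs l' t)))
    rw [mul_sub, sg_mul, sg_mul, one_mul, one_mul, add_neg_cancel] at h1
    exact h (by simpa [sub_eq_add_neg] using neg_mem (hS _ _ h1))
  have hG : ∀ φ : (AL K (ℤ × μ) ⧸ J) →ₗ[K] K, Gs a b c b₀ fun l => (φ (v l) : ℝ) := fun φ =>
    ⟨rv_of_fun 0 (Algebra.linearMap K ℝ ∘ₗ φ ∘ₗ π) fun f g e => by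
      have h1 : π g = 0 := Ideal.Quotient.eq_zero_iff_mem.2 (hD (mem_Den.2
        ⟨-f, by linear_combination e⟩))
      simp [h1], fun l => by simp [v1]⟩
  have hN : ∀ (φ : (AL K (ℤ × μ) ⧸ J) →ₗ[K] K) l (i : ℤ), φ (v l) ≠ 0 →
      (φ (v (l + i • b₀)) : ℝ) ≠ 0 := fun φ l i h => by
    rw [(hG φ).zsmul hc0 i l]
    exact mul_ne_zero (zpow_ne_zero _ (neg_ne_zero.2 hc.ne')) fun e => h (Subtype.ext e)
  refine ⟨hc, hb, fun g hg => mem_Den.1 (hH g hg), ?_, fun l₀ => ?_, fun l₁ l₂ h => ?_⟩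
  · obtain ⟨φ, h1⟩ := Module.exists_dual_forall_apply_ne_zero (K := K)
      (fun p : Set.Ico 0 b₀.1 × μ => v (p.1.1, p.2)) fun _ => v0 _
    refine ⟨_, hG φ, fun l => ?_⟩
    obtain ⟨p, i, rfl⟩ := gnd_red hb l
    exact hN φ _ i (h1 p)
  · obtain ⟨φ, h1, h2⟩ := exists_dual_zero (v l₀)
      (fun p : {p : Set.Ico 0 b₀.1 × μ // (p.1.1, p.2) - l₀ ∉ St b₀ H} => v (p.1.1.1, p.1.2))
      fun p => v3 _ _ p.2
    refine ⟨_, hG φ, fun l => ⟨fun h3 => ?_, fun h3 => ?_⟩⟩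
    · obtain ⟨p, i, rfl⟩ := gnd_red hb l
      by_contra h4
      refine hN φ _ i (h2 ⟨p, fun h5 => h4 ?_⟩) h3
      rw [add_sub_right_comm]
      exact add_mem h5 (mem_St.2 ⟨i, 0, zero_mem _, (add_zero _).symm⟩)
    · obtain ⟨i, g, hg, e⟩ := mem_St.1 h3
      have h4 := (hG φ).zsmul hc0 i (l₀ + (0, g))
      rw [v2 _ g hg, h1, add_assoc, add_comm _ (i • b₀), ← e, add_sub_cancel] at h4
      simpa using h4
  · obtain ⟨φ, h1, h2, h3⟩ := exists_dual_pos (v0 l₁) (v3 l₂ l₁ fun h1 => h (by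
      simpa using neg_mem h1)) (fun p : Set.Ico 0 b₀.1 × μ => v (p.1.1, p.2)) fun _ => v0 _
    refine ⟨_, hG φ, fun l => ?_, h1, h2⟩
    obtain ⟨p, i, rfl⟩ := gnd_red hb l
    exact hN φ _ i (h3 p)

end Pool.Agent.GD
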