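import Pool.Agent.Lib.MP_a01f70_lc.GD.Pos

namespace Pool.Agent.GD
open Finset Pool.Agent.GK

variable {K : Subfield ℝ} {μ : Type} [AddCommGroup μ] [Fintype μ]

/-- `D` from `exists_ex`, `f g = cf ξ (a + (0, g))` on `H`. `Pole.ha`, `Pole.pc` and `at_most_one`
leave at most one nonzero value. So the top slice `c f - v` is negative at
`|H| - 1 > |H| / 2` points, against `Pole.pc` for the reversed pair (`SMt.rev`, `Pole.rev`) at `-a` with
`w = Pi.single 0 1`. -/
theorem Pole.hx_pos (hμ : Odd (Fintype.card μ)) {c : K} {b : ℤ × μ} {ξ : AL K (ℤ × μ)}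
    {H : AddSubgroup μ} (hs : SMt (Pb c b) ξ) (hP : Pole (Pb c b) ξ c b H) (hH : H ≠ ⊥) {a : ℤ × μ}
    (hl : Low ξ a.1) (hh : High ξ (a.1 + b.1)) {v : ℝ}
    (hv : 0 < v) (h : ∀ g ∈ H, cf ξ (a + b + (0, g)) - c * cf ξ (a + (0, g)) = -v) : False := by
  classical
  have hb := hP.deg
  have hc : c ≠ 0 := fun e => by simpa [e] using hP.pos
  obtain ⟨D, hD, h1⟩ := exists_ex c hb hl
  have h2 : ∀ g, D (a + (0, g)) = cf ξ (a + (0, g)) := fun g => by
    rw [h1, hD.2 _ (by simpa using hb), mul_zero, sub_zero]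
  have h3 : ∀ g ∈ H, D (a + b + (0, g)) = -v := fun g hg => by
    rw [h1, add_right_comm, add_sub_cancel_right, h2, add_right_comm, h g hg]
  have ho := odd_card_sub hμ H
  obtain ⟨g₀, h4⟩ := at_most_one ho (f := fun g : H => D (a + (0, g.1))) (hP.ha hs hD hv h3)
    (hP.pc hs hD a fun i hi g _ => hD.2 _ (by simpa using mul_neg_of_neg_of_pos hi hb))
  obtain ⟨D', hD', h5⟩ := exists_ex c⁻¹ hb (((low_sg b c⁻¹).mul hh.rv).mono (j' := (-a).1) (by simp))
  have h6 := hP.rev.pc (hs.rev hc hb) hD' (-a)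
    (fun i hi g _ => hD'.2 _ (by simpa using mul_neg_of_neg_of_pos hi hb)) (Pi.single 0 1)
  have h7 : #{g : H | (Pi.single 0 1 : H → ℝ) g < 0} = 0 := by
    rw [card_eq_zero, filter_eq_empty_iff]
    intro g _
    rw [Pi.single_apply]
    split_ifs <;> simp
  have h8 : univ.erase (-g₀) ⊆
      univ.filter fun g : H => ∑ g' : H, D' (-a + (0, (g - g').1)) * (Pi.single 0 1 : H → ℝ) g' < 0 :=
    fun g hg => by
    have h9 := h4 (-g) fun e => ne_of_mem_erase hg (by rw [← e, neg_neg])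
    have h10 := h _ (-g).2
    rw [← h2 (-g).1, h9, mul_zero, sub_zero] at h10
    have h11 : -(-a + (0, g.1) - b) = a + b + (0, (-g).1) := by ext <;> simp <;> abel
    rw [mem_filter_univ, sum_eq_single 0 (fun g' _ e => by simp [e]) (by simp), sub_zero, h5,
      hD'.2 _ (by simpa using hb), cf_sg_mul, cf_rv, h11, h10]
    simpa using mul_pos hP.rev.pos hv
  have h9 := card_le_card h8
  rw [card_erase_of_mem (mem_univ _), card_univ] at h9
  obtain ⟨k, hk⟩ := ho
  refine hH (AddSubgroup.eq_bot_of_card_le H ?_)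
  rw [Nat.card_eq_fintype_card]
  omega

/-- for `v < 0` apply `hx_pos` to the reversed pair at `-a` with `-v / c ^ 2` -/
theorem Pole.hx (hμ : Odd (Fintype.card μ)) {c : K} {b : ℤ × μ} {ξ : AL K (ℤ × μ)}
    {H : AddSubgroup μ} (hs : SMt (Pb c b) ξ) (hP : Pole (Pb c b) ξ c b H) (hH : H ≠ ⊥) {a : ℤ × μ}
    (hl : Low ξ a.1) (hh : High ξ (a.1 + b.1)) {v : ℝ} (hv : v ≠ 0)
    (h : ∀ g ∈ H, cf ξ (a + b + (0, g)) - c * cf ξ (a + (0, g)) = -v) : False := by
  rcases hv.lt_or_gt with h1 | h1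
  · have hc := hP.pos
    refine hP.rev.hx_pos hμ (hs.rev (fun e => by simp [e] at hc) hP.deg) hH (a := -a)
      (((low_sg b c⁻¹).mul hh.rv).mono (by simp)) (((high_sg b c⁻¹).mul hl.rv).mono (by simp))
      (v := -v / c ^ 2) (div_pos (neg_pos.2 h1) (by positivity)) fun g hg => ?_
    have h2 := h _ (neg_mem hg)
    have h3 : -(-a + (0, g) - b) = a + b + (0, -g) := by ext <;> simp <;> abel
    have h4 : -(-a + b + (0, g) - b) = a + (0, -g) := by ext <;> simp <;> abel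
    rw [cf_sg_mul, cf_sg_mul, cf_rv, cf_rv, h3, h4, Subfield.coe_inv]
    field_simp
    linarith
  · exact hP.hx_pos hμ hs hH hl hh h1 h

end Pool.Agent.GD
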