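import Pool.Agent.Lib.MP_a01f70_lc.GD.Up
import Pool.Agent.Lib.MP_a01f70_lc.GD.Deg

namespace Pool.Agent.GD
open Finset Pool.Agent.GK

variable {m : ℕ} {Λ : Type} [AddCommGroup Λ]

variable {μ : Type} [AddCommGroup μ]

theorem nz_int [Finite μ] (A : GR m (Λ × μ)) :
    (spec m (AddMonoidHom.inl Λ μ)).IsIntegralElem A := by
  let _ := (spec m (AddMonoidHom.inl Λ μ)).toAlgebra
  change IsIntegral (GR m Λ) A
  refine AddMonoidAlgebra.induction_linear A isIntegral_zero (fun _ _ => IsIntegral.add) ?_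
  rintro ⟨v, g⟩ c
  have e : (AddMonoidAlgebra.single (v, g) c : GR m (Λ × μ)) =
      algebraMap (GR m Λ) _ (AddMonoidAlgebra.single v c) * AddMonoidAlgebra.single (0, g) 1 := by
    rw [RingHom.algebraMap_toAlgebra, spec_single, AddMonoidAlgebra.single_mul_single]
    simp
  rw [e]
  refine isIntegral_algebraMap.mul (IsIntegral.of_pow (n := Nat.card μ) Nat.card_pos ?_)
  rw [AddMonoidAlgebra.single_pow, one_pow, Prod.smul_mk, smul_zero, card_nsmul_eq_zero']
  exact isIntegral_one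

theorem nz_of_nzd [Finite μ] {r : ℕ} {A : GR m ((Fin r → ℤ) × μ)}
    (hA : A ∈ nonZeroDivisors (GR m ((Fin r → ℤ) × μ))) : NZ A := by
  let _ := (spec m (AddMonoidHom.inl (Fin r → ℤ) μ)).toAlgebra
  obtain ⟨a, h0, C, h⟩ :=
    (IsIntegral.isAlgebraic (R := GR m (Fin r → ℤ)) (nz_int A)).exists_nonzero_dvd hA
  exact ⟨C, a, h0, h.symm⟩

theorem nz_coeff (a : GR m Λ) {l : Λ × μ} (h : l.2 ≠ 0) :
    (spec m (AddMonoidHom.inl Λ μ) a).coeff l = 0 :=
  Finsupp.mapDomain_of_notMem_range _ _ fun ⟨_, e⟩ => h (congrArg Prod.snd e).symm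

theorem NZ.nzd_up {A : GR m (ℤ × μ)} (h : NZ A) : up A ∈ nonZeroDivisors (AL (KK m) (ℤ × μ)) := by
  obtain ⟨C, a, h0, h⟩ := h
  have h1 : up (A * C) ≠ 0 := fun e => h0 (spec_eq_zero (AddMonoidHom.inl ℤ μ)
    (fun _ _ _ _ e => congrArg Prod.fst e) (h ▸ up_injective (e.trans (map_zero up).symm)))
  obtain ⟨j, h2, h3⟩ := exists_low h1
  have h4 : sl (up (A * C)) j = sg (j, 0) ((up (A * C)).coeff (j, 0)) := by
    refine cf_ext fun l => ?_
    rw [cf_sl, cf_sg]
    by_cases h5 : (j, 0) = l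
    · subst h5
      rw [if_pos rfl, if_pos rfl, cf]
    · rw [if_neg h5]
      refine ite_eq_right_iff.2 fun h6 => ?_
      rw [cf_up, h, nz_coeff a fun h7 => h5 (Prod.ext h6.symm h7.symm)]
      rfl
  have h5 := nzd_of_low h2 (h4 ▸ isUnit_sg _ fun e => h3 (by
    rw [h4, e]
    exact AddMonoidAlgebra.single_zero _))
  rw [map_mul] at h5
  exact (mul_mem_nonZeroDivisors.1 h5).1

theorem NZ.nzd {A : GR m (ℤ × μ)} (h : NZ A) : A ∈ nonZeroDivisors (GR m (ℤ × μ)) :=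
  mem_nonZeroDivisors_of_injective up_injective h.nzd_up

theorem NZ.spec_ne {A : GR m (Λ × μ)} (h : NZ A) : spec m (AddMonoidHom.fst Λ μ) A ≠ 0 := by
  obtain ⟨C, a, h0, h⟩ := h
  have h1 : ∀ a : GR m Λ, spec m (AddMonoidHom.fst Λ μ) (spec m (AddMonoidHom.inl Λ μ) a) = a :=
    fun a => AddMonoidAlgebra.induction_linear a (by rw [map_zero, map_zero])
      (fun x y h1 h2 => by rw [map_add, map_add, h1, h2]) fun v c => by
        rw [spec_single, spec_single]
        rfl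
  intro e
  rw [← h1 a, ← h, map_mul, e, zero_mul] at h0
  exact h0 rfl

end Pool.Agent.GD
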