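import Pool.Agent.Lib.MP_a01f70_lc.GD.Loc
import Pool.Agent.Lib.MP_a01f70_lc.GD.NZ

namespace Pool.Agent.GD
open Finset Pool.Agent.GK

variable {m : ℕ} [NeZero m] {μ : Type} [AddCommGroup μ] [Fintype μ]

theorem exists_char_KK {x : KK m} (h : ∀ y : O m, ok m y ≠ x) :
    ∃ ω : KK m →+ Tc, (∀ y : O m, ω (ok m y) = 0) ∧ ω x ≠ 0 := by
  have h2 : QuotientAddGroup.mk' (ok m).toAddMonoidHom.range x ≠ 0 := fun e => by
    obtain ⟨y, hy⟩ := (QuotientAddGroup.eq_zero_iff x).1 e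
    exact h y hy
  obtain ⟨χ, hχ⟩ := CharacterModule.exists_character_apply_ne_zero_of_ne_zero h2
  obtain ⟨j, hj⟩ := coc_inj
  obtain ⟨ω, hω⟩ : ∃ ω : KK m →+ Tc, ∀ r,
      ω r = j (χ (QuotientAddGroup.mk' (ok m).toAddMonoidHom.range r)) :=
    ⟨j.comp (AddMonoidHom.comp χ (QuotientAddGroup.mk' _)), fun _ => rfl⟩
  refine ⟨ω, fun y => ?_, fun e => hχ (hj _ (hω x ▸ e))⟩
  have h3 : QuotientAddGroup.mk' (ok m).toAddMonoidHom.range (ok m y) = 0 :=
    (QuotientAddGroup.eq_zero_iff _).2 ⟨y, rfl⟩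
  rw [hω, h3, map_zero, map_zero]

theorem TLt.int {A B : GR m (ℤ × μ)} (h : TLt A B) (hA : NZ A) {P : GR m (ℤ × μ)}
    {ξ : AL (KK m) (ℤ × μ)} (he : up A * ξ = up B * up P) {c : KK m} {b : ℤ × μ} (hc : 0 < (c : ℝ))
    (hb : 0 < b.1) {r : ℤ × μ → ℝ} (hr : Gs (up A) (up B) c b r) (hn : ∀ l, r l ≠ 0)
    (hp : ∀ l, ξ.coeff l ≠ 0 → 0 < r l) : ∃ p, up p = ξ := by
  refine exists_up fun l₀ => ?_
  by_contra h0
  obtain ⟨ω, h1, h2⟩ := exists_char_KK (not_exists.1 h0)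
  obtain ⟨θ, hθ⟩ : ∃ θ : GR m (ℤ × μ) →+ Tc, ∀ η, θ η = ω ((up η * ξ).coeff 0) :=
    ⟨AddMonoidHom.mk' (fun η => ω ((up η * ξ).coeff 0)) fun η η' => by
      rw [map_add, add_mul, AddMonoidAlgebra.coeff_add, Finsupp.add_apply, map_add], fun _ => rfl⟩
  have h3 : ∀ e l, θ (mon m (e, -l)) = ω (tk m e * ξ.coeff l) := fun e l => by
    rw [hθ, up_mon, AddMonoidAlgebra.coeff_single_mul_apply, neg_neg, add_zero]
  have hv : Vd A B 0 θ := fun η ζ e => by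
    have h4 : up η * ξ = up (ζ * P) := by
      refine mul_cancel_left_mem_nonZeroDivisors hA.nzd_up |>.1 ?_
      have h5 := congrArg up e
      rw [map_mul, map_mul] at h5
      rw [map_mul]
      linear_combination up η * he + up P * h5
    rw [hθ, h4, up_coeff, h1, AddMonoidHom.zero_apply]
  obtain ⟨q, p, hq, hp'⟩ := exists_odd_up ξ
  have hD := Nat.totient_pos.2 hq.pos
  have ht : ∀ f, (2 ^ Nat.totient q - 1) • θ f = 0 := fun f => by
    obtain ⟨w, hw⟩ := (Nat.modEq_iff_dvd' Nat.one_le_two_pow).1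
      (Nat.ModEq.pow_totient (Nat.coprime_two_left.2 hq)).symm
    have h4 : up (q • f) * ξ = up (f * p) := by
      rw [map_mul, hp', map_nsmul, nsmul_eq_mul]
      ring
    rw [hw, mul_nsmul, ← map_nsmul θ, hθ, h4, up_coeff, h1, nsmul_zero]
  have h4 : ∀ e l, ξ.coeff l = 0 → θ (mon m (e, -l)) = 0 := fun e l h5 => by
    rw [h3, h5, mul_zero, map_zero]
  have h5 := h.loc hD hc hb hr hn hv (fun _ => smul_zero _) ht
    (fun e l hl => h4 e l (not_not.1 fun h6 => hl.not_gt (hp l h6))) ξ.coeff.support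
    (fun _ _ _ => rfl) fun e l hl => h4 e l (Finsupp.notMem_support_iff.1 hl)
  simp only [AddMonoidHom.zero_apply, dig_zero, sum_const_zero] at h5
  have h6 : θ (mon m (0, -l₀)) = ω (ξ.coeff l₀) := by rw [h3, tk, tz_zero, map_one, one_mul]
  obtain ⟨s, hs, hd⟩ := exists_dig hD (h6 ▸ ht _) h2
  have h7 : dig (θ (mon m (((m * s : ℕ) : ℤ), -l₀))) = 1 := by
    rw [← map_nsmul, nsmul_eq_mul, Nat.cast_pow, Nat.cast_ofNat] at hd
    rw [h3, Nat.cast_mul, tk, tz_mul_m, map_pow, map_ofNat, hd]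
  have h8 := single_le_sum (f := fun e : ℕ => dig (θ (mon m ((e : ℤ), -l₀))))
    (fun e _ => dig_nonneg _) (mem_range.2 (Nat.mul_lt_mul_of_pos_left hs (NeZero.pos m)))
  have h9 := single_le_sum (f := fun l => ∑ e ∈ range (m * Nat.totient q),
    dig (θ (mon m ((e : ℤ), -l)))) (fun l _ => sum_nonneg fun e _ => dig_nonneg _)
    (Finsupp.mem_support_iff.2 fun e : ξ.coeff l₀ = 0 => h2 (by rw [e, map_zero]))
  linarith

end Pool.Agent.GD
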