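import Pool.Agent.Lib.MP_a01f70_lc.GD.Bx

namespace Pool.Agent.GD
open Finset Pool.Agent.GK

variable {K : Subfield ℝ} {μ : Type} [AddCommGroup μ] [Fintype μ]

theorem test_big {α : Type} (F : Finset α) (y r : α → ℝ) :
    ∃ M : ℝ, 0 < M ∧ ∀ l ∈ F, r l < 0 → y l + M * r l < 0 := by
  refine ⟨∑ l ∈ F, |y l / r l| + 1, by positivity, fun l hl h => ?_⟩
  have h1 := single_le_sum (f := fun l => |y l / r l|) (fun _ _ => abs_nonneg _) hl
  have h2 := neg_abs_le (y l / r l)
  have h3 : y l / r l * r l = y l := div_mul_cancel₀ _ h.ne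
  nlinarith

theorem test_weights {ι : Type} (S : Finset ι) (s : ℤ → ι → ℝ) (F : Finset ℤ) :
    ∃ M : ℤ → ℝ, (∀ j, 0 < M j) ∧ ∀ l ∈ S, ∀ j ∈ F, s j l < 0 →
      (∀ j' ∈ F, j < j' → s j' l ≤ 0) → ∑ j ∈ F, M j * s j l < 0 := by
  induction F using Finset.induction_on_max with
  | empty => exact ⟨fun _ => 1, fun _ => one_pos, fun _ _ _ h => absurd h (notMem_empty _)⟩
  | insert a F ha ih =>
    obtain ⟨M, hM, ih⟩ := ih
    obtain ⟨t, ht, hb⟩ := test_big S (fun l => ∑ j ∈ F, M j * s j l) (s a)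
    have haF : a ∉ F := fun h => lt_irrefl _ (ha a h)
    refine ⟨Function.update M a t, fun j => ?_, fun l hl j hj h1 h2 => ?_⟩
    · rcases eq_or_ne j a with rfl | h
      · rwa [Function.update_self]
      · rw [Function.update_of_ne h]
        exact hM j
    · rw [sum_insert haF, Function.update_self, sum_congr rfl fun j hj => by
        rw [Function.update_of_ne (ha j hj).ne]]
      rcases mem_insert.1 hj with rfl | hj
      · have := hb l hl h1
        linarith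
      · have h3 := ih l hl j hj h1 fun j' hj' => h2 j' (mem_insert_of_mem hj')
        have h4 := mul_nonpos_of_nonneg_of_nonpos ht.le (h2 a (mem_insert_self _ _) (ha j hj))
        linarith

/-- quickly growing weights: induction on the upper end of the interval, or `M j = t ^ (j - j₀)` with `t` large -/
theorem exists_weights {ι : Type} (S : Finset ι) (s : ℤ → ι → ℝ) (j₀ j₁ : ℤ) :
    ∃ M : ℤ → ℝ, (∀ j, 0 < M j) ∧ ∀ l ∈ S, ∀ j ∈ Ico j₀ j₁, s j l < 0 →
      (∀ j' ∈ Ico j₀ j₁, j < j' → s j' l ≤ 0) → ∑ j ∈ Ico j₀ j₁, M j * s j l < 0 :=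
  test_weights S s _

open Classical in
/-- One box. Sources `x (j, g) = M j * w (j, g)` for `j` in an interval that contains the witnesses of `Dom` for all
sites of the box (and `0` elsewhere), `y l = ∑ j, M j * ct D w j l` (`RV.shift`, `RV.smul`, `RV.sum`), then add a large
multiple of `r`. -/
theorem SMt.test_box {a b : AL K (ℤ × μ)} (h : SMt a b) {D r : ℤ × μ → ℝ} {j : ℤ} (hD : Ex a b D j)
    (hr : RV a b 0 r) : ∃ C : ℝ, ∀ (w : ℤ × μ → ℝ) (s : ℤ) (T : ℕ),
      (#{l ∈ Box μ s T | r l < 0 ∨ (r l = 0 ∧ Dom D w l)} : ℝ) - ng w s T ≤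
        T * Fintype.card μ / 2 + C := by
  obtain ⟨C, hC⟩ := h
  refine ⟨C, fun w s T => ?_⟩
  have h1 : ∀ l, ∃ j, Dom D w l → ct D w j l < 0 ∧ ∀ j', j < j' → ct D w j' l ≤ 0 := fun l => by
    by_cases h : Dom D w l
    · exact h.imp fun j hj _ => hj
    · exact ⟨0, fun h' => absurd h' h⟩
  choose u hu using h1
  obtain ⟨M, hM, h2⟩ := test_weights (Box μ s T) (ct D w) ((Box μ s T).image u)
  have h3 := RV.sum ((Box μ s T).image u ×ˢ (univ : Finset μ)) fun p _ =>
    (hD.1.shift (-p)).smul (M p.1 * w p)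
  generalize hx : (∑ p ∈ (Box μ s T).image u ×ˢ (univ : Finset μ), (M p.1 * w p) •
    fun l => (Pi.single 0 1 : ℤ × μ → ℝ) (l + -p)) = x at h3
  generalize hy : (∑ p ∈ (Box μ s T).image u ×ˢ (univ : Finset μ), (M p.1 * w p) •
    fun l => D (l + -p)) = y at h3
  have hx' : ∀ l, x l < 0 → w l < 0 := fun l hl => by
    by_contra h0
    refine not_le.2 hl ?_
    rw [← hx, Finset.sum_apply]
    refine sum_nonneg fun p _ => ?_
    rcases eq_or_ne l p with rfl | hp
    · simpa using mul_nonneg (hM _).le (not_lt.1 h0)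
    · simp [Pi.single_eq_of_ne (add_neg_eq_zero.not.2 hp)]
  have hy' : ∀ l, y l = ∑ j ∈ (Box μ s T).image u, M j * ct D w j l := fun l => by
    rw [← hy, Finset.sum_apply, sum_product]
    refine sum_congr rfl fun j _ => ?_
    rw [ct, mul_sum]
    refine sum_congr rfl fun g _ => ?_
    simp only [Pi.smul_apply, smul_eq_mul, sub_eq_add_neg]
    ring
  obtain ⟨t, -, ht⟩ := test_big (Box μ s T) y r
  have key := hC _ _ (h3.add (hr.smul t)) s T
  rw [smul_zero, add_zero] at key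
  have k1 : ng x s T ≤ ng w s T := by
    unfold ng
    exact_mod_cast card_le_card fun l hl =>
      mem_filter.2 ⟨(mem_filter.1 hl).1, hx' l (mem_filter.1 hl).2⟩
  have k2 : (#{l ∈ Box μ s T | r l < 0 ∨ (r l = 0 ∧ Dom D w l)} : ℝ) ≤ ng (y + t • r) s T := by
    unfold ng
    refine Nat.cast_le.2 (card_le_card fun l hl => ?_)
    obtain ⟨a1, a2⟩ := mem_filter.1 hl
    refine mem_filter.2 ⟨a1, ?_⟩
    rcases a2 with a2 | ⟨a2, a3⟩
    · exact ht l a1 a2
    · rw [Pi.add_apply, Pi.smul_apply, a2, smul_zero, add_zero, hy']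
      exact h2 l a1 _ (mem_image_of_mem u a1) (hu l a3).1 fun j' _ => (hu l a3).2 j'
  linarith

/-- The periodic form: `test_box` for `T = n N`, `sum_Box_per`, `N → ∞`. -/
theorem SMt.test {a b : AL K (ℤ × μ)} (h : SMt a b) {D r : ℤ × μ → ℝ} {j : ℤ} (hD : Ex a b D j)
    (hr : RV a b 0 r) {p : ℤ × μ} {n : ℕ} (hp : p.1 = n) (N : ℤ × μ → Prop) [DecidablePred N]
    (w : ℤ × μ → ℝ) (hN : ∀ l, N (l + p) ↔ N l) (hw : ∀ l, w (l + p) < 0 ↔ w l < 0)
    (hd : ∀ l, N l → r l < 0 ∨ (r l = 0 ∧ Dom D w l)) (s : ℤ) :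
    (#{l ∈ Box μ s n | N l} : ℝ) - ng w s n ≤ n * Fintype.card μ / 2 := by
  classical
  obtain ⟨C, hC⟩ := h.test_box hD hr
  have h1 : ∀ k : ℕ, (#{l ∈ Box μ s (n * k) | N l} : ℝ) = k * #{l ∈ Box μ s n | N l} := fun k => by
    rw [card_filter, card_filter]
    push_cast
    exact sum_Box_per hp (fun l => if_congr (hN l) rfl rfl) s k
  have h2 : ∀ k : ℕ, ng w s (n * k) = k * ng w s n := fun k => by
    rw [ng_eq, ng_eq]
    exact sum_Box_per hp (fun l => if_congr (hw l) rfl rfl) s k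
  have h3 : ∀ k : ℕ, k * ((#{l ∈ Box μ s n | N l} : ℝ) - ng w s n - n * Fintype.card μ / 2) ≤ C :=
    fun k => by
      have a1 := hC w s (n * k)
      have a2 : (#{l ∈ Box μ s (n * k) | N l} : ℝ) ≤
          #{l ∈ Box μ s (n * k) | r l < 0 ∨ (r l = 0 ∧ Dom D w l)} :=
        Nat.cast_le.2 (card_le_card fun l hl =>
          mem_filter.2 ⟨(mem_filter.1 hl).1, hd l (mem_filter.1 hl).2⟩)
      rw [h1] at a2
      rw [h2] at a1
      push_cast at a1
      linarith
  by_contra h4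
  have h5 := sub_pos.2 (not_le.1 h4)
  obtain ⟨k, hk⟩ := exists_nat_gt
    (C / ((#{l ∈ Box μ s n | N l} : ℝ) - ng w s n - n * Fintype.card μ / 2))
  exact not_le.2 ((div_lt_iff₀ h5).1 hk) (h3 k)

end Pool.Agent.GD
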