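import Pool.Agent.Lib.MP_a01f70_lc.GD.Odd
import Pool.Agent.Lib.MP_a01f70_lc.GD.Test

namespace Pool.Agent.GD
open Finset Pool.Agent.GK

variable {K : Subfield ℝ} {μ : Type} [AddCommGroup μ] [Fintype μ]

/-- `SMt.test` with `r = 0`, `p = (1, 0)`, `w l = w₀ l.2` from `odd_lemma` -/
theorem SMt.lead (hμ : Odd (Fintype.card μ)) {a b : AL K (ℤ × μ)} (h : SMt a b) {D : ℤ × μ → ℝ}
    {j : ℤ} (hD : Ex a b D j) (h0 : ∃ g, D (j, g) ≠ 0) : 0 < ∑ g, D (j, g) := by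
  classical
  by_contra h1
  obtain ⟨g₀, hg₀⟩ := h0
  obtain ⟨w, hw, h2⟩ := odd_lemma hμ (f := fun g => D (j, g)) (fun e => hg₀ (congrFun e g₀))
    (not_lt.1 h1)
  have h3 := h.test hD (RV.zero a b) (p := (1, 0)) (n := 1) (by simp)
    (fun l => ∑ g', D (j, l.2 - g') * w g' < 0) (fun l => w l.2) (by simp) (by simp)
    (fun l hl => .inr ⟨rfl, l.1 - j, by
      refine lt_of_eq_of_lt (sum_congr rfl fun g _ => ?_) hl
      congr 2
      ext <;> simp, fun j' hj' => (sum_eq_zero fun g _ => by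
        rw [hD.2 _ (by simp; omega), zero_mul]).le⟩) 0
  have h4 : ng (fun l : ℤ × μ => w l.2) 0 1 = 0 := by
    rw [ng_eq]
    exact sum_eq_zero fun l _ => if_neg (hw _).not_gt
  rw [h4, card_filter, Nat.cast_sum, sum_Box] at h3
  rw [card_filter] at h2
  have h5 : (Fintype.card μ : ℝ) < 2 * ∑ g, ((if ∑ g', D (j, g - g') * w g' < 0 then 1 else 0 : ℕ) : ℝ) := by
    exact_mod_cast h2
  simp only [range_one, sum_singleton] at h3
  push_cast at h3 h5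
  linarith

omit [Fintype μ] in
theorem lead_sl {ξ : AL K (ℤ × μ)} {j : ℤ} : sl ξ j ≠ 0 ↔ ∃ g, cf ξ (j, g) ≠ 0 := by
  rw [← not_forall, not_iff_not]
  refine ⟨fun h g => ?_, fun h => cf_ext fun l => ?_⟩
  · simpa [cf_sl, cf_zero] using congrArg (cf · (j, g)) h
  · rw [cf_sl, cf_zero]
    split_ifs with e
    · subst e
      exact h l.2
    · rfl

/-- `exists_ex` or `ex_one`, `SMt.lead` -/
theorem Side.low (hμ : Odd (Fintype.card μ)) {P ξ : AL K (ℤ × μ)} (h : Side P ξ) {j : ℤ}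
    (hj : Low ξ j) (h0 : sl ξ j ≠ 0) : 0 < tot ξ j := by
  obtain ⟨hs, rfl | ⟨c, b, H, rfl, hP⟩⟩ := h
  · exact hs.lead hμ (ex_one hj) (lead_sl.1 h0)
  · obtain ⟨D, hD, h1⟩ := exists_ex c hP.deg hj
    have h2 : ∀ g, D (j, g) = cf ξ (j, g) := fun g => by
      rw [h1, hD.2 _ (by simpa using hP.deg), mul_zero, sub_zero]
    simpa only [h2, tot] using hs.lead hμ hD (by simpa only [h2] using lead_sl.1 h0)

/-- time reversal (`SMt.rv` for `P = 1`, `SMt.rev`) -/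
theorem Side.high (hμ : Odd (Fintype.card μ)) {P ξ : AL K (ℤ × μ)} (h : Side P ξ) {j : ℤ}
    (hj : High ξ j) (h0 : sl ξ j ≠ 0) : 0 < tot ξ j := by
  classical
  obtain ⟨g, hg⟩ := lead_sl.1 h0
  have h1 : sl (rv ξ) (-j) ≠ 0 := lead_sl.2 ⟨-g, by simpa [cf_rv] using hg⟩
  obtain ⟨hs, rfl | ⟨c, b, H, rfl, hP⟩⟩ := h
  · rw [← tot_rv]
    exact Side.low hμ ⟨by simpa using hs.rv, .inl rfl⟩ hj.rv h1
  · have hc : c ≠ 0 := fun e => by simpa [e] using hP.pos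
    have h2 := Side.low hμ ⟨hs.rev hc hP.deg, .inr ⟨_, _, H, rfl, hP.rev⟩⟩ ((low_sg b c⁻¹).mul hj.rv) (by
      rw [(low_sg b c⁻¹).sl_mul hj.rv, sl_sg, if_pos rfl]
      exact fun e => h1 ((isUnit_sg b (inv_ne_zero hc)).mul_right_eq_zero.1 e))
    rw [(low_sg b c⁻¹).tot_mul hj.rv, tot_rv] at h2
    refine pos_of_mul_pos_right h2 (sum_nonneg fun g _ => ?_)
    rw [cf_sg]
    split_ifs
    · exact hP.rev.pos.le
    · rfl

end Pool.Agent.GD
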