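import Pool.Agent.Lib.MP_a01f70_lc.GD.NZ
import Pool.Agent.Lib.MP_a01f70_lc.GK.Lift

namespace Pool.Agent.GD
open Finset Pool.Agent.GK

variable {m : ℕ} [NeZero m]

omit [NeZero m] in
theorem lift_supp' {Λ Λ' : Type} [AddCommGroup Λ] [AddCommGroup Λ'] (φ : Λ →+ Λ') (F : GR m Λ) {x : Λ'}
    (h : (spec m φ F).coeff x ≠ 0) : ∃ u ∈ F.coeff.support, φ u = x := by
  classical
  exact mem_image.1 (Finsupp.mapDomain_support (Finsupp.mem_support_iff.2 h))

omit [NeZero m] in
theorem lift_disj' {Λ Λ' : Type} [AddCommGroup Λ] [AddCommGroup Λ'] {ι : Type} (φ : Λ →+ Λ') (s : Finset ι)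
    (F : ι → GR m Λ) (v : ι → Λ') (hd : ∀ i ∈ s, ∀ j ∈ s, i ≠ j → ∀ u ∈ (F i).coeff.support,
      ∀ u' ∈ (F j).coeff.support, φ u + v i ≠ φ u' + v j)
    (h : ∑ i ∈ s, spec m φ (F i) * AddMonoidAlgebra.single (v i) 1 = 0) {i : ι} (hi : i ∈ s) :
    spec m φ (F i) = 0 := by
  refine AddMonoidAlgebra.ext (Finsupp.ext fun x => ?_)
  by_contra hx
  obtain ⟨u, hu, rfl⟩ := lift_supp' φ _ hx
  have h1 := congrArg (fun G : GR m Λ' => G.coeff (φ u + v i)) h
  simp only [AddMonoidAlgebra.coeff_sum, Finsupp.finsetSum_apply,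
    AddMonoidAlgebra.coeff_mul_single_apply, mul_one] at h1
  rw [sum_eq_single_of_mem i hi, add_neg_cancel_right] at h1
  · exact hx h1
  · intro j hj hji
    by_contra h2
    obtain ⟨u', hu', h3⟩ := lift_supp' φ _ h2
    exact hd i hi j hj hji.symm u hu u' hu' (by rw [h3]; abel)

omit [NeZero m] in
open scoped Pointwise in
/-- `lift_sum` of `GK/Lift` with a general target group (copy `lift_supp`, `lift_disj`, `lift_sum`) -/
theorem lift_sum' {Λ Λ' : Type} [AddCommGroup Λ] [AddCommGroup Λ'] {ι : Type} (k : ℕ) (S : Finset Λ) :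
    ∃ S' : Finset Λ, ∀ φ : Λ →+ Λ', Set.InjOn φ S' → ∀ (s : Finset ι) (F : ι → GR m Λ) (v : ι → Λ'),
      s.card ≤ k → (∀ i ∈ s, (F i).coeff.support ⊆ S) →
      ∑ i ∈ s, spec m φ (F i) * AddMonoidAlgebra.single (v i) 1 = 0 →
      ∃ w : ι → Λ, ∑ i ∈ s, F i * AddMonoidAlgebra.single (w i) 1 = 0 := by
  classical
  induction k generalizing S with
  | zero =>
    refine ⟨S, fun φ _ s F v hs _ _ => ⟨0, ?_⟩⟩
    rw [card_eq_zero.1 (Nat.le_zero.1 hs), sum_empty]
  | succ k ih =>
    obtain ⟨S', hS'⟩ := ih (S ∪ (S + (S - S)))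
    refine ⟨S ∪ S', fun φ hφ s F v hs hF h => ?_⟩
    by_cases hd : ∀ i ∈ s, ∀ j ∈ s, i ≠ j → ∀ u ∈ (F i).coeff.support,
        ∀ u' ∈ (F j).coeff.support, φ u + v i ≠ φ u' + v j
    · refine ⟨0, sum_eq_zero fun i hi => ?_⟩
      rw [spec_eq_zero φ (hφ.mono (coe_subset.2 ((hF i hi).trans subset_union_left)))
        (lift_disj' φ s F v hd h hi), zero_mul]
    · push Not at hd
      obtain ⟨i, hi, j, hj, hij, u, hu, u', hu', e⟩ := hd
      have hi' : i ∈ s.erase j := mem_erase.2 ⟨hij, hi⟩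
      obtain ⟨w, hw⟩ := hS' φ (hφ.mono (coe_subset.2 subset_union_right)) (s.erase j)
        (fun l => F l + if l = i then F j * AddMonoidAlgebra.single (u - u') 1 else 0) v
        (by rw [card_erase_of_mem hj]; omega)
        (fun l hl => by
          rw [AddMonoidAlgebra.coeff_add]
          refine Finsupp.support_add.trans (union_subset_union (hF l (mem_of_mem_erase hl)) ?_)
          split_ifs
          · intro x hx
            rw [Finsupp.mem_support_iff, AddMonoidAlgebra.coeff_mul_single_apply, mul_one] at hx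
            rw [show x = x + -(u - u') + (u - u') by abel]
            exact add_mem_add (hF j hj (Finsupp.mem_support_iff.2 hx))
              (sub_mem_sub (hF i hi hu) (hF j hj hu'))
          · simp)
        (by
          rw [← add_sum_erase s _ hj, add_comm] at h
          simp only [map_add, apply_ite (spec m φ), map_zero, add_mul, ite_mul, zero_mul,
            sum_add_distrib, sum_ite_eq', if_pos hi', map_mul, spec_single, mul_assoc,
            AddMonoidAlgebra.single_mul_single, mul_one]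
          rwa [show φ (u - u') + v i = v j by rw [map_sub, sub_add_eq_add_sub, e, add_sub_cancel_left]])
      refine ⟨Function.update w j (u - u' + w i), ?_⟩
      simp only [add_mul, ite_mul, zero_mul, sum_add_distrib, sum_ite_eq', if_pos hi', mul_assoc,
        AddMonoidAlgebra.single_mul_single, mul_one] at hw
      rw [← add_sum_erase s _ hj, add_comm, Function.update_self, ← hw]
      congr 1
      exact sum_congr rfl fun l hl => by rw [Function.update_of_ne (ne_of_mem_erase hl)]

omit [NeZero m] in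
theorem lift_spec_spec {Λ Λ' Λ'' : Type} [AddCommGroup Λ] [AddCommGroup Λ'] [AddCommGroup Λ'']
    (φ : Λ →+ Λ') (ψ : Λ' →+ Λ'') (f : GR m Λ) : spec m ψ (spec m φ f) = spec m (ψ.comp φ) f := by
  induction f using AddMonoidAlgebra.induction_linear with
  | zero => simp
  | add f g hf hg => simp only [map_add, hf, hg]
  | single l x => simp only [spec_single, AddMonoidHom.comp_apply]

/-- As `form_lift`: `S` is the set of all `l` whose first coordinate occurs in `A` or `B`; `φ` (`exists_injOn`) is injective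
on the first coordinates of `S'` and on the supports of the elements `a` in `NZ`. For `FormT` write
`p = single (v, 0) 1 * spec m inr p₀` and use the terms `A * spec m inr p₀`, `-B * q`. -/
theorem form_lift_t {r : ℕ} {μ : Type} [AddCommGroup μ] [Fintype μ] {A B : GR m ((Fin r → ℤ) × μ)}
    (hA : NZ A) (hB : NZ B) (h : ∀ φ : (Fin r → ℤ) →+ ℤ,
      NZ (spec m (φ.prodMap (AddMonoidHom.id μ)) A) → NZ (spec m (φ.prodMap (AddMonoidHom.id μ)) B) →
      FormT (spec m (φ.prodMap (AddMonoidHom.id μ)) A) (spec m (φ.prodMap (AddMonoidHom.id μ)) B) ∨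
      FormQ (spec m (φ.prodMap (AddMonoidHom.id μ)) A) (spec m (φ.prodMap (AddMonoidHom.id μ)) B)) :
    FormT A B ∨ FormQ A B := by
  classical
  let S : Finset ((Fin r → ℤ) × μ) := (A.coeff.support ∪ B.coeff.support).image Prod.fst ×ˢ univ
  have hS : ∀ {C p : GR m ((Fin r → ℤ) × μ)}, C.coeff.support ⊆ A.coeff.support ∪ B.coeff.support →
      (∀ l, p.coeff l ≠ 0 → l.1 = 0) → (C * p).coeff.support ⊆ S := fun {C p} hC hp x hx => by
    obtain ⟨u, hu, u', hu', rfl⟩ := mem_add.1 (AddMonoidAlgebra.support_coeff_mul_subset C p hx)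
    refine mem_product.2 ⟨mem_image.2 ⟨u, hC hu, ?_⟩, mem_univ _⟩
    rw [Prod.fst_add, hp u' (Finsupp.mem_support_iff.1 hu'), add_zero]
  have h0 : ∀ (x : O m) l, (AddMonoidAlgebra.single (0 : (Fin r → ℤ) × μ) x).coeff l ≠ 0 → l.1 = 0 :=
    fun x l hl => by
      rw [AddMonoidAlgebra.coeff_single, Finsupp.single_apply_ne_zero] at hl
      rw [hl.1, Prod.fst_zero]
  have sA : A.coeff.support ⊆ A.coeff.support ∪ B.coeff.support := subset_union_left
  have sB : (-B).coeff.support ⊆ A.coeff.support ∪ B.coeff.support := by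
    rw [AddMonoidAlgebra.coeff_neg, Finsupp.support_neg]
    exact subset_union_right
  obtain ⟨S₂, h₂⟩ := lift_sum' (m := m) (Λ' := ℤ × μ) (ι := Fin 2) 2 S
  obtain ⟨S₄, h₄⟩ := lift_sum' (m := m) (Λ' := ℤ × μ) (ι := Fin 4) 4 S
  obtain ⟨C, a, ha, hC⟩ := hA
  obtain ⟨C', a', ha', hC'⟩ := hB
  obtain ⟨φ, hφ⟩ := exists_injOn ((a.coeff.support ∪ a'.coeff.support) ∪ (S₂ ∪ S₄).image Prod.fst)
  have hψ : Set.InjOn (φ.prodMap (AddMonoidHom.id μ)) (S₂ ∪ S₄ : Finset _) := fun x hx y hy e =>
    Prod.ext (hφ (mem_union_right _ (mem_image_of_mem _ hx)) (mem_union_right _ (mem_image_of_mem _ hy))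
      (congrArg Prod.fst e)) (congrArg (Prod.snd : ℤ × μ → μ) e)
  have hz : ∀ {X Y : GR m ((Fin r → ℤ) × μ)} {x : GR m (Fin r → ℤ)}, x ≠ 0 →
      x.coeff.support ⊆ a.coeff.support ∪ a'.coeff.support → X * Y = spec m (AddMonoidHom.inl _ μ) x →
      NZ (spec m (φ.prodMap (AddMonoidHom.id μ)) X) := fun {X Y x} h1 h2 h3 =>
    ⟨spec m _ Y, spec m φ x, fun e => h1 (spec_eq_zero φ
      (hφ.mono (coe_subset.2 (h2.trans subset_union_left))) e), by
        rw [← map_mul, h3, lift_spec_spec, lift_spec_spec]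
        congr 2⟩
  rcases h φ (hz ha subset_union_left hC) (hz ha' subset_union_right hC') with
    ⟨q, p, v, hq, hp, e⟩ | ⟨γ₁, γ₂, γ₃, γ₄, e⟩
  · let p₀ : GR m ((Fin r → ℤ) × μ) := spec m ((AddMonoidHom.inr _ μ).comp (AddMonoidHom.snd ℤ μ)) p
    have p1 : ∀ l, p₀.coeff l ≠ 0 → l.1 = 0 := fun l hl => by
      obtain ⟨u, -, rfl⟩ := lift_supp' _ _ hl
      rfl
    have p2 : spec m (φ.prodMap (AddMonoidHom.id μ)) p₀ * AddMonoidAlgebra.single (v, 0) 1 = p := by
      rw [lift_spec_spec]
      conv_lhs => rw [← AddMonoidAlgebra.sum_coeff_single p]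
      conv_rhs => rw [← AddMonoidAlgebra.sum_coeff_single p]
      rw [Finsupp.sum, map_sum, sum_mul]
      refine sum_congr rfl fun l hl => ?_
      have h1 : l.1 = v := by_contra fun h1 => Finsupp.mem_support_iff.1 hl (hp l h1)
      rw [spec_single, AddMonoidAlgebra.single_mul_single, mul_one]
      congr 1
      ext <;> simp [h1]
    obtain ⟨w, hw⟩ := h₂ _ (hψ.mono (coe_subset.2 subset_union_left))
      univ ![A * p₀, -B * AddMonoidAlgebra.single 0 (q : O m)] ![(v, 0), 0] (by simp)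
      (fun i _ => by fin_cases i; exacts [hS sA p1, hS sB (h0 _)])
      (by
        simp only [Fin.sum_univ_two, Matrix.cons_val, map_mul, map_neg, spec_single, map_zero,
          mul_assoc, p2, AddMonoidAlgebra.single_mul_single, zero_add, mul_one]
        rw [← AddMonoidAlgebra.natCast_def]
        linear_combination e)
    refine .inl ⟨q, p₀ * AddMonoidAlgebra.single (w 0 - w 1) 1, (w 0 - w 1).1, hq, fun l hl => ?_, ?_⟩
    · rw [AddMonoidAlgebra.coeff_mul_single_apply, mul_one]
      exact by_contra fun h1 => hl (add_neg_eq_zero.1 (p1 _ h1))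
    · have h1 := congrArg (· * AddMonoidAlgebra.single (-w 1) (1 : O m)) hw
      simp only [Fin.sum_univ_two, Matrix.cons_val, add_mul, mul_assoc,
        AddMonoidAlgebra.single_mul_single, zero_add, mul_one, add_neg_cancel, zero_mul] at h1
      rw [sub_eq_add_neg, AddMonoidAlgebra.natCast_def]
      linear_combination h1
  · obtain ⟨w, hw⟩ := h₄ _ (hψ.mono (coe_subset.2 subset_union_right))
      univ ![A * AddMonoidAlgebra.single 0 (tz m γ₁.1), A * AddMonoidAlgebra.single 0 (tz m γ₂.1),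
        -B * AddMonoidAlgebra.single 0 (tz m γ₃.1), -B * AddMonoidAlgebra.single 0 (tz m γ₄.1)]
      ![γ₁.2, γ₂.2, γ₃.2, γ₄.2] (by simp)
      (fun i _ => by fin_cases i; exacts [hS sA (h0 _), hS sA (h0 _), hS sB (h0 _), hS sB (h0 _)])
      (by
        simp only [Fin.sum_univ_four, Matrix.cons_val, map_mul, map_neg, spec_single, map_zero,
          mul_assoc, AddMonoidAlgebra.single_mul_single, zero_add, mul_one]
        simp only [mon] at e
        linear_combination e)
    refine Or.inr ⟨(γ₁.1, w 0), (γ₂.1, w 1), (γ₃.1, w 2), (γ₄.1, w 3), ?_⟩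
    simp only [Fin.sum_univ_four, Matrix.cons_val, mul_assoc, AddMonoidAlgebra.single_mul_single,
      zero_add, mul_one] at hw
    simp only [mon]
    linear_combination hw

end Pool.Agent.GD
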