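import Pool.Agent.Lib.MP_a01f70_lc.GD.Up
import Pool.Agent.Lib.MP_a01f70_lc.GD.Bx
import Pool.Agent.Lib.MP_a01f70_lc.GK.CoC

namespace Pool.Agent.GD
open Finset Pool.Agent.GK

variable {m : ℕ} [NeZero m] {μ : Type} [AddCommGroup μ] [Fintype μ]

/-- `TLt` with `x = 0`, `y = r`, `T = 2 k N`: on the lines with `r < 0` (half of them, `ng_alt`, `sum_Box_per`) `sdig = 1` and
`dig = 0`, on the others `sdig = dig`; compare `TL.gain` in `GK/CoB` -/
theorem TLt.gain {A B : GR m (ℤ × μ)} (h : TLt A B) {D : ℕ} (hD : 0 < D) {c : KK m} {b : ℤ × μ}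
    {k : ℕ} (hc : 0 < (c : ℝ)) (hb : b.1 = k) {r : ℤ × μ → ℝ} (hr : Gs (up A) (up B) c b r)
    (hn : ∀ l, r l ≠ 0) : ∃ C : ℝ, ∀ X Y : GR m (ℤ × μ) →+ Tc, Vd A B X Y →
      (∀ f, (2 ^ D - 1) • X f = 0) → (∀ f, (2 ^ D - 1) • Y f = 0) →
      (∀ e l, r l < 0 → Y (mon m (e, -l)) = 0) → ∀ (s : ℤ) (N : ℕ),
        ∑ l ∈ Box μ s (2 * k * N), ∑ e ∈ range (m * D),
          (dig (Y (mon m ((e : ℤ), -l))) - dig (X (mon m ((e : ℤ), -l)))) ≤ C := by
  obtain ⟨C₁, hC⟩ := h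
  refine ⟨C₁ * D, fun X Y hv hX hY h0 s N => ?_⟩
  have h1 := hC D hD X Y hv hX hY 0 r hr.1 s (2 * k * N)
  have h2 : ∀ (l : ℤ × μ) (e : ℕ), sdig (Y (mon m ((e : ℤ), -l))) (r l) -
      sdig (X (mon m ((e : ℤ), -l))) ((0 : ℤ × μ → ℝ) l) =
      (dig (Y (mon m ((e : ℤ), -l))) - dig (X (mon m ((e : ℤ), -l)))) +
        if r l < 0 then 1 else 0 := fun l e => by
    rw [cob_sdig (s := (0 : ℤ × μ → ℝ) l) (lt_irrefl 0)]
    split_ifs with hl
    · rw [h0 e l hl, sdig, if_pos rfl, if_pos hl, dig_zero]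
      ring
    · rw [cob_sdig hl, add_zero]
  have h3 : ∑ l ∈ Box μ s (2 * k * N), (if r l < 0 then (1 : ℝ) else 0) =
      N * (k * Fintype.card μ) := by
    rw [sum_Box_per (p := b + b) (by simp [hb, two_mul]) fun l => ?_, ← ng_eq, ng_alt hb hc hr.2,
      filter_true_of_mem fun l _ => hn l, card_Box, Nat.cast_mul]
    rw [← add_assoc, hr.2, hr.2, ← mul_assoc, neg_mul_neg]
    simp only [mul_neg_iff, mul_pos hc hc, (mul_pos hc hc).not_gt, true_and, false_and, or_false]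
  simp only [h2, sum_add_distrib, sum_const, card_range, nsmul_eq_mul, ← mul_sum, h3] at h1
  push_cast at h1
  linarith

theorem loc_sum {w : ℤ × μ → Tc} {s : ℤ} {n : ℕ} {p : ℤ × μ} (hp : p.1 = n)
    (hw : ∀ l ∉ Box μ s n, w l = 0) (N : ℕ) :
    ∑ l ∈ Box μ s (n * N), dig (∑ i ∈ range N, w (l - i • p)) = N * ∑ l ∈ Box μ s n, dig (w l) := by
  induction N with
  | zero => simp [dig_zero]
  | succ N ih =>
    have e : (N • p).1 = (n * N : ℕ) := by simp [hp, mul_comm]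
    rw [Nat.mul_succ, sum_Box_add, ← e, ← sum_Box_shift, Nat.cast_succ, add_mul, one_mul, ← ih]
    congr 1 <;> refine sum_congr rfl fun l hl => ?_
    · rw [sum_range_succ, hw _ fun h => ?_, add_zero]
      have h1 := (mem_Box.1 hl).2
      have h2 := (mem_Box.1 h).1
      rw [Prod.fst_sub, e] at h2
      omega
    · rw [sum_range_succ, add_sub_cancel_right, sum_eq_zero fun i hi => hw _ fun h => ?_, zero_add]
      have h1 := (mem_Box.1 hl).1
      have h2 := (mem_Box.1 h).2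
      have h3 : (i : ℤ) + 1 ≤ N := by exact_mod_cast mem_range.1 hi
      simp only [Prod.fst_sub, Prod.fst_add, Prod.smul_fst, hp, nsmul_eq_mul] at h2
      nlinarith [Int.natCast_nonneg n]

/-- Characters supported on finitely many lines. Let `S ⊆ Box s (2 k M)`, `p = 2 M b`; apply `gain` to the sums of the
translates of `X`, `Y` by `i p`, `i < N` (`Vd.shift` with `mon (0, i p)`, `Vd.sum`, `Gs.zsmul`); the translates live in
disjoint boxes; `N → ∞`. -/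
theorem TLt.loc {A B : GR m (ℤ × μ)} (h : TLt A B) {D : ℕ} (hD : 0 < D) {c : KK m} {b : ℤ × μ}
    (hc : 0 < (c : ℝ)) (hb : 0 < b.1) {r : ℤ × μ → ℝ} (hr : Gs (up A) (up B) c b r)
    (hn : ∀ l, r l ≠ 0) {X Y : GR m (ℤ × μ) →+ Tc} (hv : Vd A B X Y)
    (hX : ∀ f, (2 ^ D - 1) • X f = 0) (hY : ∀ f, (2 ^ D - 1) • Y f = 0)
    (h0 : ∀ e l, r l < 0 → Y (mon m (e, -l)) = 0) (S : Finset (ℤ × μ))
    (hXS : ∀ e l, l ∉ S → X (mon m (e, -l)) = 0) (hYS : ∀ e l, l ∉ S → Y (mon m (e, -l)) = 0) :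
    ∑ l ∈ S, ∑ e ∈ range (m * D), dig (Y (mon m ((e : ℤ), -l))) ≤
      ∑ l ∈ S, ∑ e ∈ range (m * D), dig (X (mon m ((e : ℤ), -l))) := by
  obtain ⟨k, hk⟩ := Int.eq_ofNat_of_zero_le hb.le
  obtain ⟨C, hC⟩ := h.gain hD hc hk hr hn
  obtain ⟨s, hs⟩ := (S.image Prod.fst).bddBelow
  obtain ⟨u, hu⟩ := (S.image Prod.fst).bddAbove
  obtain ⟨M, hM⟩ : ∃ M : ℕ, u - s < M := exists_nat_gt _
  have hS : S ⊆ Box μ s (2 * k * M) := fun l hl => by
    have h1 := hs (mem_coe.2 (mem_image_of_mem _ hl))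
    have h2 := hu (mem_coe.2 (mem_image_of_mem _ hl))
    refine mem_Box.2 ⟨h1, ?_⟩
    push_cast
    nlinarith [Int.natCast_nonneg M]
  let T : ℕ → (GR m (ℤ × μ) →+ Tc) → GR m (ℤ × μ) →+ Tc := fun N W =>
    ∑ i ∈ range N, W.comp (AddMonoidHom.mulLeft (mon m (0, i • (2 * M) • b)))
  have h1 : ∀ N W e l, T N W (mon m (e, -l)) =
      ∑ i ∈ range N, W (mon m (e, -(l - i • (2 * M) • b))) := fun N W e l => by
    simp only [T, AddMonoidHom.finsetSum_apply, AddMonoidHom.comp_apply, AddMonoidHom.coe_mulLeft,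
      ← mon_add, Prod.mk_add_mk, zero_add, neg_sub, ← sub_eq_add_neg]
  have h2 : ∀ N W, (∀ f, (2 ^ D - 1) • W f = 0) → ∀ f, (2 ^ D - 1) • T N W f = 0 := fun N W h f => by
    rw [AddMonoidHom.finsetSum_apply, smul_sum]
    exact sum_eq_zero fun i _ => h _
  have h3 : ∀ N W, (∀ e l, l ∉ S → W (mon m (e, -l)) = 0) →
      ∑ l ∈ Box μ s (2 * k * (M * N)), ∑ e ∈ range (m * D), dig (T N W (mon m ((e : ℤ), -l))) =
        N * ∑ l ∈ S, ∑ e ∈ range (m * D), dig (W (mon m ((e : ℤ), -l))) := fun N W h => by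
    rw [sum_comm, sum_comm (s := S), mul_sum, ← mul_assoc]
    refine sum_congr rfl fun e _ => ?_
    simp only [h1]
    rw [loc_sum (w := fun l => W (mon m (e, -l))) (by simp [hk]; ring)
      fun l hl => h _ l fun h' => hl (hS h'), sum_subset hS fun l _ hl => by rw [h _ l hl, dig_zero]]
  refine not_lt.1 fun hl => ?_
  obtain ⟨N, hN⟩ := exists_nat_gt (C / (_ - _))
  rw [div_lt_iff₀ (sub_pos.2 hl), mul_sub, ← h3 N X hXS, ← h3 N Y hYS, ← sum_sub_distrib] at hN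
  simp only [← sum_sub_distrib] at hN
  refine hN.not_ge (hC _ _ (Vd.sum _ fun i _ => hv.shift _) (h2 N X hX) (h2 N Y hY)
    (fun e l hl => ?_) s _)
  refine (h1 N Y e l).trans (sum_eq_zero fun i _ => h0 _ _ ?_)
  rw [← mul_smul, sub_eq_add_neg, ← natCast_zsmul, ← neg_smul, hr.zsmul (by simpa using hc.ne')]
  exact mul_neg_of_pos_of_neg (Even.zpow_pos ⟨-(i * M), by push_cast; ring⟩
    (neg_ne_zero.2 hc.ne')) hl

end Pool.Agent.GD
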