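import Pool.Agent.Lib.MP_a01f70_lc.GD.Defs

namespace Pool.Agent.GD
open Finset Pool.Agent.GK

/-- the elements with a power in `D` -/
def n1_sat {G : Type} [CommGroup G] (D : Subgroup G) : Subgroup G where
  carrier := {x | ∃ n : ℕ, 0 < n ∧ x ^ n ∈ D}
  one_mem' := ⟨1, one_pos, by simp⟩
  inv_mem' := fun ⟨n, hn, h⟩ => ⟨n, hn, by rw [inv_pow]; exact D.inv_mem h⟩
  mul_mem' := fun {a b} ⟨n, hn, h⟩ ⟨m, hm, h'⟩ => ⟨n * m, Nat.mul_pos hn hm, by
    rw [mul_pow, pow_mul, mul_comm n m, pow_mul]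
    exact D.mul_mem (D.pow_mem h m) (D.pow_mem h' n)⟩

theorem n1_fin {K : Type} [Field K] [NumberField K] {ι : Type} [Fintype ι] (g : ι → Kˣ) :
    {v : Kˣ | ∃ (n : ℕ) (b : ι → ℕ), 0 < n ∧ (∀ i, b i ≤ n) ∧ v ^ n = ∏ i, g i ^ b i}.Finite := by
  classical
  choose q p hp e using fun i => IsFractionRing.div_surjective (A := NumberField.RingOfIntegers K) (g i : K)
  have hp0 : ∀ i, (p i : K) ≠ 0 := fun i h =>
    nonZeroDivisors.ne_zero (hp i) (NumberField.RingOfIntegers.coe_eq_zero_iff.1 h)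
  have hq : ∀ i, (p i : K) * (g i : K) = q i := fun i => by
    rw [← e i]
    exact mul_div_cancel₀ _ (hp0 i)
  obtain ⟨M, hM⟩ := (Set.finite_range fun t : (K →+* ℂ) × ι =>
    max ‖t.1 (p t.2 : K)‖ ‖t.1 (q t.2 : K)‖).bddAbove
  have hM1 : ∀ (φ : K →+* ℂ) i, ‖φ (p i : K)‖ ≤ M := fun φ i =>
    (le_max_left _ _).trans (hM ⟨(φ, i), rfl⟩)
  have hM2 : ∀ (φ : K →+* ℂ) i, ‖φ (q i : K)‖ ≤ M := fun φ i =>
    (le_max_right _ _).trans (hM ⟨(φ, i), rfl⟩)
  have hP : (∏ i, (p i : K)) ≠ 0 := prod_ne_zero_iff.2 fun i _ => hp0 i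
  have hinj : Function.Injective fun v : Kˣ => (∏ i, (p i : K)) * (v : K) := fun v w h =>
    Units.ext (mul_left_cancel₀ hP h)
  refine ((NumberField.Embeddings.finite_of_norm_le K ℂ (∏ _i : ι, M)).preimage
    hinj.injOn).subset ?_
  rintro v ⟨n, b, hn, hb, hv⟩
  have hw : ((∏ i, (p i : K)) * (v : K)) ^ n = ∏ i, ((p i : K) ^ (n - b i) * (q i : K) ^ b i) := by
    have h1 : (v : K) ^ n = ∏ i, (g i : K) ^ b i := by
      simpa using congrArg Units.val hv
    rw [mul_pow, h1, ← prod_pow, ← prod_mul_distrib]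
    refine prod_congr rfl fun i _ => ?_
    rw [← hq i, mul_pow, ← mul_assoc, ← pow_add, Nat.sub_add_cancel (hb i)]
  refine ⟨IsIntegral.of_pow hn ?_, fun φ => ?_⟩
  · rw [hw]
    exact IsIntegral.prod _ fun i _ => ((p i).isIntegral_coe.pow _).mul ((q i).isIntegral_coe.pow _)
  · refine le_of_pow_le_pow_left₀ hn.ne'
      (prod_nonneg fun i _ => (norm_nonneg _).trans (hM1 φ i)) ?_
    rw [← norm_pow, ← map_pow, hw, map_prod, norm_prod, ← prod_pow]
    refine prod_le_prod (fun i _ => norm_nonneg _) fun i _ => ?_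
    have h0 : 0 ≤ M := (norm_nonneg _).trans (hM1 φ i)
    rw [map_mul, map_pow, map_pow, norm_mul, norm_pow, norm_pow]
    calc ‖φ (p i : K)‖ ^ (n - b i) * ‖φ (q i : K)‖ ^ b i ≤ M ^ (n - b i) * M ^ b i :=
          mul_le_mul (pow_le_pow_left₀ (norm_nonneg _) (hM1 φ i) _)
            (pow_le_pow_left₀ (norm_nonneg _) (hM2 φ i) _) (by positivity) (by positivity)
      _ = M ^ n := by rw [← pow_add, Nat.sub_add_cancel (hb i)]

theorem n1_fg {K : Type} [Field K] [NumberField K] {ι : Type} [Fintype ι] (g : ι → Kˣ) :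
    (n1_sat (Subgroup.closure (Set.range g))).FG := by
  refine (Subgroup.fg_iff _).2 ⟨_, le_antisymm ?_ ?_, (Set.finite_range g).union (n1_fin g)⟩
  · rw [Subgroup.closure_le]
    rintro v (hv | ⟨n, b, hn, -, hv⟩)
    · exact ⟨1, one_pos, by rw [pow_one]; exact Subgroup.subset_closure hv⟩
    · exact ⟨n, hn, by
        rw [hv]
        exact prod_mem fun i _ => pow_mem (Subgroup.subset_closure (Set.mem_range_self i)) _⟩
  · rintro x ⟨n, hn, hx⟩
    obtain ⟨c, hc⟩ := Subgroup.mem_closure_range_iff_of_fintype.1 hx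
    have hn' : (0 : ℤ) < n := Int.natCast_pos.2 hn
    have e : x = (x / ∏ i, g i ^ (c i / n)) * ∏ i, g i ^ (c i / n) := (div_mul_cancel _ _).symm
    rw [e]
    refine mul_mem (Subgroup.subset_closure (Or.inr ⟨n, fun i => (c i % n).toNat, hn, fun i => ?_, ?_⟩))
      (prod_mem fun i _ => zpow_mem
        (Subgroup.subset_closure (Set.mem_union_left _ (Set.mem_range_self i))) _)
    · exact Int.toNat_le.2 (Int.emod_lt_of_pos _ hn').le
    · rw [div_pow, hc, ← prod_pow, ← prod_div_distrib]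
      refine prod_congr rfl fun i _ => ?_
      rw [← zpow_natCast, ← zpow_natCast, ← zpow_mul, div_eq_mul_inv, ← zpow_sub,
        Int.toNat_of_nonneg (Int.emod_nonneg _ hn'.ne'), Int.emod_def, mul_comm]

/-- the saturation of a finitely generated group of units of a number field -/
theorem sat_fg {K : Type} [Field K] [NumberField K] {k : ℕ} (g : Fin k → Kˣ) :
    ∃ S : Subgroup Kˣ, S.FG ∧ (∀ i, g i ∈ S) ∧ -1 ∈ S ∧
      ∀ (x : Kˣ) (n : ℕ), 0 < n → x ^ n ∈ S → x ∈ S := by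
  refine ⟨_, n1_fg g, fun i => ⟨1, one_pos, ?_⟩, ⟨2, two_pos, ?_⟩, ?_⟩
  · rw [pow_one]
    exact Subgroup.subset_closure ⟨i, rfl⟩
  · rw [neg_one_sq]
    exact one_mem _
  · rintro x n hn ⟨m, hm, h⟩
    exact ⟨n * m, Nat.mul_pos hn hm, by rwa [pow_mul]⟩

end Pool.Agent.GD
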