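import Pool.Agent.Lib.MP_a01f70_lc.GD.Defs

namespace Pool.Agent.GD
open Finset Pool.Agent.GK

/-- `Ideal.mem_iInf_smul_pow_eq_bot_iff` for the ideal `(2)` and the finite `ℤ`-module `Additive (M ⧸ Δ)` -/
theorem krull_two {M : Type} [CommGroup M] [Group.FG M] (Δ : Subgroup M) {a : M} (h2 : a ^ 2 ∈ Δ)
    (h : ∀ s : ℕ, ∃ δ ∈ Δ, ∃ y : M, a = δ * y ^ 2 ^ s) : a ∈ Δ := by
  have : Module.Finite ℤ (Additive (M ⧸ Δ)) := Module.Finite.iff_addGroup_fg.2 inferInstance
  have h1 : Additive.ofMul (a : M ⧸ Δ) ∈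
      (⨅ i : ℕ, (Ideal.span {(2 : ℤ)}) ^ i • ⊤ : Submodule ℤ (Additive (M ⧸ Δ))) := by
    refine (Submodule.mem_iInf _).2 fun s => ?_
    obtain ⟨δ, hδ, y, rfl⟩ := h s
    have h3 : Additive.ofMul ((δ * y ^ 2 ^ s : M) : M ⧸ Δ) =
        ((2 : ℤ) ^ s) • Additive.ofMul (y : M ⧸ Δ) := by
      rw [QuotientGroup.mk_mul, (QuotientGroup.eq_one_iff δ).2 hδ, one_mul, QuotientGroup.mk_pow,
        ofMul_pow, ← natCast_zsmul]
      simp
    rw [h3]
    exact Submodule.smul_mem_smul (Ideal.pow_mem_pow (Ideal.mem_span_singleton_self _) _) trivial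
  obtain ⟨⟨r, hr⟩, h3⟩ := (Ideal.mem_iInf_smul_pow_eq_bot_iff _ _).1 h1
  obtain ⟨c, rfl⟩ := Ideal.mem_span_singleton'.1 hr
  have h4 : (2 : ℤ) • Additive.ofMul (a : M ⧸ Δ) = 0 := by
    have h5 := (QuotientGroup.eq_one_iff _).2 h2
    rw [QuotientGroup.mk_pow] at h5
    rw [two_zsmul, ← ofMul_mul, ← sq, h5, ofMul_one]
  rw [mul_smul, h4, smul_zero] at h3
  exact (QuotientGroup.eq_one_iff a).1 (Additive.ofMul.injective h3.symm)

/-- The first projection is injective on `H`, so the last coordinate is a homomorphism on the image; compose with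
`ZMod.toAddCircle` and extend to `Fin k → ZMod q` (`Module.Baer.of_divisible`, `extension_property_addMonoidHom`); the
values on the basis vectors are killed by `q`, so they are of the form `-γ i / q`. -/
theorem dual_last {k q : ℕ} [NeZero q] (H : AddSubgroup ((Fin k → ZMod q) × ZMod q))
    (h : ∀ x ∈ H, x.1 = 0 → x.2 = 0) :
    ∃ γ : Fin k → ℤ, ∀ x ∈ H, x.2 + ∑ i, (γ i : ZMod q) * x.1 i = 0 := by
  classical
  let f : H →+ (Fin k → ZMod q) := (AddMonoidHom.fst _ _).comp H.subtype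
  have hf : Function.Injective f := (injective_iff_map_eq_zero f).2 fun x hx =>
    Subtype.ext (Prod.ext hx (h x.1 x.2 hx))
  obtain ⟨g, hg⟩ := (Module.Baer.of_divisible UnitAddCircle).extension_property_addMonoidHom f hf
    (ZMod.toAddCircle.comp ((AddMonoidHom.snd _ _).comp H.subtype))
  have hq : (q : ℝ) ≠ 0 := Nat.cast_ne_zero.2 (NeZero.ne q)
  have h1 : ∀ i, ∃ a : ℤ, g (Pi.single i 1) = ZMod.toAddCircle (a : ZMod q) := fun i => by
    have h2 : q • g (Pi.single i 1) = 0 := by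
      rw [← map_nsmul, ← Pi.single_smul, nsmul_one, ZMod.natCast_self, Pi.single_zero, map_zero]
    obtain ⟨t, ht⟩ := QuotientAddGroup.mk_surjective (g (Pi.single i 1))
    rw [← ht, ← AddCircle.coe_nsmul, AddCircle.coe_eq_zero_iff] at h2
    obtain ⟨a, ha⟩ := h2
    refine ⟨a, ?_⟩
    rw [ZMod.toAddCircle_intCast, ← ht]
    congr 1
    rw [eq_div_iff hq]
    simpa [mul_comm] using ha.symm
  choose a ha using h1
  refine ⟨fun i => -a i, fun x hx => ?_⟩
  have h2 : g x.1 = ZMod.toAddCircle x.2 := DFunLike.congr_fun hg ⟨x, hx⟩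
  have h3 : x.1 = ∑ i, (x.1 i).val • Pi.single i (1 : ZMod q) := by
    conv_lhs => rw [← Finset.univ_sum_single x.1]
    refine sum_congr rfl fun i _ => ?_
    rw [← Pi.single_smul, nsmul_one, ZMod.natCast_zmod_val]
  rw [h3, map_sum] at h2
  simp only [map_nsmul, ha] at h2
  simp only [← map_nsmul, ← map_sum, ZMod.toAddCircle_inj] at h2
  rw [← h2, ← sum_add_distrib]
  exact sum_eq_zero fun i _ => by simp [mul_comm]

end Pool.Agent.GD
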