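import Pool.Agent.Lib.MP_a01f70_lc.GD.Defs

namespace Pool.Agent.GD
open Finset Pool.Agent.GK

theorem n3_pow {t : ℕ} (ht : 2 ≤ t) {u : ℤ} (hu : Odd u) (n : ℕ) :
    ∃ u' : ℤ, Odd u' ∧ (1 + 2 ^ t * u) ^ 2 ^ n = 1 + 2 ^ (t + n) * u' := by
  obtain ⟨t, rfl⟩ := Nat.exists_eq_add_of_le' ht
  induction n with
  | zero => exact ⟨u, hu, pow_one _⟩
  | succ n ih =>
    obtain ⟨w, hw, e⟩ := ih
    exact ⟨w + 2 * (2 ^ (t + n) * w ^ 2), hw.add_even (even_two_mul _), by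
      rw [pow_succ 2 n, pow_mul, e]; ring⟩

theorem n3_gen {t : ℕ} (ht : 2 ≤ t) {u : ℤ} (hu : Odd u) (n : ℕ) (v : ℤ) :
    ∃ j : ℕ, (1 + 2 ^ t * u) ^ j ≡ 1 + 2 ^ t * v [ZMOD 2 ^ (t + n)] := by
  induction n with
  | zero => exact ⟨0, Int.modEq_iff_dvd.2 ⟨v, by ring⟩⟩
  | succ n ih =>
    obtain ⟨j, h⟩ := ih
    obtain ⟨w, e⟩ := h.symm.dvd
    obtain ⟨_, ⟨r, rfl⟩, e'⟩ := n3_pow ht hu n
    obtain ⟨t, rfl⟩ := Nat.exists_eq_add_of_le' ht
    obtain ⟨w, rfl⟩ | ⟨w, rfl⟩ := Int.even_or_odd w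
    · exact ⟨j, .symm (Int.modEq_iff_dvd.2 ⟨w, by rw [e]; ring⟩)⟩
    · exact ⟨j + 2 ^ n, .symm (Int.modEq_iff_dvd.2 ⟨w + r + 1 + 2 ^ (t + 1) * (2 * r + 1) *
        (v + 2 ^ n * (2 * w + 1)), by rw [pow_add, e', eq_add_of_sub_eq e]; ring⟩)⟩

/-- a root of unity of order a power of two that is inverted by a map fixing `I` is a sign -/
theorem n3_sign {L : Type} [Field L] (g : L →+* L) {I : L} (hI : I ^ 2 = -1) (hg : g I = I) (s : ℕ)
    (w : L) (h : w ^ 2 ^ s = 1) (h' : w * g w = 1) : w ^ 2 = 1 := by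
  induction s generalizing w with
  | zero => rw [← pow_one w, ← pow_zero 2, h, one_pow]
  | succ s ih =>
    obtain e | e := sq_eq_one_iff.1 (ih (w ^ 2) (by rwa [← pow_mul, ← pow_succ'])
      (by rw [map_pow, ← mul_pow, h', one_pow]))
    · exact e
    · obtain rfl | rfl := sq_eq_sq_iff_eq_or_eq_neg.1 (e.trans hI.symm)
      · rwa [hg, ← sq] at h'
      · rwa [map_neg, hg, ← sq] at h'

/-- descend along the quadratic steps from `ζ ^ 2 ^ k` to `ζ ^ 2 ^ (k + 1)` -/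
theorem descent {K L : Type} [Field K] [Field L] [Algebra K L] [FiniteDimensional K L] [IsGalois K L]
    {I : K} (hI : I ^ 2 = -1) {s : ℕ} {ζ : L} (hζ : IsPrimitiveRoot ζ (2 ^ s)) {x : K} {y : L}
    (hy : y ^ 2 ^ s = algebraMap K L x) (hfix : ∀ g : L ≃ₐ[K] L, g ζ = ζ → g y = y) :
    ∃ z : K, z ^ 2 ^ s = x := by
  have H : ∀ k : ℕ, ∃ y : L, y ^ 2 ^ s = algebraMap K L x ∧
      ∀ g : L ≃ₐ[K] L, g (ζ ^ 2 ^ k) = ζ ^ 2 ^ k → g y = y := fun k => by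
    induction k with
    | zero => exact ⟨y, hy, by rwa [pow_zero, pow_one]⟩
    | succ k ih =>
      obtain ⟨y, hy, ih⟩ := ih
      rw [pow_succ 2 k, pow_mul]
      have h0 : (ζ ^ 2 ^ k) ^ 2 ^ s = 1 := by rw [← pow_mul, mul_comm, pow_mul, hζ.1, one_pow]
      generalize ζ ^ 2 ^ k = η at ih h0
      have h1 : ∀ g : L ≃ₐ[K] L, g (η ^ 2) = η ^ 2 → g η = η ∨ g η = -η := fun g hg =>
        sq_eq_sq_iff_eq_or_eq_neg.1 ((map_pow g η 2).symm.trans hg)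
      by_cases h : ∀ g : L ≃ₐ[K] L, g (η ^ 2) = η ^ 2 → g y = y
      · exact ⟨y, hy, h⟩
      push Not at h
      obtain ⟨σ, h2, h3⟩ := h
      have h4 := (h1 σ h2).resolve_left fun e => h3 (ih σ e)
      have y0 : y ≠ 0 := fun e => h3 (by rw [e, map_zero])
      have h5 : σ (σ y) = y := ih (σ * σ) (by rw [AlgEquiv.mul_apply, h4, map_neg, h4, neg_neg])
      have h6 := n3_sign (σ : L →+* L) (I := algebraMap K L I)
        (by rw [← map_pow, hI, map_neg, map_one]) (σ.commutes I) s (σ y / y)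
        (by rw [div_pow, ← map_pow, hy, σ.commutes, ← hy, div_self (pow_ne_zero _ y0)])
        (by rw [RingHom.coe_coe, map_div₀, h5, div_mul_div_cancel₀ y0,
          div_self ((map_ne_zero σ).2 y0)])
      rw [div_pow, div_eq_one_iff_eq (pow_ne_zero _ y0), sq_eq_sq_iff_eq_or_eq_neg] at h6
      refine ⟨y * η, by rw [mul_pow, hy, h0, mul_one], fun g hg => ?_⟩
      obtain e | e := h1 g hg
      · rw [map_mul, e, ih g e]
      · have h7 : σ (g y) = y := ih (σ * g) (by rw [AlgEquiv.mul_apply, e, map_neg, h4, neg_neg])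
        rw [map_mul, e, σ.injective (h7.trans h5.symm), h6.resolve_left h3, neg_mul_neg]
  obtain ⟨y, hy, h⟩ := H s
  obtain ⟨z, rfl⟩ := (IsGalois.mem_range_algebraMap_iff_fixed y).2 fun g =>
    h g (by rw [hζ.1, map_one])
  exact ⟨z, (algebraMap K L).injective (by rw [map_pow, hy])⟩

end Pool.Agent.GD
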