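import Pool.Agent.Lib.MP_a01f70_lc.GD.N1
import Pool.Agent.Lib.MP_a01f70_lc.GD.N2
import Pool.Agent.Lib.MP_a01f70_lc.GD.N3

namespace Pool.Agent.GD
open Finset Pool.Agent.GK

/-- `S j` from `sat_fg (φ j)`, `M = ∀ j, S j`, `Δ` the image of `γ ↦ (∏ i, φ j i ^ γ i)_j`, `krull_two` for `a = -1`. -/
theorem exists_level {K : Type} [Field K] [NumberField K] {J : Type} [Fintype J] {k : ℕ}
    (φ : J → Fin k → Kˣ) (h : ∀ γ : Fin k → ℤ, ∃ j, ∏ i, φ j i ^ γ i ≠ -1) :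
    ∃ s : ℕ, ∀ γ : Fin k → ℤ, ∃ j, ∀ z : K, z ^ 2 ^ s ≠ -((∏ i, φ j i ^ γ i : Kˣ) : K) := by
  by_contra hn
  push Not at hn
  choose S hfg hφ hm hsat using fun j => sat_fg (φ j)
  have : ∀ j, Group.FG (S j) := fun j => (Group.fg_iff_subgroup_fg _).2 (hfg j)
  have hP : ∀ (γ : Fin k → ℤ) j, ∏ i, φ j i ^ γ i ∈ S j := fun γ j =>
    Subgroup.prod_mem _ fun i _ => (S j).zpow_mem (hφ j i) _
  let Δ : Subgroup (∀ j, S j) :=
    { carrier := {m | ∃ γ : Fin k → ℤ, ∀ j, (m j : Kˣ) = ∏ i, φ j i ^ γ i}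
      mul_mem' := by
        rintro a b ⟨γ, ha⟩ ⟨γ', hb⟩
        refine ⟨γ + γ', fun j => ?_⟩
        simp [ha j, hb j, zpow_add, prod_mul_distrib]
      one_mem' := ⟨0, fun j => by simp⟩
      inv_mem' := by
        rintro a ⟨γ, ha⟩
        refine ⟨-γ, fun j => ?_⟩
        simp [ha j] }
  let a : ∀ j, S j := fun j => ⟨-1, hm j⟩
  have ha : a ∈ Δ := by
    refine krull_two Δ ⟨0, fun j => by simp [a]⟩ fun s => ?_
    obtain ⟨γ, hγ⟩ := hn s
    choose z hz using hγ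
    have hz0 : ∀ j, z j ≠ 0 := fun j h0 => by
      have h1 := hz j
      rw [h0, zero_pow (by positivity)] at h1
      exact Units.ne_zero _ (neg_eq_zero.1 h1.symm)
    have hu : ∀ j, Units.mk0 (z j) (hz0 j) ^ 2 ^ s = -1 * ∏ i, φ j i ^ γ i := fun j =>
      Units.ext (by simpa using hz j)
    have huS : ∀ j, Units.mk0 (z j) (hz0 j) ∈ S j := fun j =>
      hsat j _ (2 ^ s) (by positivity) (by rw [hu]; exact (S j).mul_mem (hm j) (hP γ j))
    refine ⟨(fun j => ⟨_, hP γ j⟩)⁻¹, Δ.inv_mem ⟨γ, fun j => rfl⟩, fun j => ⟨_, huS j⟩, ?_⟩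
    funext j
    apply Subtype.ext
    show (-1 : Kˣ) = (∏ i, φ j i ^ γ i)⁻¹ * Units.mk0 (z j) (hz0 j) ^ 2 ^ s
    rw [hu, mul_comm (-1 : Kˣ), inv_mul_cancel_left]
  obtain ⟨γ, hγ⟩ := ha
  obtain ⟨j, hj⟩ := h γ
  exact hj (hγ j).symm

open Polynomial in
/-- a finite Galois extension which contains a root of each of finitely many nonconstant polynomials -/
theorem n4_roots {K : Type} [Field K] [NumberField K] {A : Type} [Fintype A] (p : A → K[X])
    (hp : ∀ a, 0 < (p a).degree) :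
    ∃ (L : Type) (_ : Field L) (_ : Algebra K L) (_ : FiniteDimensional K L) (_ : IsGalois K L),
      ∀ a, ∃ y : L, aeval y (p a) = 0 := by
  have h0 : ∏ a, p a ≠ 0 := prod_ne_zero_iff.2 fun a _ => ne_zero_of_degree_gt (hp a)
  have : Normal K (∏ a, p a).SplittingField := Normal.of_isSplittingField (∏ a, p a)
  refine ⟨(∏ a, p a).SplittingField, inferInstance, inferInstance, inferInstance, {}, fun a => ?_⟩
  have h1 := (SplittingField.splits (∏ a, p a)).of_dvd (Polynomial.map_ne_zero h0)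
    (Polynomial.map_dvd _ (dvd_prod_of_mem p (mem_univ a)))
  obtain ⟨y, hy⟩ := h1.exists_eval_eq_zero (by rw [degree_map]; exact (hp a).ne')
  exact ⟨y, by rwa [eval_map_algebraMap] at hy⟩

open Polynomial in
theorem n4_field {K : Type} [Field K] [NumberField K] {A : Type} [Fintype A] (c : A → K) {q : ℕ}
    (hq : 0 < q) :
    ∃ (L : Type) (_ : Field L) (_ : Algebra K L) (_ : FiniteDimensional K L) (_ : IsGalois K L)
      (ζ : L) (y : A → L), IsPrimitiveRoot ζ q ∧ ∀ a, y a ^ q = algebraMap K L (c a) := by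
  obtain ⟨L, i1, i2, i3, i4, hL⟩ := n4_roots (K := K) (A := Option A)
    (fun o => o.elim (cyclotomic q K) fun a => X ^ q - C (c a)) (by
      rintro (_ | a)
      · exact degree_cyclotomic_pos q K hq
      · show 0 < (X ^ q - C (c a)).degree
        rw [degree_X_pow_sub_C hq]
        exact_mod_cast hq)
  obtain ⟨ζ, hζ⟩ := hL none
  choose y hy using fun a => hL (some a)
  have : CharZero L := charZero_of_injective_algebraMap (algebraMap K L).injective
  refine ⟨L, i1, i2, i3, i4, ζ, y, (isRoot_cyclotomic_iff_charZero hq).1 ?_, fun a => ?_⟩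
  · have h1 : aeval ζ (cyclotomic q K) = 0 := hζ
    rwa [← eval_map_algebraMap, map_cyclotomic] at h1
  · have h1 : aeval (y a) (X ^ q - C (c a)) = 0 := hy a
    simpa [sub_eq_zero] using h1

theorem n4_exp {K L : Type} [Field K] [Field L] [Algebra K L] {q : ℕ} [NeZero q] {ζ y : L} {x : K}
    (hζ : IsPrimitiveRoot ζ q) (hy0 : y ≠ 0) (hy : y ^ q = algebraMap K L x) (g : L ≃ₐ[K] L) :
    ∃ a : ℤ, g y = ζ ^ a * y := by
  have h1 : (g y / y) ^ q = 1 := by
    rw [div_pow, ← map_pow, hy, g.commutes, ← hy, div_self (pow_ne_zero _ hy0)]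
  obtain ⟨i, -, hi⟩ := hζ.eq_pow_of_pow_eq_one h1
  exact ⟨i, by rw [zpow_natCast, hi, div_mul_cancel₀ _ hy0]⟩

theorem n4_act {K L : Type} [Field K] [Field L] [Algebra K L] {q k : ℕ} [NeZero q] {ζ w : L}
    {y : Fin k → L} (hζ : IsPrimitiveRoot ζ q) (hw0 : w ≠ 0) (hy0 : ∀ i, y i ≠ 0) (g : L ≃ₐ[K] L)
    {a : Fin k → ℤ} {b : ℤ} (ha : ∀ i, g (y i) = ζ ^ a i * y i) (hb : g w = ζ ^ b * w)
    (γ : Fin k → ℤ) : g (w * ∏ i, y i ^ γ i) = w * ∏ i, y i ^ γ i ↔
      (b : ZMod q) + ∑ i, (γ i : ZMod q) * (a i : ZMod q) = 0 := by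
  have hζ0 : ζ ≠ 0 := hζ.ne_zero (NeZero.ne q)
  have h0 : w * ∏ i, y i ^ γ i ≠ 0 :=
    mul_ne_zero hw0 (prod_ne_zero_iff.2 fun i _ => zpow_ne_zero _ (hy0 i))
  have h2 : ∀ t : Finset (Fin k), ζ ^ ∑ i ∈ t, γ i * a i = ∏ i ∈ t, (ζ ^ a i) ^ γ i := by
    intro t
    induction t using Finset.induction_on with
    | empty => simp
    | insert i t hi ih => rw [sum_insert hi, prod_insert hi, zpow_add₀ hζ0, ih, mul_comm (γ i), zpow_mul]
  have h1 : g (w * ∏ i, y i ^ γ i) = ζ ^ (b + ∑ i, γ i * a i) * (w * ∏ i, y i ^ γ i) := by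
    rw [map_mul, map_prod, hb, zpow_add₀ hζ0, h2]
    simp only [map_zpow₀, ha, mul_zpow, prod_mul_distrib]
    ring
  rw [h1, mul_eq_right₀ h0, hζ.zpow_eq_one_iff_dvd, ← ZMod.intCast_zmod_eq_zero_iff_dvd]
  push_cast
  rfl

/-- `s` from `exists_level`, `q = 2 ^ s`, `L` the splitting field of `(X ^ q - 1) (X ^ q + 1) ∏ (X ^ q - φ j i)` (normal and
separable, so Galois), `ζ` a primitive root, `y j i`, `w` roots, `w ^ q = -1`. For `g` fixing `ζ` and `y ≠ 0` with `y ^ q` in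
`K`, `g y = ζ ^ κ g y * y` with `κ g y : ZMod q` additive in `g` and in `y`. `H` is the set of all
`(fun i => ∑ j, κ (g j) (y j i), ∑ j, κ (g j) w)`. If `dual_last` applied, `w * ∏ i, y j i ^ γ i` would be fixed by all `g`
fixing `ζ` (take `g` at the place `j` and `1` elsewhere), and `descent` contradicts the choice of `s`. So some family `g`
has first coordinate `0` and last coordinate nonzero. -/
theorem kummer {K : Type} [Field K] [NumberField K] {I : K} (hI : I ^ 2 = -1) {J : Type} [Fintype J]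
    {k : ℕ} (φ : J → Fin k → Kˣ) (h : ∀ γ : Fin k → ℤ, ∃ j, ∏ i, φ j i ^ γ i ≠ -1) :
    ∃ (L : Type) (_ : Field L) (_ : NumberField L) (ι : K →+* L) (s : ℕ) (ζ : L) (g : J → L ≃+* L),
      IsPrimitiveRoot ζ (2 ^ s) ∧ (∀ j, g j ζ = ζ) ∧ (∀ j x, g j (ι x) = ι x) ∧
      ∀ γ : Fin k → ℤ, ∃ j y, y ^ 2 ^ s = -ι ((∏ i, φ j i ^ γ i : Kˣ) : K) ∧ g j y ≠ y := by
  classical
  obtain ⟨s, hs⟩ := exists_level φ h
  have hq : 0 < 2 ^ s := by positivity
  obtain ⟨L, i1, i2, i3, i4, ζ, Y, hζ, hY⟩ := n4_field (K := K) (A := Option (J × Fin k))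
    (fun o => o.elim (-1) fun a => (φ a.1 a.2 : K)) hq
  have hζ0 : ζ ≠ 0 := hζ.ne_zero hq.ne'
  obtain ⟨w, hw⟩ : ∃ w : L, w ^ 2 ^ s = algebraMap K L (-1) := ⟨Y none, hY none⟩
  obtain ⟨y, hy⟩ : ∃ y : J → Fin k → L, ∀ j i, y j i ^ 2 ^ s = algebraMap K L (φ j i) :=
    ⟨fun j i => Y (some (j, i)), fun j i => hY (some (j, i))⟩
  have hne : ∀ (v : L) (x : K), x ≠ 0 → v ^ 2 ^ s = algebraMap K L x → v ≠ 0 := by
    rintro v x hx hv rfl
    rw [zero_pow hq.ne'] at hv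
    exact hx ((map_eq_zero _).1 hv.symm)
  have hw0 : w ≠ 0 := hne w _ (by simp) hw
  have hy0 : ∀ j i, y j i ≠ 0 := fun j i => hne _ _ (Units.ne_zero _) (hy j i)
  have hpow : ∀ (γ : Fin k → ℤ) j, (w * ∏ i, y j i ^ γ i) ^ 2 ^ s =
      algebraMap K L (-((∏ i, φ j i ^ γ i : Kˣ) : K)) := by
    intro γ j
    rw [mul_pow, hw, ← prod_pow]
    simp only [map_neg, map_one, Units.coe_prod, Units.val_zpow_eq_zpow_val, map_prod, map_zpow₀,
      neg_mul, one_mul, neg_inj]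
    refine prod_congr rfl fun i _ => ?_
    rw [← hy, ← zpow_natCast, ← zpow_natCast, ← zpow_mul, ← zpow_mul, mul_comm]
  have hmul : ∀ (g g' : L ≃ₐ[K] L) (v : L) (a a' : ℤ), g ζ = ζ → g v = ζ ^ a * v →
      g' v = ζ ^ a' * v → (g * g') v = ζ ^ (a + a') * v := by
    intro g g' v a a' h1 h2 h3
    rw [AlgEquiv.mul_apply, h3, map_mul, map_zpow₀, h1, h2, zpow_add₀ hζ0]
    ring
  have hinv : ∀ (g : L ≃ₐ[K] L) (v : L) (a : ℤ), g ζ = ζ → g v = ζ ^ a * v →
      g⁻¹ v = ζ ^ (-a) * v := by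
    intro g v a h1 h2
    apply g.injective
    rw [← AlgEquiv.mul_apply, mul_inv_cancel, AlgEquiv.one_apply, map_mul, map_zpow₀, h1, h2,
      ← mul_assoc, ← zpow_add₀ hζ0, neg_add_cancel, zpow_zero, one_mul]
  let H : AddSubgroup ((Fin k → ZMod (2 ^ s)) × ZMod (2 ^ s)) :=
    { carrier := {x | ∃ (g : J → L ≃ₐ[K] L) (a : J → Fin k → ℤ) (b : J → ℤ), (∀ j, g j ζ = ζ) ∧
        (∀ j i, g j (y j i) = ζ ^ a j i * y j i) ∧ (∀ j, g j w = ζ ^ b j * w) ∧
        (∀ i, x.1 i = ∑ j, (a j i : ZMod (2 ^ s))) ∧ x.2 = ∑ j, (b j : ZMod (2 ^ s))}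
      add_mem' := by
        rintro x x' ⟨g, a, b, h1, h2, h3, h4, h5⟩ ⟨g', a', b', h1', h2', h3', h4', h5'⟩
        refine ⟨fun j => g j * g' j, a + a', b + b', fun j => ?_,
          fun j i => hmul _ _ _ _ _ (h1 j) (h2 j i) (h2' j i),
          fun j => hmul _ _ _ _ _ (h1 j) (h3 j) (h3' j), fun i => ?_, ?_⟩
        · rw [AlgEquiv.mul_apply, h1', h1]
        · simp [h4, h4', sum_add_distrib]
        · simp [h5, h5', sum_add_distrib]
      zero_mem' := ⟨fun _ => 1, 0, 0, fun _ => rfl, by simp, by simp, by simp, by simp⟩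
      neg_mem' := by
        rintro x ⟨g, a, b, h1, h2, h3, h4, h5⟩
        refine ⟨fun j => (g j)⁻¹, -a, -b, fun j => ?_, fun j i => hinv _ _ _ (h1 j) (h2 j i),
          fun j => hinv _ _ _ (h1 j) (h3 j), fun i => ?_, ?_⟩
        · apply (g j).injective
          rw [← AlgEquiv.mul_apply, mul_inv_cancel, AlgEquiv.one_apply, h1]
        · simp [h4]
        · simp [h5] }
  by_cases hH : ∀ x ∈ H, x.1 = 0 → x.2 = 0
  · exfalso
    obtain ⟨γ, hγ⟩ := dual_last H hH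
    obtain ⟨j, hj⟩ := hs γ
    obtain ⟨z, hz⟩ := descent hI hζ (hpow γ j) fun g hg => by
      choose a ha using fun i => n4_exp hζ (hy0 j i) (hy j i) g
      obtain ⟨b, hb⟩ := n4_exp hζ hw0 hw g
      rw [n4_act hζ hw0 (hy0 j) g ha hb]
      refine hγ (fun i => (a i : ZMod (2 ^ s)), (b : ZMod (2 ^ s)))
        ⟨fun j' => if j' = j then g else 1, fun j' i => if j' = j then a i else 0,
          fun j' => if j' = j then b else 0, fun j' => ?_, fun j' i => ?_, fun j' => ?_,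
          fun i => ?_, ?_⟩
      · by_cases h1 : j' = j <;> simp [h1, hg]
      · by_cases h1 : j' = j <;> simp [h1, ha]
      · by_cases h1 : j' = j <;> simp [h1, hb]
      · simp
      · simp
    exact hj z hz
  · push Not at hH
    obtain ⟨x, ⟨g, a, b, h1, h2, h3, h4, h5⟩, hx1, hx2⟩ := hH
    refine ⟨L, i1, NumberField.of_module_finite K L, algebraMap K L, s, ζ,
      fun j => (g j).toRingEquiv, hζ, h1, fun j x => (g j).commutes x, fun γ => ?_⟩
    by_contra hn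
    push Not at hn
    have h6 : ∀ j, (b j : ZMod (2 ^ s)) + ∑ i, (γ i : ZMod (2 ^ s)) * (a j i : ZMod (2 ^ s)) = 0 :=
      fun j => (n4_act hζ hw0 (hy0 j) (g j) (h2 j) (h3 j) γ).1
        (hn j _ ((hpow γ j).trans (map_neg _ _)))
    have h7 := sum_eq_zero fun j (_ : j ∈ univ) => h6 j
    rw [sum_add_distrib, sum_comm, ← h5] at h7
    simp only [← mul_sum, ← h4, hx1, Pi.zero_apply, mul_zero, sum_const_zero, add_zero] at h7
    exact hx2 h7

end Pool.Agent.GD
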