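import Pool.Agent.Lib.MP_a01f70_lc.GD.Defs
import Pool.Agent.Lib.MP_33b3f9_ag.M4.NTFrob

namespace Pool.Agent.GD
open Finset Pool.Agent.GK

/-- `hensels_lemma` for `X ^ 2 ^ s - C x` at `1` -/
theorem exists_root {p : ℕ} [Fact p.Prime] (hp : p ≠ 2) (s : ℕ) {x : ℤ_[p]}
    (hx : PadicInt.toZMod x = 1) : ∃ w : ℤ_[p], w ^ 2 ^ s = x := by
  have h2 : ‖((2 : ℕ) : ℤ_[p])‖ = 1 := PadicInt.norm_natCast_eq_one_iff.2
    ((Nat.coprime_primes Fact.out Nat.prime_two).2 hp)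
  have h1 : ‖1 - x‖ < 1 := by
    rw [← PadicInt.mem_nonunits, ← IsLocalRing.mem_maximalIdeal, ← PadicInt.ker_toZMod,
      RingHom.mem_ker, map_sub, map_one, hx, sub_self]
  obtain ⟨w, hw, -⟩ := hensels_lemma (p := p) (R := ℤ_[p]) (F := Polynomial.X ^ 2 ^ s - Polynomial.C x)
    (a := 1) (by
      have h3 : ‖(2 : ℤ_[p])‖ = 1 := by simpa using h2
      simpa [Polynomial.derivative_X_pow, h3] using h1)
  exact ⟨w, by simpa [sub_eq_zero] using hw⟩

theorem n5_int {p : ℕ} [Fact p.Prime] {d : ℤ} (hd : d ≠ 0) (hp : d.natAbs < p) {u : ℚ_[p]}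
    (h : IsIntegral ℤ (d • u)) : ∃ v : ℤ_[p], (v : ℚ_[p]) = u := by
  obtain ⟨v, hv⟩ := (IsIntegrallyClosed.isIntegral_iff (R := ℤ_[p]) (K := ℚ_[p])).1 h.tower_top
  have h1 : ‖(d : ℚ_[p])‖ = 1 := by
    refine le_antisymm (Padic.norm_int_le_one d) (not_lt.1 fun h1 => ?_)
    have h2 := Int.natAbs_dvd_natAbs.2 (Padic.norm_intCast_lt_one_iff.1 h1)
    exact absurd (Nat.le_of_dvd (Int.natAbs_pos.2 hd) h2) (by simpa using hp)
  have h2 : ‖u‖ ≤ 1 := by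
    have h3 : ‖d • u‖ ≤ 1 := hv ▸ v.2
    rwa [zsmul_eq_mul, norm_mul, h1, one_mul] at h3
  exact ⟨⟨u, h2⟩, rfl⟩

theorem n5_inf {G : Set ℕ} (h : M4.NT.Dvg G) : G.Infinite := fun hG =>
  h (summable_of_hasFiniteSupport (hG.subset Set.support_indicator_subset))

/-- `M4.NT.frob` gives infinitely many `p` (a finite set has a summable indicator) with `e : L →+* PadicAlgCl p`. Take
`p > B`, `p > 2` and `p > d`, where `d > 0` is an integer with `d * x` integral for all `x ∈ X`; then `‖e x‖ ≤ 1` and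
`e x ∈ ℚ_[p]` on `X`, hence on the subring, which therefore maps to `ℤ_[p]` and to `ZMod p`. If `ψ x = 1`, `e x = w ^ 2 ^ s`
(`exists_root`), `e y / w` is a power of `e ζ ∈ ℚ_[p]`, so `e y ∈ ℚ_[p]`. -/
theorem exists_prime {L : Type} [Field L] [NumberField L] (g : L ≃+* L) {s : ℕ} {ζ : L}
    (hζ : IsPrimitiveRoot ζ (2 ^ s)) (hg : g ζ = ζ) (X : Set L) (hX : X.Finite)
    (hf : ∀ x ∈ X, g x = x) (B : ℕ) :
    ∃ (p : ℕ) (ψ : Subring.closure X →+* ZMod p), p.Prime ∧ B < p ∧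
      ∀ x, ψ x = 1 → ∀ y : L, y ^ 2 ^ s = x → g y = y := by
  have : Algebra.IsAlgebraic ℤ L := (IsFractionRing.comap_isAlgebraic_iff (K := ℚ)).2 inferInstance
  obtain ⟨d, hd, hdX⟩ := Algebra.IsAlgebraic.exists_integral_multiples ℤ hX.toFinset
  obtain ⟨p, ⟨_, e, he⟩, hp⟩ := (n5_inf (M4.NT.frob L g)).exists_gt (max B (max 2 d.natAbs))
  simp only [max_lt_iff] at hp
  let j : ℤ_[p] →+* PadicAlgCl p := (algebraMap ℚ_[p] (PadicAlgCl p)).comp PadicInt.Coe.ringHom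
  have hj : Function.Injective j :=
    (algebraMap ℚ_[p] (PadicAlgCl p)).injective.comp Subtype.val_injective
  have h1 : Subring.closure X ≤ j.range.comap e := Subring.closure_le.2 fun x hx => by
    obtain ⟨u, hu⟩ := (he x).2 (hf x hx)
    have h2 : IsIntegral ℤ (e (d • x)) := (hdX x (hX.mem_toFinset.2 hx)).map e.toIntAlgHom
    rw [map_zsmul, ← hu, ← map_zsmul] at h2
    have h3 : IsIntegral ℤ (d • u) :=
      (isIntegral_algHom_iff (algebraMap ℚ_[p] (PadicAlgCl p)).toIntAlgHom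
        (algebraMap ℚ_[p] (PadicAlgCl p)).injective).1 h2
    obtain ⟨v, rfl⟩ := n5_int hd hp.2.2 h3
    exact ⟨v, hu⟩
  have h2 : ∀ x : Subring.closure X, ∃ v, j v = e x := fun x => h1 x.2
  choose u hu using h2
  let θ : Subring.closure X →+* ℤ_[p] :=
    ⟨⟨⟨u, hj (by simp [hu])⟩, fun x y => hj (by simp [hu])⟩, hj (by simp [hu]),
      fun x y => hj (by simp [hu])⟩
  refine ⟨p, PadicInt.toZMod.comp θ, Fact.out, hp.1, fun x hx y hy => (he y).1 ?_⟩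
  have hx' : PadicInt.toZMod (u x) = 1 := hx
  obtain ⟨w, hw⟩ := exists_root hp.2.1.ne' s hx'
  have hw0 : j w ≠ 0 := fun h0 => by
    rw [← hw, map_pow, hj (h0.trans (map_zero j).symm), map_zero, zero_pow (by positivity)] at hx'
    exact zero_ne_one hx'
  have h3 : (e y / j w) ^ 2 ^ s = 1 := by
    rw [div_pow, ← map_pow, ← map_pow, hy, hw, hu, div_self]
    rw [← hu, ← hw, map_pow]
    exact pow_ne_zero _ hw0
  obtain ⟨i, -, hi⟩ := (hζ.map_of_injective e.injective).eq_pow_of_pow_eq_one h3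
  obtain ⟨z, hz⟩ := (he ζ).2 hg
  refine ⟨z ^ i * (w : ℚ_[p]), ?_⟩
  rw [map_mul, map_pow, hz, hi]
  exact div_mul_cancel₀ _ hw0

end Pool.Agent.GD
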