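import Pool.Agent.Lib.MP_a01f70_lc.GD.N4
import Pool.Agent.Lib.MP_a01f70_lc.GD.N5

namespace Pool.Agent.GD
open Finset Pool.Agent.GK

theorem n6_crt {J R : Type} [CommRing R] (Z : R → Prop) (Q : J → R → Prop)
    (h : ∀ (j : J) (B : ℕ), ∃ (p : ℕ) (ψ : R →+* ZMod p), p.Prime ∧ B < p ∧
      (∀ x, Z x → ψ x = 0) ∧ ∀ x, ψ x = -1 → Q j x) (T : Finset J) :
    ∃ (P : ℕ) (ψ : R →+* ZMod P), 0 < P ∧ (∀ x, Z x → ψ x = 0) ∧
      ∀ j ∈ T, ∀ x, ψ x = -1 → Q j x := by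
  classical
  induction T using Finset.induction_on with
  | empty =>
    exact ⟨1, ⟨⟨⟨fun _ => 0, Subsingleton.elim _ _⟩, fun _ _ => Subsingleton.elim _ _⟩, rfl,
      fun _ _ => Subsingleton.elim _ _⟩, one_pos, fun _ _ => rfl, by simp⟩
  | insert j T _ ih =>
    obtain ⟨P, ψ, hP, h1, h2⟩ := ih
    obtain ⟨p, χ, hp, hB, h3, h4⟩ := h j P
    let e := ZMod.chineseRemainder
      ((Nat.Prime.coprime_iff_not_dvd hp).2 (Nat.not_dvd_of_pos_of_lt hP hB))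
    refine ⟨p * P, (e.symm : _ →+* _).comp (χ.prod ψ), mul_pos hp.pos hP, fun x hx => ?_,
      fun j' hj x hx => ?_⟩
    · exact (congrArg e.symm (Prod.ext (h3 x hx) (h1 x hx))).trans (map_zero e.symm)
    · have h5 : (χ x, ψ x) = -1 := e.symm.injective (hx.trans (by rw [map_neg, map_one]))
      rcases Finset.mem_insert.1 hj with rfl | hj
      exacts [h4 x (congrArg Prod.fst h5), h2 j' hj x (congrArg Prod.snd h5)]

theorem n6_all {R G : Type} [CommRing R] [AddCommGroup G] {mo : G → R} (h0 : mo 0 = 1)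
    (ha : ∀ a b, mo (a + b) = mo a * mo b) (hc : AddSubgroup.closure (Set.range mo) = ⊤)
    {k : ℕ} {u : Fin k → G} (hu : Submodule.span ℤ (Set.range u) = ⊤) (T : Subring R)
    (hT : ∀ γ ∈ Set.range u ∪ Set.range (-u), mo γ ∈ T) (x : R) : x ∈ T := by
  let A : AddSubgroup G :=
    { carrier := {γ | mo γ ∈ T ∧ mo (-γ) ∈ T}
      zero_mem' := by simp [h0]
      add_mem' := fun {a b} h1 h2 => ⟨ha a b ▸ mul_mem h1.1 h2.1, by
        rw [neg_add, ha]; exact mul_mem h1.2 h2.2⟩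
      neg_mem' := fun {a} h1 => ⟨h1.2, (neg_neg a).symm ▸ h1.1⟩ }
  have h1 : Submodule.span ℤ (Set.range u) ≤ A.toIntSubmodule := Submodule.span_le.2 <| by
    rintro _ ⟨i, rfl⟩
    exact ⟨hT _ (.inl ⟨i, rfl⟩), hT _ (.inr ⟨i, rfl⟩)⟩
  have h2 : AddSubgroup.closure (Set.range mo) ≤ T.toAddSubgroup :=
    (AddSubgroup.closure_le _).2 <| by
      rintro _ ⟨γ, rfl⟩
      exact (h1 (hu ▸ Submodule.mem_top (x := γ))).1
  exact h2 (hc ▸ AddSubgroup.mem_top x)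

/-- Pass to the number field of the values, apply `kummer` and `exists_prime`, glue the primes. -/
theorem reduce {J : Type} [Fintype J] {R G : Type} [CommRing R] [AddCommGroup G] [Module.Finite ℤ G]
    (mo : G → R) (h0 : mo 0 = 1) (ha : ∀ a b, mo (a + b) = mo a * mo b)
    (hc : AddSubgroup.closure (Set.range mo) = ⊤) (Φ : J → R →+* ℂ)
    (halg : ∀ j γ, IsAlgebraic ℚ (Φ j (mo γ))) (h : ∀ γ, ∃ j, Φ j (mo γ) ≠ -1) :
    ∃ (P : ℕ) (ψ : R →+* ZMod P), 0 < P ∧ (∀ x, (∀ j, Φ j x = 0) → ψ x = 0) ∧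
      ∀ γ, ψ (mo γ) ≠ -1 := by
  obtain ⟨k, u, hu⟩ := Module.Finite.exists_fin (R := ℤ) (M := G)
  have hU : (Set.range u ∪ Set.range (-u)).Finite := (Set.finite_range _).union (Set.finite_range _)
  obtain ⟨S, hS⟩ : ∃ S : Set ℂ, S = insert Complex.I
    (⋃ j, (fun γ => Φ j (mo γ)) '' (Set.range u ∪ Set.range (-u))) := ⟨_, rfl⟩
  have : Finite S := hS ▸ (Set.finite_iUnion fun j => hU.image _).insert _
  let K := IntermediateField.adjoin ℚ S
  have : FiniteDimensional ℚ K := IntermediateField.finiteDimensional_adjoin fun x hx => by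
    rw [hS] at hx
    rcases hx with rfl | hx
    · exact Complex.isIntegral_rat_I
    · obtain ⟨j, γ, -, rfl⟩ := Set.mem_iUnion.1 hx
      exact (halg j γ).isIntegral
  have : NumberField K := {}
  have hK : ∀ j x, Φ j x ∈ K := fun j => n6_all h0 ha hc hu (K.toSubfield.toSubring.comap (Φ j))
    fun γ hγ => IntermediateField.subset_adjoin ℚ S
      (hS ▸ .inr (Set.mem_iUnion.2 ⟨j, γ, hγ, rfl⟩))
  let Ψ : J → R →+* K := fun j => (Φ j).codRestrict K (hK j)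
  let μ : Multiplicative G →* R := ⟨⟨fun γ => mo γ.toAdd, h0⟩, fun a b => ha _ _⟩
  let χ : J → Multiplicative G →* Kˣ := fun j => ((Ψ j : R →* K).comp μ).toHomUnits
  have hχ : ∀ j (γ : Fin k → ℤ), ((∏ i, χ j (.ofAdd (u i)) ^ γ i : Kˣ) : K) =
      Ψ j (mo (∑ i, γ i • u i)) := fun j γ => by
    simp only [← map_zpow, ← map_prod, ← ofAdd_zsmul, ← ofAdd_sum]
    rfl
  obtain ⟨L, _, _, ι, s, ζ, g, hζ, hg, hι, hy⟩ := kummer (K := K)
    (I := ⟨Complex.I, IntermediateField.subset_adjoin ℚ S (hS ▸ .inl rfl)⟩)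
    (Subtype.ext Complex.I_sq) (fun j i => χ j (.ofAdd (u i))) fun γ => by
      obtain ⟨j, hj⟩ := h (∑ i, γ i • u i)
      exact ⟨j, fun e => hj (congrArg Subtype.val ((hχ j γ).symm.trans (congrArg Units.val e)))⟩
  obtain ⟨P, ψ, hP, h1, h2⟩ := n6_crt (fun x => ∀ j, Φ j x = 0)
    (fun j x => ∀ y : L, y ^ 2 ^ s = -ι (Ψ j x) → g j y = y) (fun j B => by
      obtain ⟨p, ψ, hp, hB, hψ⟩ := exists_prime (g j) hζ (hg j) _
        (hU.image fun γ => ι (Ψ j (mo γ))) (by rintro _ ⟨γ, -, rfl⟩; exact hι _ _) B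
      have hm := n6_all h0 ha hc hu ((Subring.closure ((fun γ => ι (Ψ j (mo γ))) ''
        (Set.range u ∪ Set.range (-u)))).comap (ι.comp (Ψ j)))
        fun γ hγ => Subring.subset_closure ⟨γ, hγ, rfl⟩
      refine ⟨p, ψ.comp ((ι.comp (Ψ j)).codRestrict _ hm), hp, hB, fun x hx => ?_,
        fun x hx => hψ (-⟨_, hm x⟩) ((map_neg ψ _).trans (neg_eq_iff_eq_neg.2 hx))⟩
      have e : Ψ j x = 0 := Subtype.ext (hx j)
      exact (congrArg ψ (Subtype.ext ((congrArg ι e).trans (map_zero ι)))).trans (map_zero ψ))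
    Finset.univ
  refine ⟨P, ψ, hP, h1, fun γ e => ?_⟩
  obtain ⟨c, rfl⟩ := (Submodule.mem_span_range_iff_exists_fun ℤ).1 (hu ▸ Submodule.mem_top (x := γ))
  obtain ⟨j, y, h3, h4⟩ := hy c
  exact h4 (h2 j (Finset.mem_univ j) _ e y (hχ j c ▸ h3))

end Pool.Agent.GD
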