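import Pool.Agent.Lib.MP_a01f70_lc.GD.Defs
import Pool.Agent.Lib.MP_446a91_nt.Sou.NLog

namespace Pool.Agent.GD
open Finset Pool.Agent.GK

open Filter Topology Real in
theorem n7_polar {x : ℝ} (h0 : 0 < x) (h1 : x < 1) :
    1 - Complex.exp (2 * π * Complex.I * x) ∈ Complex.slitPlane ∧
      (1 - Complex.exp (2 * π * Complex.I * x)).arg = π * x - π / 2 := by
  have hp := Real.pi_pos
  have h2 : 0 < π * x := by positivity
  have h3 : π * x < π := mul_lt_of_lt_one_right hp h1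
  have hs : 0 < 2 * Real.sin (π * x) := mul_pos two_pos (Real.sin_pos_of_pos_of_lt_pi h2 h3)
  have e : 1 - Complex.exp (2 * π * Complex.I * x) = ((2 * Real.sin (π * x) : ℝ) : ℂ) *
      (Complex.cos ((π * x - π / 2 : ℝ) : ℂ) +
        Complex.sin ((π * x - π / 2 : ℝ) : ℂ) * Complex.I) := by
    have e1 : 2 * π * Complex.I * x = ((2 * (π * x) : ℝ) : ℂ) * Complex.I := by
      push_cast
      ring
    rw [e1, Complex.exp_mul_I, ← Complex.ofReal_cos, ← Complex.ofReal_sin, ← Complex.ofReal_cos,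
      ← Complex.ofReal_sin, Real.cos_sub_pi_div_two, Real.sin_sub_pi_div_two, Real.cos_two_mul,
      Real.sin_two_mul, Real.cos_sq']
    push_cast
    ring
  have ha : (1 - Complex.exp (2 * π * Complex.I * x)).arg = π * x - π / 2 := by
    rw [e]
    exact Complex.arg_mul_cos_add_sin_mul_I hs ⟨by linarith, by linarith⟩
  refine ⟨Complex.mem_slitPlane_iff_arg.2 ⟨by rw [ha]; linarith, ?_⟩, ha⟩
  rw [e, ← Complex.exp_mul_I]
  exact mul_ne_zero (Complex.ofReal_ne_zero.2 hs.ne') (Complex.exp_ne_zero _)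

open Real in
theorem n7_arg {f : ℕ} [NeZero f] {b : ZMod f} (hb : b ≠ 0) :
    1 - ZMod.stdAddChar b ∈ Complex.slitPlane ∧
      ((1 - ZMod.stdAddChar b).arg : ℂ) = π * ((b.val : ℂ) / f) - π / 2 := by
  have hf : (0 : ℝ) < f := Nat.cast_pos.2 (NeZero.pos f)
  have h := n7_polar (x := (b.val : ℝ) / f)
    (div_pos (Nat.cast_pos.2 (Nat.pos_of_ne_zero ((ZMod.val_ne_zero b).2 hb))) hf)
    ((div_lt_one hf).2 (Nat.cast_lt.2 (ZMod.val_lt b)))
  have e : ZMod.stdAddChar b = Complex.exp (2 * π * Complex.I * ((b.val : ℝ) / f : ℝ)) := by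
    rw [ZMod.stdAddChar_apply, ZMod.toCircle_apply]
    push_cast
    rw [mul_div_assoc]
  rw [e, h.2]
  exact ⟨h.1, by push_cast; rfl⟩

theorem n7_hasSum {f : ℕ} [NeZero f] {χ : DirichletCharacter ℂ f} (hp : χ.IsPrimitive)
    (ψ : AddChar (ZMod f) ℂ) {r : ℝ} (hr0 : 0 ≤ r) (hr : r < 1) :
    ∑ b : ZMod f, χ b * Complex.log (1 - r * ψ b) =
      -gaussSum χ ψ * ∑' k : ℕ, χ⁻¹ (k : ZMod f) / k * (r : ℂ) ^ k := by
  have hn : ∀ b, ‖(r : ℂ) * ψ b‖ < 1 := by
    intro b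
    rw [norm_mul, AddChar.norm_apply, mul_one, Complex.norm_real, Real.norm_of_nonneg hr0]
    exact hr
  have h1 := hasSum_sum (s := univ) fun b (_ : b ∈ (univ : Finset (ZMod f))) =>
    (Complex.hasSum_taylorSeries_neg_log (hn b)).mul_left (χ b)
  have h2 : ∀ k : ℕ, ∑ b : ZMod f, χ b * (((r : ℂ) * ψ b) ^ k / k) =
      gaussSum χ ψ * (χ⁻¹ (k : ZMod f) / k * (r : ℂ) ^ k) := by
    intro k
    have h3 := gaussSum_mulShift_of_isPrimitive ψ hp (k : ZMod f)
    have h5 : ∀ b : ZMod f, χ b * (((r : ℂ) * ψ b) ^ k / k) =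
        χ b * ψ.mulShift k b * ((r : ℂ) ^ k / k) := by
      intro b
      rw [mul_pow, ← AddChar.map_nsmul_eq_pow, nsmul_eq_mul, AddChar.mulShift_apply]
      ring
    simp only [h5]
    rw [← sum_mul, ← gaussSum, h3]
    ring
  simp only [h2, mul_neg, sum_neg_distrib] at h1
  have h7 := h1.tsum_eq
  rw [tsum_mul_left] at h7
  rw [neg_mul, h7, neg_neg]

theorem n7_gauss {f : ℕ} [NeZero f] {χ : DirichletCharacter ℂ f} (hp : χ.IsPrimitive) :
    gaussSum χ ZMod.stdAddChar ≠ 0 := fun h => by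
  have h1 : ZMod.dft (⇑χ) = 0 := funext fun k => by
    rw [hp.fourierTransform_eq_inv_mul_gaussSum, h, mul_zero, Pi.zero_apply]
  have h2 := congrFun (ZMod.dft.map_eq_zero_iff.1 h1) 1
  rw [map_one] at h2
  exact one_ne_zero h2

open Filter Topology in
theorem n7_log {f : ℕ} [NeZero f] {χ : DirichletCharacter ℂ f} (hp : χ.IsPrimitive)
    (hχ : χ ≠ 1) : ∑ b : ZMod f, χ b * Complex.log (1 - ZMod.stdAddChar b) ≠ 0 := by
  have h0 : χ 0 = 0 := χ.map_zero' (hχ ∘ DirichletCharacter.level_one' _)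
  have hc : ContinuousAt
      (fun r : ℝ => ∑ b : ZMod f, χ b * Complex.log (1 - r * ZMod.stdAddChar b)) 1 := by
    refine tendsto_finsetSum _ fun b _ => ?_
    by_cases hb : b = 0
    · simp only [hb, h0, zero_mul]
      exact tendsto_const_nhds
    · have h3 : ContinuousAt (fun r : ℝ => 1 - (r : ℂ) * ZMod.stdAddChar b) 1 := by fun_prop
      exact (h3.clog (by simpa using (n7_arg hb).1)).const_mul (χ b)
  have h4 := (Pool.Agent.Lib.MP_446a91_nt.Sou.nlog_abel f χ⁻¹ (inv_ne_one.2 hχ)).const_mul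
    (-gaussSum χ ZMod.stdAddChar)
  have h5 : Tendsto (fun r : ℝ => ∑ b : ZMod f, χ b * Complex.log (1 - r * ZMod.stdAddChar b))
      (𝓝[<] 1) (𝓝 (-gaussSum χ ZMod.stdAddChar * (χ⁻¹).LFunction 1)) := by
    refine h4.congr' ?_
    filter_upwards [Ioo_mem_nhdsLT (zero_lt_one (α := ℝ))] with r hr
    exact (n7_hasSum hp _ hr.1.le hr.2).symm
  have h6 := tendsto_nhds_unique (hc.tendsto.mono_left nhdsWithin_le_nhds) h5
  simp only [Complex.ofReal_one, one_mul] at h6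
  rw [h6]
  exact mul_ne_zero (neg_ne_zero.2 (n7_gauss hp))
    (DirichletCharacter.LFunction_apply_one_ne_zero (inv_ne_one.2 hχ))

/-- Compare `Lib/MP_446a91_nt/Sou/NLog` (even characters, prime modulus). With `ψ = ZMod.stdAddChar`, `τ = gaussSum χ ψ`:
`∑ b, χ b ψ (k b) = χ⁻¹ k τ` (`gaussSum_mulShift_of_isPrimitive`), `τ ≠ 0` (`IsPrimitive.fourierTransform_eq_inv_mul_gaussSum`,
`ZMod.dft` is injective). `τ ∑ χ⁻¹ k r ^ k / k = -∑ b, χ b log (1 - r ψ b)` (`Complex.hasSum_taylorSeries_neg_log`); `r → 1`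
(`nlog_abel`, `LFunction_apply_one_ne_zero`, continuity of `log` on the slit plane; `χ 0 = 0`). For `0 < x < 1`,
`1 - e(x) = 2 sin (π x) exp (i π (x - 1/2))`, so `log (1 - ψ b) - log (1 - ψ (-b)) = 2 π i (b / f - 1 / 2)`; use `b ↦ -b` and
`∑ χ b = 0`. -/
theorem bern_ne_zero {f : ℕ} [NeZero f] {χ : DirichletCharacter ℂ f} (hp : χ.IsPrimitive)
    (ho : χ.Odd) : ∑ a : ZMod f, χ a * ((a.val : ℂ) / f) ≠ 0 := by
  have hχ : χ ≠ 1 := fun h => DirichletCharacter.Odd.not_even χ ho (by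
    rw [h]
    exact MulChar.one_apply isUnit_one.neg)
  have h0 : χ 0 = 0 := χ.map_zero' (hχ ∘ DirichletCharacter.level_one' _)
  intro hs
  have h1 : ∑ b : ZMod f, χ b * (Real.log ‖1 - ZMod.stdAddChar b‖ : ℂ) = 0 := by
    have h2 := Equiv.sum_comp (Equiv.neg (ZMod f))
      fun b => χ b * (Real.log ‖1 - ZMod.stdAddChar b‖ : ℂ)
    have h3 : ∀ b : ZMod f, ‖1 - ZMod.stdAddChar (-b)‖ = ‖1 - ZMod.stdAddChar b‖ := fun b => by
      rw [AddChar.map_neg_eq_conj, ← Complex.norm_conj (1 - ZMod.stdAddChar b), map_sub, map_one]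
    simp only [Equiv.neg_apply, ho.eval_neg, h3, neg_mul, sum_neg_distrib] at h2
    linear_combination (-1 / 2 : ℂ) * h2
  have h4 : ∀ b : ZMod f, χ b * Complex.log (1 - ZMod.stdAddChar b) =
      χ b * (Real.log ‖1 - ZMod.stdAddChar b‖ : ℂ) +
        (χ b * ((b.val : ℂ) / f) * (Real.pi * Complex.I) -
          χ b * (Real.pi / 2 * Complex.I)) := fun b => by
    by_cases hb : b = 0
    · simp only [hb, h0, zero_mul, sub_self, add_zero]
    · rw [Complex.log, (n7_arg hb).2]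
      ring
  refine n7_log hp hχ ?_
  simp only [h4]
  rw [sum_add_distrib, sum_sub_distrib, ← sum_mul, ← sum_mul, h1, hs,
    MulChar.sum_eq_zero_of_ne_one hχ, zero_mul, zero_mul, sub_self, add_zero]

/-- `dig x = 2 fr x - fr (2 x)` (`two_fr`, `fr_cc`), `2` is a unit, reindex by `a ↦ 2 a` -/
theorem sum_dig_ne_zero {f : ℕ} [NeZero f] {χ : DirichletCharacter ℂ f} (hp : χ.IsPrimitive)
    (ho : χ.Odd) (h2 : χ 2 = 1) : ∑ a : ZMod f, χ a * (dig (cc f a) : ℝ) ≠ 0 := by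
  have hu : IsUnit (2 : ZMod f) := by
    by_contra h
    rw [MulChar.map_nonunit χ h] at h2
    exact zero_ne_one h2
  have h1 : ∀ a : ZMod f, χ a * (dig (cc f a) : ℝ) =
      2 * (χ a * ((a.val : ℂ) / f)) - χ (2 * a) * (((2 * a).val : ℂ) / f) := fun a => by
    rw [← two_fr, ← map_nsmul, fr_cc (NeZero.ne f), fr_cc (NeZero.ne f), map_mul, h2, two_nsmul,
      two_mul a]
    push_cast
    ring
  have h3 := Equiv.sum_comp hu.unit.mulLeft fun b : ZMod f => χ b * ((b.val : ℂ) / f)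
  simp only [Units.mulLeft_apply, IsUnit.unit_spec] at h3
  simp only [h1]
  rw [sum_sub_distrib, ← mul_sum, h3, two_mul, add_sub_cancel_right]
  exact bern_ne_zero hp ho

end Pool.Agent.GD
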