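import Pool.Agent.Lib.MP_a01f70_lc.GD.Defs

namespace Pool.Agent.GD
open Finset Pool.Agent.GK

/-- a character of `(ZMod P)ˣ ⧸ Γ` that is nontrivial at `-1` (`CommGroup.exists_apply_ne_one_of_hasEnoughRootsOfUnity`),
`MulChar.ofUnitHom`, `DirichletCharacter.primitiveCharacter` -/
theorem exists_dirichlet {P : ℕ} [NeZero P] (Γ : Subgroup (ZMod P)ˣ) (h : -1 ∉ Γ) :
    ∃ (f : ℕ) (_ : NeZero f) (hf : f ∣ P) (χ : DirichletCharacter ℂ f), χ.IsPrimitive ∧ χ.Odd ∧
      ∀ u ∈ Γ, χ (ZMod.castHom hf (ZMod f) (u : ZMod P)) = 1 := by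
  have h1 := mt (CommGroup.forall_monoidHom_apply_eq_one_iff ℂ Γ (-1)).1 h
  push Not at h1
  obtain ⟨φ, h2, h3⟩ := h1
  let χ : DirichletCharacter ℂ P := MulChar.ofUnitHom φ
  have h4 : ∀ u : (ZMod P)ˣ, χ.primitiveCharacter
      (ZMod.castHom χ.conductor_dvd_level (ZMod χ.conductor) (u : ZMod P)) = φ u := fun u => by
    rw [ZMod.castHom_apply, ← DirichletCharacter.changeLevel_eq_cast_of_dvd _ χ.conductor_dvd_level,
      DirichletCharacter.changeLevel_primitiveCharacter]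
    exact MulChar.ofUnitHom_coe φ u
  refine ⟨χ.conductor, ⟨χ.conductor_ne_zero⟩, χ.conductor_dvd_level, χ.primitiveCharacter,
    χ.primitiveCharacter_isPrimitive, ?_, fun u hu => by rw [h4, h2 u hu, Units.val_one]⟩
  refine χ.primitiveCharacter.even_or_odd.resolve_left fun he => h3 (Units.ext ?_)
  rw [← h4, Units.val_neg, Units.val_one, map_neg, map_one]
  exact he

end Pool.Agent.GD
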