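import Pool.Agent.Lib.MP_a01f70_lc.GD.Cv
import Pool.Agent.Lib.MP_a01f70_lc.GK.DDb

namespace Pool.Agent.GD
open Finset Pool.Agent.GK

variable {m : ℕ} {Λ : Type} [AddCommGroup Λ]

theorem up_aux (S : Subring ℝ) (T : Subfield ℝ) (h : ∀ x : S, S.subtype x ∈ T) (x : S) :
    ((S.subtype.codRestrict T h x : T) : ℝ) = (x : ℝ) := rfl

theorem coe_ok (x : O m) : ((ok m x : KK m) : ℝ) = (x : ℝ) := by
  unfold ok
  exact up_aux _ _ _ x

theorem ok_injective : Function.Injective (ok m) := fun x y h =>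
  Subtype.ext (by rw [← coe_ok x, ← coe_ok y, h])

theorem coe_tk (e : ℤ) : ((tk m e : KK m) : ℝ) = tr m e := coe_ok _

theorem tk_ne_zero (e : ℤ) : tk m e ≠ 0 := fun h => (tr_pos (m := m) e).ne' (by
  rw [← coe_tk, h, ZeroMemClass.coe_zero])

theorem up_single (l : Λ) (x : O m) : up (AddMonoidAlgebra.single l x) = sg l (ok m x) :=
  AddMonoidAlgebra.mapRingHom_single _ _ _

theorem up_mon (γ : ℤ × Λ) : up (mon m γ) = sg γ.2 (tk m γ.1) := up_single _ _

theorem up_coeff (f : GR m Λ) (l : Λ) : (up f).coeff l = ok m (f.coeff l) :=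
  AddMonoidAlgebra.coeff_mapRingHom _ _ _

theorem cf_up (f : GR m Λ) (l : Λ) : cf (up f) l = (f.coeff l : ℝ) := by
  rw [cf, up_coeff, coe_ok]

theorem up_injective : Function.Injective (up : GR m Λ → AL (KK m) Λ) := fun f g h =>
  AddMonoidAlgebra.coeff_injective (Finsupp.ext fun l => ok_injective (by
    rw [← up_coeff, ← up_coeff, h]))

theorem up_Pb (i : ℤ) (b : Λ) : up (1 + mon m (i, b)) = Pb (tk m i) b := by
  rw [map_add, map_one, up_mon, Pb]

theorem exists_up {ξ : AL (KK m) Λ} (h : ∀ l, ∃ x : O m, ok m x = ξ.coeff l) : ∃ p, up p = ξ := by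
  choose x hx using h
  refine ⟨AddMonoidAlgebra.ofCoeff (Finsupp.onFinset ξ.coeff.support x fun l hl =>
    Finsupp.mem_support_iff.2 fun h0 => hl (ok_injective ?_)), ?_⟩
  · rw [hx, h0, map_zero]
  · exact AddMonoidAlgebra.coeff_injective (Finsupp.ext fun l => by
      rw [up_coeff]
      exact hx l)

/-- `mem_KK`, `exists_odd_mul` -/
theorem exists_odd_ok [NeZero m] (c : KK m) : ∃ (q : ℕ) (x : O m), Odd q ∧ ok m x = q * c := by
  obtain ⟨p, q, hq, h⟩ := mem_KK.1 c.2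
  obtain ⟨y, a, ha, hy⟩ := exists_odd_mul hq
  have hq' : (q : ℝ) ≠ 0 := fun e => hq (Subtype.ext e)
  refine ⟨a, p * y, ha, Subtype.ext ?_⟩
  have h1 : (q : ℝ) * y = a := by simpa using congrArg Subtype.val hy
  rw [coe_ok]
  push_cast
  rw [← h1, h]
  field_simp

/-- clearing denominators -/
theorem exists_odd_up [NeZero m] (ξ : AL (KK m) Λ) : ∃ (q : ℕ) (p : GR m Λ), Odd q ∧ up p = q * ξ := by
  induction ξ using AddMonoidAlgebra.induction_linear with
  | zero => exact ⟨1, 0, odd_one, by simp⟩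
  | add f g hf hg =>
    obtain ⟨q, p, hq, h⟩ := hf
    obtain ⟨q', p', hq', h'⟩ := hg
    refine ⟨q * q', q' * p + q * p', hq.mul hq', ?_⟩
    rw [map_add, map_mul, map_mul, map_natCast, map_natCast, h, h']
    push_cast
    ring
  | single l c =>
    obtain ⟨q, x, hq, h⟩ := exists_odd_ok c
    refine ⟨q, AddMonoidAlgebra.single l x, hq, ?_⟩
    rw [up_single, h, ← nsmul_eq_mul, ← nsmul_eq_mul, AddMonoidAlgebra.smul_single]

theorem Vd.symm {S : Type} [AddCommGroup S] {A B : GR m Λ} {X Y : GR m Λ →+ S} (h : Vd A B X Y) :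
    Vd B A Y X := fun η ξ e => (h ξ η e.symm).symm

theorem Vd.add {S : Type} [AddCommGroup S] {A B : GR m Λ} {X Y X' Y' : GR m Λ →+ S}
    (h : Vd A B X Y) (h' : Vd A B X' Y') : Vd A B (X + X') (Y + Y') :=
  fun η ξ e => by rw [AddMonoidHom.add_apply, AddMonoidHom.add_apply, h η ξ e, h' η ξ e]

theorem Vd.sum {S ι : Type} [AddCommGroup S] {A B : GR m Λ} (s : Finset ι) {X Y : ι → GR m Λ →+ S}
    (h : ∀ i ∈ s, Vd A B (X i) (Y i)) : Vd A B (∑ i ∈ s, X i) (∑ i ∈ s, Y i) := fun η ξ e => by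
  rw [AddMonoidHom.finsetSum_apply, AddMonoidHom.finsetSum_apply]
  exact sum_congr rfl fun i hi => h i hi η ξ e

theorem Vd.shift {S : Type} [AddCommGroup S] {A B : GR m Λ} {X Y : GR m Λ →+ S} (h : Vd A B X Y)
    (u : GR m Λ) : Vd A B (X.comp (AddMonoidHom.mulLeft u)) (Y.comp (AddMonoidHom.mulLeft u)) :=
  fun η ξ e => h (u * η) (u * ξ) (by rw [mul_assoc, e, mul_assoc])

theorem vd_mul {S : Type} [AddCommGroup S] {A B p q : GR m Λ} (hA : A ∈ nonZeroDivisors (GR m Λ))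
    (h : A * p = B * q) (Z : GR m Λ →+ S) :
    Vd A B (Z.comp (AddMonoidHom.mulRight q)) (Z.comp (AddMonoidHom.mulRight p)) := fun η ξ e =>
  congrArg Z (show η * p = ξ * q from (mul_cancel_left_mem_nonZeroDivisors hA).1 (by
    linear_combination η * h + q * e))

/-- as `Valid.exists_char` in `GK/DDb` -/
theorem Vd.exists_char {A B : GR m Λ} {X Y : GR m Λ →+ Tc} (h : Vd A B X Y) :
    ∃ Z : GR m Λ →+ Tc, (∀ f, Z (f * A) = X f) ∧ ∀ f, Z (f * B) = Y f := by
  let φ : GR m Λ × GR m Λ →+ GR m Λ := (AddMonoidHom.mulRight A).coprod (AddMonoidHom.mulRight B)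
  have hker : φ.ker ≤ (X.coprod Y).ker := by
    rintro ⟨f, g⟩ hfg
    have h1 : f * A + g * B = 0 := hfg
    have h2 := h g (-f) (by linear_combination h1)
    change X f + Y g = 0
    rw [h2, map_neg, add_neg_cancel]
  obtain ⟨Z, hZ⟩ := (Module.Baer.of_divisible Tc).extension_property_addMonoidHom
    (M := (GR m Λ × GR m Λ) ⧸ φ.ker) (N := GR m Λ) (QuotientAddGroup.kerLift φ)
    (QuotientAddGroup.kerLift_injective φ) (QuotientAddGroup.lift φ.ker (X.coprod Y) hker)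
  have key : ∀ f g, Z (f * A + g * B) = X f + Y g := fun f g =>
    DFunLike.congr_fun hZ (QuotientAddGroup.mk (f, g))
  refine ⟨Z, fun f => ?_, fun f => ?_⟩
  · simpa using key f 0
  · simpa using key 0 f

/-- a real pair as a pair of additive maps (`exists_fun` composed with `up`) -/
theorem RV.vd {A B : GR m Λ} {x y : Λ → ℝ} (h : RV (up A) (up B) x y) :
    ∃ X Y : GR m Λ →+ ℝ, Vd A B X Y ∧ (∀ e l, X (mon m (e, -l)) = tr m e * x l) ∧
      ∀ e l, Y (mon m (e, -l)) = tr m e * y l := by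
  obtain ⟨z, rfl, rfl⟩ := h
  obtain ⟨Z, hZ⟩ := exists_fun (K := KK m) z
  have key : ∀ (C : GR m Λ) (e : ℤ) (l : Λ),
      Z (up (mon m (e, -l) * C)) = tr m e * cv (up C) z l := fun C e l => by
    have h1 : sg (-l) (tk m e) = sg 0 (tk m e) * sg (-l) 1 := by rw [sg_mul, zero_add, mul_one]
    rw [map_mul, up_mon, h1, mul_right_comm, hZ, cv_mul, cv_sg, sub_zero, coe_tk]
  refine ⟨(Z.toAddMonoidHom.comp up.toAddMonoidHom).comp (AddMonoidHom.mulRight A),
    (Z.toAddMonoidHom.comp up.toAddMonoidHom).comp (AddMonoidHom.mulRight B),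
    fun η ξ e => congrArg (fun f => Z (up f)) e, key A, key B⟩

end Pool.Agent.GD
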