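import Pool.Agent.Lib.MP_a01f70_lc.GD.N7
import Pool.Agent.Lib.MP_a01f70_lc.GD.Up
import Pool.Agent.Lib.MP_a01f70_lc.GD.Bx

namespace Pool.Agent.GD
open Finset Pool.Agent.GK

variable {m : ℕ} [NeZero m] {μ : Type} [AddCommGroup μ] [Fintype μ]

theorem n8_avg {f : ℕ} [NeZero f] (w d : ZMod f → ℝ) (hw : ∀ a, 0 ≤ w a) {ι : Type} (s : Finset ι)
    (u : ι → ZMod f) (hu : ∀ i, IsUnit (u i)) (hwu : ∀ i a, w (a * u i) = w a) {c : ℝ}
    (h : ∀ a, ∑ i ∈ s, d (a * u i) ≤ c) : #s * ∑ a, w a * d a ≤ (∑ a, w a) * c := by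
  have h1 : ∀ i, ∑ a, w a * d (a * u i) = ∑ a, w a * d a := fun i => by
    obtain ⟨v, hv⟩ := hu i
    rw [← Equiv.sum_comp (Units.mulRight v) fun a => w a * d a]
    exact sum_congr rfl fun a _ => by rw [Units.mulRight_apply, hv, hwu]
  calc #s * ∑ a, w a * d a = ∑ i ∈ s, ∑ a, w a * d (a * u i) := by
        simp only [h1, sum_const, nsmul_eq_mul]
    _ = ∑ a, w a * ∑ i ∈ s, d (a * u i) := by
        rw [sum_comm]
        simp only [mul_sum]
    _ ≤ ∑ a, w a * c := sum_le_sum fun a _ => mul_le_mul_of_nonneg_left (h a) (hw a)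
    _ = _ := (sum_mul _ _ _).symm

theorem n8_dig {x : Tc} (h1 : x ≠ 0) (h2 : 2 • x ≠ 0) : dig x + dig (-x) = 1 := by
  rw [← two_fr, ← two_fr, smul_neg, fr_neg h1, fr_neg h2]
  ring

theorem n8_sdig (x : Tc) : sdig x 0 = dig x := by
  unfold sdig
  split_ifs with h h'
  · exact absurd h' (lt_irrefl _)
  · rw [h, dig_zero]
  · rfl

theorem n8_le {a b : ℝ} (h : ∀ T : ℕ, T * a ≤ b) : a ≤ 0 := by
  by_contra hn
  obtain ⟨T, hT⟩ := exists_nat_gt (b / a)
  exact (h T).not_gt ((div_lt_iff₀ (not_le.1 hn)).1 hT)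

theorem n8_odd {f : ℕ} [NeZero f] (h2 : IsUnit (2 : ZMod f)) (g : ZMod f → ℂ)
    (hg : ∀ a, g (-a) = -g a) : ∑ a, (‖g a‖ + (g a).re) * dig (cc f a) =
      (∑ a, (‖g a‖ + (g a).re)) / 2 + (∑ a, g a * (dig (cc f a) : ℝ)).re := by
  have h0 : g 0 = 0 := self_eq_neg.1 ((congrArg g neg_zero).symm.trans (hg 0))
  have h1 : ∑ a, (g a).re = 0 := by
    have := Equiv.sum_comp (Equiv.neg (ZMod f)) fun a => (g a).re
    simp only [Equiv.neg_apply, hg, Complex.neg_re, sum_neg_distrib] at this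
    linarith
  have h3 : ∑ a, ‖g a‖ * dig (cc f a) + ∑ a, ‖g a‖ * dig (cc f a) = ∑ a, ‖g a‖ := by
    nth_rewrite 2 [← Equiv.sum_comp (Equiv.neg (ZMod f))]
    rw [← sum_add_distrib]
    refine sum_congr rfl fun a _ => ?_
    by_cases ha : a = 0
    · simp [ha, h0]
    rw [Equiv.neg_apply, hg, norm_neg, ← mul_add, map_neg, n8_dig, mul_one]
    · exact fun e => ha ((cc_eq_zero (NeZero.ne f)).1 e)
    · rw [← map_nsmul, two_nsmul, ← two_mul]
      exact fun e => ha (h2.mul_right_eq_zero.1 ((cc_eq_zero (NeZero.ne f)).1 e))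
  simp only [add_mul, sum_add_distrib, Complex.re_sum, Complex.re_mul_ofReal, h1]
  linarith

/-- an odd primitive character that is trivial on the monomials contradicts the criterion -/
theorem TLt.not_char {A B : GR m (ℤ × μ)} (h : TLt A B) {f : ℕ} [NeZero f]
    (ψ : GR m (ℤ × μ) →+* ZMod f) (hψ : ∀ η ξ, η * B = ξ * A → ψ η = 0)
    {χ : DirichletCharacter ℂ f} (hp : χ.IsPrimitive) (ho : χ.Odd) (h1 : ∀ γ, χ (ψ (mon m γ)) = 1) :
    False := by
  have c2 : χ 2 = 1 := by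
    have := h1 ((m : ℤ), 0)
    rwa [mon_sig, map_ofNat] at this
  have hu : ∀ a, χ a = 1 → IsUnit a := fun a ha => by_contra fun hn => by
    rw [χ.map_nonunit hn] at ha
    exact zero_ne_one ha
  obtain ⟨D, hD, hD1⟩ : ∃ D : ℕ, 0 < D ∧ (2 : ZMod f) ^ D = 1 :=
    isOfFinOrder_iff_pow_eq_one.1 (hu 2 c2).isOfFinOrder
  obtain ⟨C₁, hC⟩ := h
  set S : ℂ := ∑ a : ZMod f, χ a * (dig (cc f a) : ℝ) with hS
  let g : ZMod f → ℂ := fun a => (starRingEnd ℂ) S * χ a
  have hg : ∀ a, g (-a) = -g a := fun a => by simp only [g, ho.eval_neg, mul_neg]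
  have h2 := n8_odd (hu 2 c2) g hg
  have h3 : (∑ a, g a * (dig (cc f a) : ℝ)).re = ‖S‖ ^ 2 := by
    simp only [g, mul_assoc]
    rw [← mul_sum, ← hS, Complex.conj_mul']
    norm_cast
  have h4 : ∀ T : ℕ, T * ((m * D * Fintype.card μ : ℕ) * ‖S‖ ^ 2) ≤
      (∑ a, (‖g a‖ + (g a).re)) * (C₁ * D) := fun T => by
    have h5 := n8_avg (fun a => ‖g a‖ + (g a).re) (fun a => dig (cc f a))
      (fun a => by linarith [Complex.abs_re_le_norm (g a), neg_abs_le (g a).re])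
      (Box μ 0 T ×ˢ range (m * D)) (fun p => ψ (mon m ((p.2 : ℤ), -p.1))) (fun p => hu _ (h1 _))
      (fun p a => by simp only [g, map_mul, h1, mul_one])
      (c := m * D * (T * Fintype.card μ) / 2 + C₁ * D) fun a => by
        have h6 := hC D hD 0 ((cc f).comp ((AddMonoidHom.mulLeft a).comp (ψ : _ →+ ZMod f)))
          (fun η ξ e => by simp [hψ η ξ e]) (fun _ => by simp) (fun η => by
            rw [AddMonoidHom.comp_apply, ← map_nsmul, nsmul_eq_mul,
              Nat.cast_sub Nat.one_le_two_pow]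
            simp [hD1]) 0 0 (RV.zero _ _) 0 T
        rw [sum_product]
        simpa [n8_sdig, dig_zero] using h6
    rw [h2, h3, card_product, card_Box, card_range] at h5
    push_cast at h5 ⊢
    linarith
  have h5 := n8_le h4
  have h6 : (0 : ℝ) < (m * D * Fintype.card μ : ℕ) := by
    exact_mod_cast mul_pos (mul_pos (NeZero.pos m) hD) Fintype.card_pos
  exact (mul_pos h6 (pow_pos (norm_pos_iff.2 (sum_dig_ne_zero hp ho c2)) 2)).not_ge h5

end Pool.Agent.GD
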