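import Pool.Agent.Lib.MP_a01f70_lc.GD.N6
import Pool.Agent.Lib.MP_a01f70_lc.GD.N7a
import Pool.Agent.Lib.MP_a01f70_lc.GD.N8
import Pool.Agent.Lib.MP_a01f70_lc.GK.PG

namespace Pool.Agent.GD
open Finset Pool.Agent.GK

variable {m : ℕ} [NeZero m] {μ : Type} [AddCommGroup μ] [Fintype μ]

section
variable {K : Subfield ℝ} {Λ : Type} [AddCommGroup Λ]

/-- the values of a point at the monomials, as units -/
noncomputable def n9u (φ : AL K Λ →+* ℂ) : Multiplicative Λ →* ℂˣ :=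
  ((φ : AL K Λ →* ℂ).comp (AddMonoidAlgebra.of K Λ)).toHomUnits

theorem n9_sg {φ : AL K Λ →+* ℂ} (hφ : Pt φ) (l : Λ) (c : K) :
    φ (sg l c) = ((c : ℝ) : ℂ) * (n9u φ (Multiplicative.ofAdd l) : ℂ) := by
  have e : sg l c = sg 0 c * sg l 1 := by rw [sg_mul, zero_add, mul_one]
  rw [e, map_mul, hφ]
  rfl

end

omit [Fintype μ] in
theorem n9_split {K : Subfield ℝ} (φ : AL K (ℤ × μ) →+* ℂ) (l : ℤ × μ) :
    n9u φ (Multiplicative.ofAdd l) =
      n9u φ (Multiplicative.ofAdd (1, 0)) ^ l.1 * n9u φ (Multiplicative.ofAdd (0, l.2)) := by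
  rw [← map_zpow, ← map_mul, ← ofAdd_zsmul, ← ofAdd_add]
  simp

theorem n9_unity {K : Subfield ℝ} (φ : AL K (ℤ × μ) →+* ℂ) (g : μ) :
    (n9u φ (Multiplicative.ofAdd (0, g)) : ℂ) ^ Fintype.card μ = 1 := by
  rw [← Units.val_pow_eq_pow_val, ← map_pow, ← ofAdd_nsmul, Prod.smul_mk, smul_zero,
    card_nsmul_eq_zero, Prod.mk_zero_zero, ofAdd_zero, map_one, Units.val_one]

omit [NeZero m] [Fintype μ] in
theorem n9_ev {φ : AL (KK m) (ℤ × μ) →+* ℂ} (hφ : Pt φ) (a : GR m ℤ) :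
    φ (up (spec m (AddMonoidHom.inl ℤ μ) a)) = evC m (n9u φ (Multiplicative.ofAdd (1, 0))) a := by
  refine AddMonoidAlgebra.induction_linear a ?_ (fun x y hx hy => ?_) fun l r => ?_
  · simp only [map_zero]
  · simp only [map_add, hx, hy]
  · rw [spec_single, up_single, n9_sg hφ, coe_ok, evC_single, n9_split, AddMonoidHom.inl_apply,
      Prod.mk_zero_zero, ofAdd_zero, map_one, mul_one]

omit [NeZero m] [Fintype μ] in
theorem n9_root {A B C : GR m (ℤ × μ)} {a : GR m ℤ} (e : A * C = spec m (AddMonoidHom.inl ℤ μ) a)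
    {φ : AL (KK m) (ℤ × μ) →+* ℂ} (hφ : Pt φ) (h : ∀ η ∈ Den (up A) (up B), φ η = 0) :
    evC m (n9u φ (Multiplicative.ofAdd (1, 0))) a = 0 := by
  rw [← n9_ev hφ, ← e]
  refine h _ (mem_Den.2 ?_)
  rw [map_mul, mul_assoc]
  exact dvd_mul_right _ _

theorem n9_abs {J : Type} [Finite J] {R G : Type} [CommRing R] [AddCommGroup G] [Module.Finite ℤ G]
    (mo : G → R) (h0 : mo 0 = 1) (ha : ∀ a b, mo (a + b) = mo a * mo b)
    (hc : AddSubgroup.closure (Set.range mo) = ⊤) (Φ : J → R →+* ℂ)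
    (halg : ∀ j γ, IsAlgebraic ℚ (Φ j (mo γ))) (h : ∀ γ, ∃ j, Φ j (mo γ) ≠ -1) :
    ∃ (f : ℕ) (_ : NeZero f) (ψ : R →+* ZMod f) (χ : DirichletCharacter ℂ f), χ.IsPrimitive ∧ χ.Odd ∧
      (∀ x, (∀ j, Φ j x = 0) → ψ x = 0) ∧ ∀ γ, χ (ψ (mo γ)) = 1 := by
  have := Fintype.ofFinite J
  obtain ⟨P, ψ, hP, h1, h2⟩ := reduce mo h0 ha hc Φ halg h
  have : NeZero P := ⟨hP.ne'⟩
  have hn : ∀ γ, ψ (mo γ) * ψ (mo (-γ)) = 1 := fun γ => by
    rw [← map_mul, ← ha, add_neg_cancel, h0, map_one]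
  obtain ⟨f, _, hf, χ, hp, ho, h3⟩ := exists_dirichlet (P := P)
    { carrier := {u | ∃ γ, (u : ZMod P) = ψ (mo γ)}
      one_mem' := ⟨0, by rw [h0, map_one, Units.val_one]⟩
      mul_mem' := fun ⟨γ, e⟩ ⟨γ', e'⟩ => ⟨γ + γ', by rw [ha, map_mul, Units.val_mul, e, e']⟩
      inv_mem' := fun ⟨γ, e⟩ => ⟨-γ, Units.inv_eq_of_mul_eq_one_right (by rw [e, hn])⟩ }
    fun ⟨γ, e⟩ => h2 γ (by rw [← e, Units.val_neg, Units.val_one])
  exact ⟨f, inferInstance, (ZMod.castHom hf (ZMod f)).comp ψ, χ, hp, ho,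
    fun x hx => by rw [RingHom.comp_apply, h1 x hx, map_zero],
    fun γ => h3 (Units.mkOfMulEqOne _ _ (hn γ)) ⟨γ, rfl⟩⟩

/-- `A C = spec m inl a`, `up (spec m inl a) ∈ Den`; `ρ = φ [(1, 0)]` is a root: `φ (up (spec m inl a)) = evC m ρ a`;
`alg_root`, `alg_mon`; the `φ [(0, g)]` are roots of unity. -/
theorem pole_alg {A B : GR m (ℤ × μ)} (hA : NZ A) {φ : AL (KK m) (ℤ × μ) →+* ℂ} (hφ : Pt φ)
    (h : ∀ η ∈ Den (up A) (up B), φ η = 0) (γ : ℤ × (ℤ × μ)) : IsAlgebraic ℚ (φ (up (mon m γ))) := by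
  obtain ⟨C, a, ha, e⟩ := hA
  have h1 := alg_root ha _ (n9_root e hφ h)
  have h2 : IsAlgebraic ℚ (n9u φ (Multiplicative.ofAdd (0, γ.2.2)) : ℂ) :=
    IsAlgebraic.of_pow Fintype.card_pos (by rw [n9_unity]; exact isAlgebraic_one)
  rw [up_mon, n9_sg hφ, coe_tk, n9_split, Units.val_mul, Units.val_zpow_eq_zpow_val,
    ← mem_algebraicClosure_iff]
  exact mul_mem (pg_tr _) (mul_mem (zpow_mem (mem_algebraicClosure_iff.2 h1) _)
    (mem_algebraicClosure_iff.2 h2))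

/-- `φ` is determined by `ρ` and the roots of unity `φ [(0, g)]`; `ρ` is a root of a fixed nonzero polynomial
(`exists_pl`, `evC_pl`) -/
theorem pole_finite {A B : GR m (ℤ × μ)} (hA : NZ A) :
    {φ : AL (KK m) (ℤ × μ) →+* ℂ | Pt φ ∧ ∀ η ∈ Den (up A) (up B), φ η = 0}.Finite := by
  obtain ⟨C, a, ha, e⟩ := hA
  obtain ⟨j, a', ha', rfl⟩ := exists_pl ha
  have h0 : rl a' ≠ 0 := fun h => ha' (by
    have h1 := rl_coeff a' 0
    rw [h, Polynomial.coeff_zero] at h1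
    exact Subtype.ext h1.symm)
  refine Set.Finite.of_injOn (f := fun φ : AL (KK m) (ℤ × μ) →+* ℂ =>
      ((n9u φ (Multiplicative.ofAdd (1, 0)) : ℂ),
        fun g : μ => (n9u φ (Multiplicative.ofAdd (0, g)) : ℂ)))
    (t := (rl a').rootSet ℂ ×ˢ Set.univ.pi fun _ : μ =>
      ((Polynomial.nthRoots (Fintype.card μ) (1 : ℂ)).toFinset : Set ℂ)) (fun φ hφ => ⟨?_, ?_⟩)
    (fun φ hφ φ' hφ' e' => ?_)
    (((rl a').rootSet_finite ℂ).prod (Set.Finite.pi fun _ => Finset.finite_toSet _))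
  · have h1 := n9_root e hφ.1 hφ.2
    rw [map_mul, ((isUnit_mon (0, j)).map (evC m _)).mul_right_eq_zero, evC_pl] at h1
    exact Polynomial.mem_rootSet.2 ⟨h0, h1⟩
  · intro g _
    rw [mem_coe, Multiset.mem_toFinset, Polynomial.mem_nthRoots Fintype.card_pos]
    exact n9_unity φ g
  · have e1 := Units.ext (congrArg Prod.fst e')
    have e2 := fun g => Units.ext (congrFun (congrArg Prod.snd e') g)
    refine RingHom.ext fun x => AddMonoidAlgebra.induction_linear x ?_ (fun x y hx hy => ?_)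
      fun l c => ?_
    · simp only [map_zero]
    · simp only [map_add, hx, hy]
    · rw [n9_sg hφ.1, n9_sg hφ'.1, n9_split φ, n9_split φ', e1, e2]

/-- otherwise `reduce` (`mo = mon m`, `GR_induction`), `exists_dirichlet` for the image of the monomials,
`TLt.not_char` -/
theorem exists_beta {A B : GR m (ℤ × μ)} (h : TLt A B) (hA : NZ A) :
    ∃ γ : ℤ × (ℤ × μ), ∀ φ : AL (KK m) (ℤ × μ) →+* ℂ, Pt φ →
      (∀ η ∈ Den (up A) (up B), φ η = 0) → φ (Pb (tk m γ.1) γ.2) = 0 := by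
  by_contra hc
  have hf : Finite {φ : AL (KK m) (ℤ × μ) →+* ℂ // Pt φ ∧ ∀ η ∈ Den (up A) (up B), φ η = 0} :=
    (pole_finite (B := B) hA).to_subtype
  have h1 : AddSubgroup.closure (Set.range (mon m : ℤ × (ℤ × μ) → GR m (ℤ × μ))) = ⊤ :=
    eq_top_iff.2 fun x _ => GR_induction (p := fun x => x ∈ AddSubgroup.closure
      (Set.range (mon m : ℤ × (ℤ × μ) → GR m (ℤ × μ)))) (zero_mem _)
      (fun γ => AddSubgroup.subset_closure ⟨γ, rfl⟩) (fun _ _ => add_mem) (fun _ => neg_mem) x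
  obtain ⟨f, _, ψ, χ, hp, ho, h2, h3⟩ := n9_abs (mon m : ℤ × (ℤ × μ) → GR m (ℤ × μ)) mon_zero mon_add
    h1 (fun j : {φ : AL (KK m) (ℤ × μ) →+* ℂ // Pt φ ∧ ∀ η ∈ Den (up A) (up B), φ η = 0} =>
      j.1.comp up) (fun j γ => by
      rw [RingHom.comp_apply]
      exact pole_alg hA j.2.1 j.2.2 γ) (fun γ => by
      by_contra hn
      refine hc ⟨γ, fun φ h4 h5 => ?_⟩
      have e : φ (up (mon m γ)) = -1 := by
        by_contra e
        exact hn ⟨⟨φ, h4, h5⟩, by rwa [RingHom.comp_apply]⟩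
      rw [Pb, map_add, map_one, ← up_mon, e, add_neg_cancel])
  refine h.not_char ψ (fun η ξ e => h2 η fun j => ?_) hp ho h3
  rw [RingHom.comp_apply]
  refine j.2.2 _ (mem_Den.2 ?_)
  rw [← map_mul, e, map_mul]
  exact dvd_mul_left _ _

end Pool.Agent.GD
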