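import Pool.Agent.Lib.MP_a01f70_lc.GD.Defs

namespace Pool.Agent.GD
open Finset Pool.Agent.GK

/-- Negative sum: `w = 1`. Sum zero: take `w` with `(f * w) g ≠ 0` for all `g`
(`Module.Dual.exists_forall_ne_zero_of_forall_exists`), replace it by `-w` if necessary (the order is odd) and add a
constant. -/
theorem odd_lemma {G : Type} [AddCommGroup G] [Fintype G] (hG : Odd (Fintype.card G)) {f : G → ℝ}
    (h0 : f ≠ 0) (h : ∑ g, f g ≤ 0) : ∃ w : G → ℝ, (∀ g, 0 ≤ w g) ∧
      Fintype.card G < 2 * #{g | ∑ g', f (g - g') * w g' < 0} := by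
  classical
  obtain ⟨a, ha⟩ := Function.ne_iff.1 h0
  obtain ⟨w, hw⟩ := Module.Dual.exists_forall_ne_zero_of_forall_exists (K := ℝ) (M := G → ℝ)
    (fun g => ∑ g', f (g - g') • LinearMap.proj g') fun g =>
      ⟨Pi.single (g - a) 1, by simpa [Pi.single_apply] using ha⟩
  simp only [LinearMap.sum_apply, LinearMap.smul_apply, LinearMap.proj_apply, smul_eq_mul] at hw
  obtain ⟨w, hw⟩ : ∃ w : G → ℝ, Fintype.card G < 2 * #{g | ∑ g', f (g - g') * w g' < 0} := by
    by_contra! h1
    have h2 := h1 (-w)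
    have h3 := card_filter_add_card_filter_not (s := univ) fun g => ∑ g', f (g - g') * w g' < 0
    simp only [Pi.neg_apply, mul_neg, sum_neg_distrib, neg_lt_zero] at h2
    simp only [not_lt, (hw _).symm.le_iff_lt, card_univ] at h3
    have := h1 w
    obtain ⟨k, hk⟩ := hG
    omega
  obtain ⟨C, hC⟩ := (Set.finite_range w).bddBelow
  refine ⟨fun g => w g - min C 0, fun g => sub_nonneg.2 ((min_le_left _ _).trans (hC ⟨g, rfl⟩)),
    hw.trans_le (Nat.mul_le_mul_left 2 (card_le_card fun g hg => ?_))⟩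
  simp only [mem_filter, mem_univ, true_and, mul_sub, sum_sub_distrib, ← sum_mul] at hg ⊢
  rw [Fintype.sum_equiv (Equiv.subLeft g) (fun x => f (g - x)) f fun _ => rfl]
  nlinarith [min_le_right C 0]

theorem odd_one {G : Type} [Fintype G] {w : G → ℝ} (a : G) (h : ∀ g, g ≠ a → 0 ≤ w g) :
    #{g | w g < 0} ≤ 1 :=
  (card_le_card fun g hg => mem_singleton.2
    (by_contra fun e => (h g e).not_gt (mem_filter.1 hg).2)).trans_eq (card_singleton a)

/-- `d = b - a`, `d ≠ -d`, `p = f a`, `q = f b`; `w 0 = -1`, `w (-d) = 9 p / (10 q)`, `w d = 9 q / (10 p)`, `0` elsewhere: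
the convolution is negative at `a` and `b`. -/
theorem not_two {G : Type} [AddCommGroup G] [Fintype G] (hG : Odd (Fintype.card G)) {f : G → ℝ}
    (h : ∀ w : G → ℝ, 0 < ∑ g, w g → #{g | ∑ g', f (g - g') * w g' < 0} ≤ #{g | w g < 0})
    {a b : G} (hab : a ≠ b) (ha : 0 < f a) (hb : 0 < f b) (h0 : ∀ g, g ≠ a → g ≠ b → f g = 0) :
    False := by
  classical
  obtain ⟨d, rfl⟩ : ∃ d, b = a + d := ⟨b - a, by abel⟩
  have h1 : d ≠ 0 := fun e => hab (by rw [e, add_zero])
  have h2 : d + d ≠ 0 := fun e => h1 (by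
    obtain ⟨k, hk⟩ := hG
    rw [← card_nsmul_eq_zero (x := d), hk, succ_nsmul, mul_nsmul, two_nsmul, e, smul_zero, zero_add])
  have h3 : f (a - d) = 0 := h0 _ (by simpa using h1) fun e => h2 (by
    rw [← add_right_inj a, ← add_assoc, ← e, sub_add_cancel, add_zero])
  have h4 : f (a + d + d) = 0 := h0 _ (by simpa [add_assoc] using h2) (by simpa using h1)
  have h5 := h (Pi.single 0 (-1) + Pi.single (-d) (f a / f (a + d) * (9 / 10)) +
    Pi.single d (f (a + d) / f a * (9 / 10))) (by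
      have := two_mul_le_add_sq (f a) (f (a + d))
      simp only [Pi.add_apply, sum_add_distrib, sum_pi_single', mem_univ, if_true]
      field_simp
      nlinarith [mul_pos ha hb])
  refine (h5.trans (odd_one 0 fun g hg => ?_)).not_gt (one_lt_card.2 ⟨a, ?_, a + d, ?_, hab⟩)
  · simp only [Pi.add_apply, Pi.single_eq_of_ne hg, Pi.single_apply]
    positivity
  all_goals
    simp only [mem_filter, mem_univ, true_and, Pi.add_apply, mul_add, sum_add_distrib, Pi.single_apply,
      mul_ite, mul_zero, sum_ite_eq', if_true, sub_zero, sub_neg_eq_add, add_sub_cancel_right, h3, h4]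
    field_simp
    nlinarith

/-- `w = Pi.single 0 1` gives `f ≥ 0`. Let `S` be the support, `s = |S|`, `n = |G|`. For `d ≠ 0`, `w = -[0] + 2 [d]` gives
`|S \\ (S + d)| ≤ 1`; the sum over `d` of these numbers is `s (n - s)`, so `s (n - s) ≤ n - 1`, `s ≤ 1` or `s ≥ n - 1`.
With `h2` for `w = -[0]` (`2 s ≤ n + 2`, `n` odd) only `n = 3`, `s = 2` is left: `not_two`. -/
theorem at_most_one {G : Type} [AddCommGroup G] [Fintype G] (hG : Odd (Fintype.card G)) {f : G → ℝ}
    (h : ∀ w : G → ℝ, 0 < ∑ g, w g → #{g | ∑ g', f (g - g') * w g' < 0} ≤ #{g | w g < 0})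
    (h2 : ∀ w : G → ℝ, 2 * #{g | ∑ g', f (g - g') * w g' < 0} ≤ Fintype.card G + 2 * #{g | w g < 0}) :
    ∃ a, ∀ g, g ≠ a → f g = 0 := by
  classical
  have h3 : ∀ g, 0 ≤ f g := fun g => not_lt.1 fun e => by
    have := h (Pi.single 0 1) (by simp)
    rw [filter_false_of_mem (p := fun g => (Pi.single 0 1 : G → ℝ) g < 0) fun g _ =>
      (Pi.single_nonneg.2 zero_le_one g).not_gt, card_empty, Nat.le_zero, card_eq_zero] at this
    exact filter_eq_empty_iff.1 this (mem_univ g) (by simpa [Pi.single_apply] using e)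
  obtain ⟨S, hS⟩ : ∃ S : Finset G, ∀ g, g ∈ S ↔ 0 < f g := ⟨univ.filter _, fun _ => mem_filter_univ _⟩
  have h4 : ∀ g ∉ S, f g = 0 := fun g hg => (not_lt.1 (mt (hS g).2 hg)).antisymm (h3 g)
  have h5 : ∀ d ∈ univ.erase (0 : G), #{g ∈ S | g - d ∉ S} ≤ 1 := fun d hd => by
    refine (card_le_card fun g hg => ?_).trans ((h (Pi.single 0 (-1) + Pi.single d 2)
      (by norm_num [sum_add_distrib])).trans (odd_one 0 fun g hg => ?_))
    · simpa [Pi.single_apply, mul_add, sum_add_distrib, h4 _ (mem_filter.1 hg).2] using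
        (hS g).1 (mem_filter.1 hg).1
    · simp only [Pi.add_apply, Pi.single_eq_of_ne hg, Pi.single_apply]
      positivity
  have h6 : #S * #Sᶜ ≤ Fintype.card G - 1 := by
    have := sum_le_card_nsmul _ _ _ h5
    rw [sum_erase _ (by simp), card_erase_of_mem (mem_univ _), card_univ, smul_eq_mul, mul_one] at this
    refine le_of_eq_of_le ?_ this
    simp only [card_filter]
    rw [sum_comm, ← smul_eq_mul, ← sum_const]
    refine sum_congr rfl fun g _ => ?_
    rw [Fintype.sum_equiv (Equiv.subLeft g) (fun x => if g - x ∉ S then 1 else 0)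
      (fun x => if x ∉ S then 1 else 0) fun _ => rfl, ← card_filter]
    exact congrArg _ (by ext; simp)
  have h7 : 2 * #S ≤ Fintype.card G + 2 := by
    refine (Nat.mul_le_mul_left 2 (card_le_card fun g hg => ?_)).trans ((h2 (Pi.single 0 (-1))).trans
      (Nat.add_le_add_left (Nat.mul_le_mul_left 2 (odd_one 0 fun g hg => ?_)) _))
    · simpa [Pi.single_apply] using (hS g).1 hg
    · rw [Pi.single_eq_of_ne hg]
  have h8 := card_add_card_compl S
  by_cases h9 : #S ≤ 1
  · obtain ⟨a, ha⟩ := card_le_one_iff_subset_singleton.1 h9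
    exact ⟨a, fun g hg => h4 g fun e => hg (mem_singleton.1 (ha e))⟩
  obtain ⟨a, b, hab, rfl⟩ : ∃ a b, a ≠ b ∧ S = {a, b} := card_eq_two.1 (by
    obtain ⟨k, hk⟩ := hG
    by_contra e
    have h10 : 3 ≤ #S := by omega
    have h11 : 2 ≤ #Sᶜ := by omega
    have h12 : #S * #Sᶜ + 1 ≤ #S + #Sᶜ := by omega
    nlinarith)
  exact (not_two hG h hab ((hS a).1 (by simp)) ((hS b).1 (by simp))
    fun g ha hb => h4 g (by simp [ha, hb])).elim

end Pool.Agent.GD
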