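import Pool.Agent.Lib.MP_a01f70_lc.GD.Bx

namespace Pool.Agent.GD
open Finset Pool.Agent.GK

variable {K : Subfield ℝ} {μ : Type} [AddCommGroup μ] [Fintype μ]

open Classical in
theorem three_ng {r : ℤ × μ → ℝ} {b : ℤ × μ} {k : ℕ} (hb : b.1 = k) {c : ℝ} (hc : 0 < c)
    (h : ∀ l, r (l + b) = -c * r l) (N : ℕ) :
    ng r 0 (2 * k * N) = N * #{l ∈ Box μ 0 k | r l ≠ 0} := by
  rw [← ng_alt hb hc h, ng_eq, ng_eq]
  refine sum_Box_per (p := b + b) (by rw [Prod.fst_add, hb]; push_cast; ring) (fun l => ?_) 0 N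
  rw [← add_assoc, h, h, ← mul_assoc, neg_mul_neg]
  exact if_congr ⟨fun h1 => neg_of_mul_neg_right h1 (mul_pos hc hc).le,
    mul_neg_of_pos_of_neg (mul_pos hc hc)⟩ rfl rfl

theorem SMt.three {c : K} {b : ℤ × μ} {ξ : AL K (ℤ × μ)} (h : SMt (Pb c b) ξ) (hc : 0 < (c : ℝ))
    (hb : 0 < b.1) {r : ℤ × μ → ℝ} (hr : Gs (Pb c b) ξ c b r) (hn : ∀ l, r l ≠ 0)
    (hξ : ∀ l, 0 ≤ cf ξ l) {s₁ s₂ s₃ : ℤ × μ} (h12 : s₁ - s₂ ∉ St b ⊥) (h13 : s₁ - s₃ ∉ St b ⊥)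
    (h23 : s₂ - s₃ ∉ St b ⊥) (p1 : 0 < cf ξ s₁) (p2 : 0 < cf ξ s₂) (p3 : 0 < cf ξ s₃) : False := by
  classical
  obtain ⟨C, h⟩ := h
  obtain ⟨N, hN⟩ := exists_nat_gt C
  obtain ⟨k, hk⟩ := Int.eq_ofNat_of_zero_le hb.le
  have hS : b ∈ St b ⊥ := mem_St.2 ⟨1, 0, zero_mem _, by simp⟩
  let R : ℤ × μ → ℝ → ℤ × μ → ℝ := fun a ε l => if l - a ∈ St b ⊥ then ε * r l else 0
  have hR : ∀ a ε, ε ≠ 0 → ng (R a ε) 0 (2 * k * N) = N := fun a ε hε => by
    have h1 := card_St hk (by omega) ⊥ a 0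
    rw [AddSubgroup.card_bot] at h1
    rw [three_ng hk hc (fun l => ?_), filter_congr (q := fun l => l - a ∈ St b ⊥) fun l _ => ?_, h1,
      Nat.cast_one, mul_one]
    · simp [R, hε, hn l]
    · simp only [R]
      rw [add_sub_right_comm, hr.2]
      simp only [AddSubgroup.add_mem_cancel_right _ hS]
      split_ifs <;> ring
  have h0 : ng r 0 (2 * k * N) = N * (k * Fintype.card μ) := by
    rw [three_ng hk hc hr.2, filter_true_of_mem fun l _ => hn l, card_Box, Nat.cast_mul]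
  have hev : ∀ s, 0 < cf ξ s → ∀ᶠ t : ℝ in Filter.atTop, ∀ l ∈ Box μ 0 (2 * k * N),
      r l < t * cf ξ s := fun s hs => (Filter.eventually_all_finset _).2 fun l _ =>
    (Filter.tendsto_id.atTop_mul_const hs).eventually_gt_atTop _
  obtain ⟨t, ht, t1, t2, t3⟩ := ((Filter.eventually_ge_atTop (0 : ℝ)).and ((hev _ p1).and
    ((hev _ p2).and (hev _ p3)))).exists
  let z : ℤ × μ → ℝ := fun l => if l ∈ St b ⊥ then -t else 0
  have hz : ∀ l j, cf ξ j * z (l - j) ≤ 0 := fun l j => mul_nonpos_of_nonneg_of_nonpos (hξ j) (by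
    simp only [z]
    split_ifs <;> linarith)
  have y0 : ∀ l, cv ξ z l ≤ 0 := fun l => by
    rw [cv_eq_sum Subset.rfl]
    exact sum_nonpos fun j _ => hz l j
  have y1 : ∀ s l, 0 < cf ξ s → r l < t * cf ξ s → l - s ∈ St b ⊥ → cv ξ z l + r l < 0 := by
    intro s l hs h1 h2
    have h3 := sum_nonpos (s := ξ.coeff.support.erase s) fun j _ => hz l j
    rw [cv_eq_sum Subset.rfl, ← add_sum_erase _ _
      (Finsupp.mem_support_iff.2 fun e => hs.ne' (cf_eq_zero.2 e))]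
    simp only [z, if_pos h2] at h3 ⊢
    linarith
  have h1 := h _ _ (RV.add ⟨z, rfl, rfl⟩ hr.1) 0 (2 * k * N)
  have h2 : ng (cv (Pb c b) z + 0) 0 (2 * k * N) ≤
      ng (R 0 1) 0 (2 * k * N) + ng (R 0 (-1)) 0 (2 * k * N) := by
    simp only [ng_eq, ← sum_add_distrib]
    refine sum_le_sum fun l _ => ?_
    by_cases h3 : l ∈ St b ⊥
    · rcases (hn l).lt_or_gt with h4 | h4 <;> simp [R, h3, h4, h4.not_gt] <;> split_ifs <;> simp
    · have h4 : l - b ∉ St b ⊥ := fun h4 => h3 (by simpa using add_mem h4 hS)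
      simp [R, z, cv_Pb, h3, h4]
  have h3 : ng r 0 (2 * k * N) + ng (R s₁ (-1)) 0 (2 * k * N) + ng (R s₂ (-1)) 0 (2 * k * N) +
      ng (R s₃ (-1)) 0 (2 * k * N) ≤ ng (cv ξ z + r) 0 (2 * k * N) := by
    simp only [ng_eq, ← sum_add_distrib]
    refine sum_le_sum fun l hl => ?_
    have hd : ∀ s s', s - s' ∉ St b ⊥ → l - s ∈ St b ⊥ → l - s' ∉ St b ⊥ := fun s s' h4 h5 h6 =>
      h4 (by simpa using sub_mem h6 h5)
    rcases (hn l).lt_or_gt with h4 | h4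
    · have h5 : ∀ s, ¬ R s (-1) l < 0 := fun s => by
        simp only [R]
        split_ifs <;> linarith
      have h6 : cv ξ z l + r l < 0 := by linarith [y0 l]
      simp [h4, h5, h6]
    · by_cases e1 : l - s₁ ∈ St b ⊥
      · simp [R, h4, h4.not_gt, e1, hd _ _ h12 e1, hd _ _ h13 e1, y1 _ _ p1 (t1 l hl) e1]
      · by_cases e2 : l - s₂ ∈ St b ⊥
        · simp [R, h4, h4.not_gt, e1, e2, hd _ _ h23 e2, y1 _ _ p2 (t2 l hl) e2]
        · by_cases e3 : l - s₃ ∈ St b ⊥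
          · simp [R, h4, h4.not_gt, e1, e2, e3, y1 _ _ p3 (t3 l hl) e3]
          · simp only [R, h4.not_gt, e1, e2, e3, if_false, lt_irrefl, add_zero]
            split_ifs <;> simp
  rw [hR _ _ one_ne_zero, hR _ _ (by norm_num)] at h2
  rw [h0, hR _ _ (by norm_num), hR _ _ (by norm_num), hR _ _ (by norm_num)] at h3
  push_cast at h1
  linarith

end Pool.Agent.GD
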