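import Pool.Agent.Lib.MP_a01f70_lc.GD.Lead
import Pool.Agent.Lib.MP_a01f70_lc.GD.Chain
import Pool.Agent.Lib.MP_a01f70_lc.GD.Three

namespace Pool.Agent.GD
open Finset Pool.Agent.GK

variable {K : Subfield ℝ} {μ : Type} [AddCommGroup μ] [Fintype μ]

theorem odd_card_sub (hμ : Odd (Fintype.card μ)) (H : AddSubgroup μ) [Fintype H] :
    Odd (Fintype.card H) := by
  rw [← Nat.card_eq_fintype_card] at hμ ⊢
  exact hμ.of_dvd_nat H.card_addSubgroup_dvd_card

/-- `exists_ex` (`D = cf ξ` in the degrees below `j + deg b`), `Pole.pc`, `odd_lemma` -/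
theorem Pole.pos_low (hμ : Odd (Fintype.card μ)) {c : K} {b : ℤ × μ} {ξ : AL K (ℤ × μ)}
    {H : AddSubgroup μ} [Fintype H] (hs : SMt (Pb c b) ξ) (hP : Pole (Pb c b) ξ c b H) {j : ℤ}
    (hj : Low ξ j) {a : ℤ × μ} (ha : a.1 < j + b.1) :
    (∀ g ∈ H, cf ξ (a + (0, g)) = 0) ∨ 0 < ∑ g : H, cf ξ (a + (0, g.1)) := by
  obtain ⟨D, hD, h1⟩ := exists_ex c hP.deg hj
  have h2 : ∀ g, D (a + (0, g)) = cf ξ (a + (0, g)) := fun g => by
    rw [h1, hD.2 _ (by simpa [sub_lt_iff_lt_add] using ha), mul_zero, sub_zero]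
  refine or_iff_not_imp_left.2 fun h0 => not_le.1 fun h => ?_
  obtain ⟨w, h3, h4⟩ := odd_lemma (odd_card_sub hμ H) (f := fun g : H => cf ξ (a + (0, g.1)))
    (fun e => h0 fun g hg => congrFun e ⟨g, hg⟩) h
  have h5 := hP.pc hs hD a (fun i hi g _ => hD.2 _ (by
    simp only [Prod.fst_add, Prod.smul_fst, smul_eq_mul]
    nlinarith [hP.deg])) w
  rw [filter_false_of_mem (p := fun g => w g < 0) fun g _ => (h3 g).not_gt] at h5
  simp only [h2] at h5
  exact h4.not_ge h5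

/-- time reversal -/
theorem Pole.pos_high (hμ : Odd (Fintype.card μ)) {c : K} {b : ℤ × μ} {ξ : AL K (ℤ × μ)}
    {H : AddSubgroup μ} [Fintype H] (hs : SMt (Pb c b) ξ) (hP : Pole (Pb c b) ξ c b H) {j : ℤ}
    (hj : High ξ j) {a : ℤ × μ} (ha : j - b.1 < a.1) :
    (∀ g ∈ H, cf ξ (a + (0, g)) = 0) ∨ 0 < ∑ g : H, cf ξ (a + (0, g.1)) := by
  have hc : c ≠ 0 := by simpa using hP.pos.ne'
  have h1 : ∀ g, cf (sg b c⁻¹ * rv ξ) (b - a + (0, g)) = (c⁻¹ : K) * cf ξ (a + (0, -g)) := fun g => by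
    rw [cf_sg_mul, cf_rv, show -(b - a + (0, g) - b) = a + (0, -g) by
      rw [← neg_zero, ← Prod.neg_mk, neg_zero]; abel]
  have h2 := hP.rev.pos_low hμ (hs.rev hc hP.deg) ((low_sg b c⁻¹).mul hj.rv) (a := b - a)
    (by rw [Prod.fst_sub]; omega)
  simp only [h1, ← mul_sum] at h2
  refine h2.imp (fun h g hg => ?_) fun h => ?_
  · simpa [hc] using h (-g) (neg_mem hg)
  · exact ((mul_pos_iff_of_pos_left hP.rev.pos).1 h).trans_eq
      (Fintype.sum_equiv (Equiv.neg H) _ _ fun _ => rfl)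

/-- More poles than zeros. `H = ⊥`: `([h] - 1) ξ = P ζ`, `span_Pb` gives `ζ = 0`. Then `pos_low` says `ξ ≥ 0`, and
`SMt.three` leaves at most two terms (different terms lie on different chains) (for one term take `c₂ = 0`, `a₂ = a₁ + b`). -/
theorem Pole.nu_neg (hμ : Odd (Fintype.card μ)) {c : K} {b : ℤ × μ} {ξ : AL K (ℤ × μ)}
    {H : AddSubgroup μ} (hs : SMt (Pb c b) ξ) (hP : Pole (Pb c b) ξ c b H)
    (hξ : ξ ∈ nonZeroDivisors (AL K (ℤ × μ))) {j j' : ℤ} (hj : Low ξ j) (hj' : High ξ j')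
    (h : j' < j + b.1) : H = ⊥ ∧ Two ξ b := by
  classical
  have hc : c ≠ 0 := by simpa using hP.pos.ne'
  obtain rfl : H = ⊥ := (AddSubgroup.eq_bot_iff_forall H).2 fun g hg => by
    obtain ⟨ζ, e⟩ := hP.inv g hg
    have h1 := ((low_sg (0, g) (1 : K)).sub low_one).mul hj
    have h2 := ((high_sg (0, g) (1 : K)).sub high_one).mul hj'
    rw [e, zero_add] at h1 h2
    obtain ⟨h3, h4⟩ := span_Pb hc hP.deg h1 (j' := j' - b.1) (by rwa [sub_add_cancel])
    rw [eq_zero_of_high_low h3 h4 (by omega), mul_zero] at e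
    have h5 := congrArg (cf · 0) (sub_eq_zero.1 (mul_right_mem_nonZeroDivisors_eq_zero_iff hξ |>.1 e))
    simpa [AddMonoidAlgebra.one_def, cf_sg] using h5
  have h1 : ∀ l ∈ ξ.coeff.support, j ≤ l.1 ∧ l.1 ≤ j' := fun l hl =>
    ⟨not_lt.1 fun e => Finsupp.mem_support_iff.1 hl (hj l e),
      not_lt.1 fun e => Finsupp.mem_support_iff.1 hl (hj' l e)⟩
  have h2 : ∀ l ∈ ξ.coeff.support, 0 < cf ξ l := fun l hl => by
    simpa [cf_eq_zero, Subsingleton.elim (default : (⊥ : AddSubgroup μ)) 0, Prod.mk_zero_zero,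
      Finsupp.mem_support_iff.1 hl] using
      hP.pos_low hμ hs hj (a := l) ((h1 l hl).2.trans_lt h)
  have h3 : ∀ l ∈ ξ.coeff.support, ∀ l' ∈ ξ.coeff.support, l ≠ l' → l - l' ∉ St b ⊥ :=
    fun l hl l' hl' e e' => by
      obtain ⟨i, g, rfl, h4⟩ := mem_St.1 e'
      have h5 : l.1 - l'.1 = i * b.1 := by simpa using congrArg Prod.fst h4
      have h6 : i < 1 := lt_of_mul_lt_mul_right (by linarith [h1 l hl, h1 l' hl']) hP.deg.le
      have h7 : -1 < i := lt_of_mul_lt_mul_right (by linarith [h1 l hl, h1 l' hl']) hP.deg.le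
      obtain rfl : i = 0 := by omega
      exact e (sub_eq_zero.1 (by simpa [Prod.mk_zero_zero] using h4))
  have h4 : ξ.coeff.support.card ≤ 2 := not_lt.1 fun e => by
    obtain ⟨x, hx, y, hy, z, hz, e1, e2, e3⟩ := two_lt_card.1 e
    obtain ⟨r, h5, h6⟩ := hP.gs0
    exact hs.three hP.pos hP.deg h5 h6 (fun l => (em _).elim (fun hl => (h2 l hl).le)
      fun hl => (cf_eq_zero.2 (Finsupp.notMem_support_iff.1 hl)).ge)
      (h3 x hx y hy e1) (h3 x hx z hz e2) (h3 y hy z hz e3) (h2 x hx) (h2 y hy) (h2 z hz)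
  have h5 : ξ = ∑ l ∈ ξ.coeff.support, sg l (ξ.coeff l) := ξ.sum_coeff_single.symm
  have hb := hP.deg
  generalize ξ.coeff.support = S at h1 h2 h4 h5
  refine ⟨rfl, ?_⟩
  obtain e | e | e : S.card = 0 ∨ S.card = 1 ∨ S.card = 2 := by omega
  · rw [card_eq_zero.1 e] at h5
    exact absurd h5 (nonZeroDivisors.ne_zero hξ)
  · obtain ⟨x, rfl⟩ := card_eq_one.1 e
    exact ⟨x, x + b, _, 0, h2 x (mem_singleton_self x), le_rfl,
      fun e => hb.ne' (congrArg Prod.fst (left_eq_add.1 e)), le_add_of_nonneg_right hb.le, le_rfl,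
      by rw [sg, sg, AddMonoidAlgebra.single_zero, add_zero]; exact h5.trans (sum_singleton _ _)⟩
  · obtain ⟨x, y, e', rfl⟩ := card_eq_two.1 e
    simp only [mem_insert, mem_singleton, forall_eq_or_imp, forall_eq] at h1 h2
    rw [sum_pair e'] at h5
    rcases le_total x.1 y.1 with h6 | h6
    · exact ⟨x, y, _, _, h2.1, h2.2.le, e', h6, by omega, h5⟩
    · exact ⟨y, x, _, _, h2.2, h2.1.le, e'.symm, h6, by omega, h5.trans (add_comm _ _)⟩

end Pool.Agent.GD
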