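import Pool.Agent.Lib.MP_a01f70_lc.GD.Deg

namespace Pool.Agent.GD
open Finset Pool.Agent.GK

variable {K : Subfield ℝ} {μ : Type} [AddCommGroup μ] [Fintype μ]

/-- The algebra is of finite type over `K`, hence a Jacobson ring: the radical is the intersection of the maximal
ideals `𝔪 ⊇ I`; the residue field is finite over `K` (`finite_of_finite_type_of_isJacobsonRing`) and embeds in `ℂ` over
`K` (`IsAlgClosed.lift` for the algebra structure `K → ℝ → ℂ`). -/
theorem mem_radical {I : Ideal (AL K (ℤ × μ))} {f : AL K (ℤ × μ)}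
    (h : ∀ φ : AL K (ℤ × μ) →+* ℂ, Pt φ → (∀ η ∈ I, φ η = 0) → φ f = 0) : f ∈ I.radical := by
  have hft : Algebra.FiniteType K (AL K (ℤ × μ)) := inferInstance
  have : IsJacobsonRing (AL K (ℤ × μ)) := isJacobsonRing_of_finiteType (A := K)
  rw [Ideal.radical_eq_jacobson, Ideal.jacobson, Ideal.mem_sInf]
  rintro J ⟨hIJ, hJ⟩
  let _ := Ideal.Quotient.field J
  have : Module.Finite K (AL K (ℤ × μ) ⧸ J) := finite_of_finite_type_of_isJacobsonRing _ _
  let _ : Algebra K ℂ := ((algebraMap ℝ ℂ).comp K.subtype).toAlgebra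
  let ψ : (AL K (ℤ × μ) ⧸ J) →ₐ[K] ℂ := IsAlgClosed.lift
  have h1 := h (ψ.toRingHom.comp (Ideal.Quotient.mk J)) (fun c => ψ.commutes c) fun η hη => by
    rw [RingHom.comp_apply, Ideal.Quotient.eq_zero_iff_mem.2 (hIJ hη), map_zero]
  exact Ideal.Quotient.eq_zero_iff_mem.1 (ψ.toRingHom.injective (h1.trans (map_zero _).symm))

/-- in the quotient by `I`, `y = [g]` has `y ^ r = 1`, `(y - 1) (1 + y + … + y ^ (r - 1)) = 0` and the sum is `r` plus a
nilpotent element, a unit -/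
theorem mem_of_radical {I : Ideal (AL K (ℤ × μ))} {g : μ} (h : sg (0, g) 1 - 1 ∈ I.radical) :
    sg (0, g) 1 - 1 ∈ I := by
  let π := Ideal.Quotient.mk I
  have hr : 0 < Fintype.card μ := Fintype.card_pos
  have h1 : (sg ((0 : ℤ), g) (1 : K)) ^ Fintype.card μ = 1 := by
    rw [AddMonoidAlgebra.single_pow, one_pow, Prod.smul_mk, card_nsmul_eq_zero, smul_zero]
    rfl
  obtain ⟨y, hy⟩ : ∃ y, y = π (sg ((0 : ℤ), g) (1 : K)) := ⟨_, rfl⟩
  have h2 : IsNilpotent (y - 1) := by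
    obtain ⟨n, hn⟩ := h
    exact ⟨n, by rw [hy, ← map_one π, ← map_sub, ← map_pow, Ideal.Quotient.eq_zero_iff_mem.2 hn]⟩
  have h3 : (∑ i ∈ range (Fintype.card μ), y ^ i) * (y - 1) = 0 := by
    rw [geom_sum_mul, hy, ← map_pow, h1, map_one, sub_self]
  have h4 : IsNilpotent (∑ i ∈ range (Fintype.card μ), (y ^ i - 1)) :=
    isNilpotent_sum fun i _ => by
      obtain ⟨c, hc⟩ := sub_dvd_pow_sub_pow y 1 i
      rw [one_pow] at hc
      rw [hc]
      exact (Commute.all _ _).isNilpotent_mul_right h2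
  have h5 : IsUnit ((Fintype.card μ : ℕ) : AL K (ℤ × μ) ⧸ I) := by
    rw [← map_natCast (algebraMap K (AL K (ℤ × μ) ⧸ I))]
    exact (IsUnit.mk0 _ (Nat.cast_ne_zero.2 hr.ne')).map _
  have h6 := h4.isUnit_add_right_of_commute h5 (Commute.all _ _)
  rw [sum_sub_distrib, sum_const, card_range, nsmul_one, sub_add_cancel] at h6
  rw [← Ideal.Quotient.eq_zero_iff_mem, map_sub, map_one]
  rw [← h6.mul_right_eq_zero.1 h3, hy]

end Pool.Agent.GD
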