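import Pool.Agent.Lib.MP_a01f70_lc.GD.Sim1
import Pool.Agent.Lib.MP_a01f70_lc.GK.Simple

namespace Pool.Agent.GD
open Finset Pool.Agent.GK

variable {K : Subfield ℝ} {μ : Type} [AddCommGroup μ] [Fintype μ]

theorem sim2_big {α : Type} (F : Finset α) (y r : α → ℝ) :
    ∃ M : ℝ, ∀ l ∈ F, r l < 0 → y l + M * r l < 0 := by
  refine ⟨∑ l ∈ F, |y l / r l| + 1, fun l hl h => ?_⟩
  have h1 := single_le_sum (f := fun l => |y l / r l|) (fun _ _ => abs_nonneg _) hl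
  have h2 := neg_abs_le (y l / r l)
  have h3 : y l / r l * r l = y l := div_mul_cancel₀ _ h.ne
  nlinarith

theorem sim2_dd (S : Finset ℤ) {w : ℤ → ℝ} (hw : ∀ n, 0 ≤ w n) (D : ℕ) (s : ℤ) :
    0 ≤ (-1 : ℝ) ^ s * (∑ n ∈ S, (-1 : ℝ) ^ n * w n * Simple_ramp (s - n + 2 * D) -
      2 * ∑ n ∈ S, (-1 : ℝ) ^ n * w n * Simple_ramp (s - 1 - n + 2 * D) +
      ∑ n ∈ S, (-1 : ℝ) ^ n * w n * Simple_ramp (s - 2 - n + 2 * D)) := by
  rw [mul_sum, ← sum_sub_distrib, ← sum_add_distrib, mul_sum]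
  refine sum_nonneg fun n _ => ?_
  have e2 := Simple_dd (s - n + 2 * D)
  rw [show s - 1 - n + 2 * D = s - n + 2 * D - 1 by ring,
    show s - 2 - n + 2 * D = s - n + 2 * D - 1 - 1 by ring]
  split_ifs at e2 with h0
  · have e3 : (-1 : ℝ) ^ s * (-1) ^ n = 1 := by
      rw [show n = s + 2 * D by omega, zpow_add₀ (by norm_num), ← mul_assoc, ← mul_zpow,
        Even.neg_one_zpow (n := 2 * D) ⟨D, by ring⟩]
      simp
    refine (hw n).trans_eq ?_
    linear_combination (-((-1 : ℝ) ^ s * (-1) ^ n * w n)) * e2 - w n * e3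
  · refine le_of_eq ?_
    linear_combination (-((-1 : ℝ) ^ s * (-1) ^ n * w n)) * e2

theorem sim2_ng {r : ℤ × μ → ℝ} {b a : ℤ × μ} {k : ℕ} (hb : b.1 = k) (hk : 0 < k) {c : ℝ}
    (hc : 0 < c) (h : ∀ l, r (l + b) = -c * r l) {H : AddSubgroup μ}
    (h0 : ∀ l, r l = 0 ↔ l - a ∈ St b H) (s : ℤ) (n : ℕ) :
    ng r s (2 * k * n) = n * (k * Fintype.card μ - Nat.card H) := by
  classical
  induction n with
  | zero => simp [ng, Box]
  | succ n ih =>
    rw [Nat.mul_succ, ng_eq, sum_Box_add, ← ng_eq, ← ng_eq, ih, ng_alt hb hc h]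
    have h1 := card_St hb hk H a (s + (2 * k * n : ℕ))
    have h2 := card_filter_add_card_filter_not (s := Box μ (s + (2 * k * n : ℕ)) k)
      (fun l => l - a ∈ St b H)
    rw [card_Box] at h2
    have h3 : #{l ∈ Box μ (s + (2 * k * n : ℕ)) k | r l ≠ 0} =
        #{l ∈ Box μ (s + (2 * k * n : ℕ)) k | ¬l - a ∈ St b H} :=
      congrArg card (filter_congr fun l _ => (h0 l).not)
    have h4 : Nat.card H + #{l ∈ Box μ (s + (2 * k * n : ℕ)) k | r l ≠ 0} = k * Fintype.card μ := by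
      rw [h3, ← h2, ← h1]
    have h5 := congrArg (Nat.cast : ℕ → ℝ) h4
    push_cast at h5 ⊢
    linarith

/-- As `Simple_two` in `GK/Simple`: `exists_chain`, `twist` for the sequence `∑ z j ramp (t + 2 N - j)`,
`f s = ∑ n ∈ S, (-1) ^ n w n ramp (s - n + 2 N)`, `cv_pow_nonneg`, `cv_chn`, a large multiple of `r` from `gs1 a`. In the box
of `J deg b` degrees starting at `a.1 + j₀ deg b` the coset `a + ℤ b + H` has `|H|` copies of the sequence of `twist`;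
off it `r` alternates along each chain (`ng_alt`, `card_St`; make `J` even at a bounded cost). -/
theorem simple_two {c : K} {b : ℤ × μ} {ξ : AL K (ℤ × μ)} {H : AddSubgroup μ} {ν : ℕ}
    (hs : SMt (Pb c b ^ (ν + 2)) ξ) (hP : Pole (Pb c b ^ (ν + 2)) ξ c b H) : Pb c b ∣ ξ := by
  classical
  by_contra hξ
  obtain ⟨C₀, hC⟩ := hs
  have hc := hP.pos
  have hb := hP.deg
  have hc' : c ≠ 0 := fun h => by simp [h] at hc
  obtain ⟨k, hk⟩ : ∃ k : ℕ, b.1 = k := ⟨b.1.toNat, (Int.toNat_of_nonneg hb.le).symm⟩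
  have hk0 : 0 < k := by omega
  obtain ⟨a, N, hl, hh, hβ⟩ := exists_chain hc' hb (H := H)
    (fun g hg => (dvd_pow_self _ (by omega)).trans (hP.inv g hg)) hξ
  obtain ⟨z, hz⟩ : ∃ z : ℕ → ℝ, ∀ j : ℕ,
    (∑ g : H, cf ξ (a + j • b + (0, g.1))) * (-(c : ℝ))⁻¹ ^ j = z j := ⟨_, fun _ => rfl⟩
  simp only [hz] at hβ
  obtain ⟨L, hL⟩ := exists_nat_gt (2 * |C₀| + 1)
  obtain ⟨S, w, j₀, j₁, hw, hj, hS⟩ := twist (g := fun t => ∑ j ∈ range N, z j *
    Simple_ramp (t + 2 * N - j)) (α := ∑ j ∈ range N, z j * (2 * N - j + 1)) (D := 2 * N + 1) hβ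
    (fun t ht => by
      rw [sum_mul, ← sum_add_distrib]
      refine sum_congr rfl fun j hj => ?_
      rw [mem_range] at hj
      rw [Simple_ramp, max_eq_left (by omega)]
      push_cast
      ring)
    (fun t ht => sum_eq_zero fun j _ => by
      rw [Simple_ramp, max_eq_right (by push_cast at ht; omega), Int.cast_zero, mul_zero]) L
  obtain ⟨J, rfl⟩ := Int.le.dest hj
  obtain ⟨r, hr, hr0⟩ := hP.gs1 a
  obtain ⟨f, hf⟩ : ∃ f : ℤ → ℝ, f = fun s =>
    ∑ n ∈ S, (-1 : ℝ) ^ n * w n * Simple_ramp (s - n + 2 * N) := ⟨_, rfl⟩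
  obtain ⟨g, hx, hy⟩ : ∃ g : ℤ × μ → ℝ, (∀ l, 0 ≤ cv (Pb c b ^ (ν + 2)) g l) ∧
      ∀ s : ℤ, ∀ h ∈ H, cv ξ g (a + s • b + (0, h)) = (-(c : ℝ)) ^ s * ∑ i ∈ range N,
        (∑ g' : H, cf ξ (a + i • b + (0, g'.1))) * (-(c : ℝ))⁻¹ ^ i * f (s - i) :=
    ⟨_, cv_pow_nonneg hc hb H (f := f) (fun s => by rw [hf]; exact sim2_dd S hw N s) ν,
      fun s h hh' => cv_chn hc' hb hl hh f s hh'⟩
  simp only [hz] at hy
  obtain ⟨n, hn1, hn2⟩ : ∃ n : ℕ, J ≤ 2 * n ∧ 2 * n ≤ J + 1 := ⟨(J + 1) / 2, by omega, by omega⟩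
  obtain ⟨M, hM⟩ := sim2_big (Box μ (a.1 + j₀ * k) (2 * k * n)) (cv ξ g) r
  have key := hC _ _ (RV.add ⟨g, rfl, rfl⟩ (hr.1.smul M)) (a.1 + j₀ * k) (2 * k * n)
  have k0 : ng (cv (Pb c b ^ (ν + 2)) g + M • (0 : ℤ × μ → ℝ)) (a.1 + j₀ * k) (2 * k * n) = 0 := by
    rw [smul_zero, add_zero, ng, filter_false_of_mem fun l _ => not_lt.2 (hx l), card_empty,
      Nat.cast_zero]
  have k1 := sim2_ng hk hk0 hc hr.2 hr0 (a.1 + j₀ * k) n
  have k2 : ng r (a.1 + j₀ * k) (2 * k * n) + #{l ∈ Box μ (a.1 + j₀ * k) (2 * k * n) |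
      l - a ∈ St b H ∧ cv ξ g l < 0} ≤ ng (cv ξ g + M • r) (a.1 + j₀ * k) (2 * k * n) := by
    rw [ng_eq, ng_eq, card_filter, Nat.cast_sum, ← sum_add_distrib]
    refine sum_le_sum fun l hl' => ?_
    by_cases h1 : r l < 0
    · have h2 : (cv ξ g + M • r) l < 0 := hM l hl' h1
      rw [if_pos h1, if_pos h2, if_neg fun h => h1.ne ((hr0 l).2 h.1)]
      simp
    · rw [if_neg h1, zero_add]
      by_cases h2 : l - a ∈ St b H ∧ cv ξ g l < 0
      · rw [if_pos h2, if_pos (by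
          rw [Pi.add_apply, Pi.smul_apply, (hr0 l).2 h2.1, smul_zero, add_zero]
          exact h2.2)]
        simp
      · rw [if_neg h2]
        split_ifs <;> simp
  obtain ⟨A, hA⟩ : ∃ A : Finset ℤ, A = (Ico j₀ (j₀ + J)).filter fun j : ℤ =>
    (-1 : ℝ) ^ j * ∑ n ∈ S, (-1 : ℝ) ^ n * w n * ∑ i ∈ range N, z i *
      Simple_ramp (j - n + 2 * N - i) < 0 := ⟨_, rfl⟩
  rw [← hA] at hS
  have k3 : #A * Nat.card H ≤ #{l ∈ Box μ (a.1 + j₀ * k) (2 * k * n) |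
      l - a ∈ St b H ∧ cv ξ g l < 0} := by
    rw [Nat.card_eq_fintype_card, ← card_univ, ← card_product]
    refine card_le_card_of_injOn (fun p => a + p.1 • b + (0, p.2.1)) (fun p hp => ?_)
      fun p _ p' _ hpp => ?_
    · obtain ⟨a1, a2⟩ := mem_filter.1 (hA ▸ (mem_product.1 hp).1)
      rw [mem_Ico] at a1
      refine mem_filter.2 ⟨mem_Box.2 ?_, mem_St.2 ⟨p.1, p.2.1, p.2.2, by simp only; abel⟩, ?_⟩
      · simp only [Prod.fst_add, Prod.smul_fst, smul_eq_mul, hk, add_zero]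
        push_cast
        have b1 : (0 : ℤ) < k := by exact_mod_cast hk0
        have b2 : (J : ℤ) ≤ 2 * n := by exact_mod_cast hn1
        constructor <;> nlinarith [a1.1, a1.2]
      · simp only
        rw [hy _ _ p.2.2, neg_eq_neg_one_mul (c : ℝ), mul_zpow, mul_comm _ ((c : ℝ) ^ p.1),
          mul_assoc]
        refine mul_neg_of_pos_of_neg (zpow_pos hc _) (lt_of_eq_of_lt ?_ a2)
        simp only [hf, mul_sum]
        rw [sum_comm]
        refine sum_congr rfl fun n _ => sum_congr rfl fun t _ => ?_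
        rw [show p.1 - t - n + 2 * N = p.1 - n + 2 * N - t by ring]
        ring
    · have b1 := congrArg Prod.fst hpp
      simp only [Prod.fst_add, Prod.smul_fst, smul_eq_mul, add_zero, add_right_inj] at b1
      have b2 : p.1 = p'.1 := mul_right_cancel₀ hb.ne' b1
      simp only [b2, add_right_inj, Prod.mk.injEq, true_and] at hpp
      exact Prod.ext b2 (Subtype.ext hpp)
  have k4 : (1 : ℝ) ≤ Nat.card H := by exact_mod_cast Nat.card_pos
  have k5 : (J : ℝ) + L ≤ 2 * #A := by exact_mod_cast (by omega : J + L ≤ 2 * #A)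
  have k6 : (2 * n : ℝ) ≤ J + 1 := by exact_mod_cast hn2
  have k7 : (#A : ℝ) * Nat.card H ≤ #{l ∈ Box μ (a.1 + j₀ * k) (2 * k * n) |
      l - a ∈ St b H ∧ cv ξ g l < 0} := by exact_mod_cast k3
  have k8 := le_abs_self C₀
  have k9 := abs_nonneg C₀
  rw [k0] at key
  rw [k1] at k2
  push_cast at key
  nlinarith [mul_nonneg (sub_nonneg.2 k4) (show (0 : ℝ) ≤ #A - n by linarith)]

/-- induction on `ν` as `simple_core`; `SMt.congr`, `Pole.congr` -/
theorem simple {a b : AL K (ℤ × μ)} (ha : a ∈ nonZeroDivisors (AL K (ℤ × μ))) (hs : SMt a b) {c : K}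
    {b₀ : ℤ × μ} {H : AddSubgroup μ} (hP : Pole a b c b₀ H) {ν : ℕ} (h : a ∣ Pb c b₀ ^ ν * b) :
    a ∣ Pb c b₀ * b := by
  induction ν using Nat.twoStepInduction with
  | zero => exact (by simpa using h : a ∣ b).mul_left _
  | one => simpa using h
  | more ν _ ih =>
    obtain ⟨e, he⟩ := h
    have h0 := nzd_Pb c hP.deg
    obtain ⟨f, rfl⟩ := simple_two (hs.congr ha he.symm) (hP.congr ha (pow_mem h0 _) he.symm)
    refine ih ⟨f, (mul_cancel_left_mem_nonZeroDivisors h0).1 ?_⟩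
    linear_combination he

end Pool.Agent.GD
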