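import Pool.Agent.Lib.MP_a01f70_lc.GD.Deg

namespace Pool.Agent.GD
open Finset Pool.Agent.GK

variable {K : Subfield ℝ} {μ : Type} [AddCommGroup μ] [Fintype μ]

theorem stab_abs (hμ : Odd (Fintype.card μ)) {R : ℤ × μ → K → Prop} (h0 : R 0 1)
    (h1 : ∀ c, R 0 c → c = 1) (ha : ∀ {l l' c c'}, R l c → R l' c' → R (l + l') (c * c'))
    (hn : ∀ {l c}, R l c → R (-l) c⁻¹) {b : ℤ × μ} {c : K} (hb : R b c) (hc : c ≠ 1) :
    ∃ (κ : K) (b₀ : ℤ × μ) (H : AddSubgroup μ), 0 < b₀.1 ∧ R b₀ κ ∧ (∀ g ∈ H, R (0, g) 1) ∧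
      ∀ l c', R l c' → ∃ i : ℤ, ∃ h ∈ H, l = i • b₀ + (0, h) ∧ c' * κ ^ (-i) = 1 := by
  classical
  have hp : ∀ {l c} (n : ℕ), R l c → R (n • l) (c ^ n) := fun {l c} n h => by
    induction n with
    | zero => rwa [zero_smul, pow_zero]
    | succ n ih => rw [succ_nsmul, pow_succ]; exact ha ih h
  have hz : ∀ {l c} (i : ℤ), R l c → R (i • l) (c ^ i) := fun {l c} i h => by
    obtain ⟨n, rfl | rfl⟩ := i.eq_nat_or_neg
    · simpa using hp n h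
    · simpa using hn (hp n h)
  have ht : ∀ {l c}, R l c → l.1 = 0 → c = 1 := fun {l c} h e => by
    have h2 := h1 _ ((Prod.ext (by simp [e]) card_nsmul_eq_zero : Fintype.card μ • l = 0) ▸
      hp (Fintype.card μ) h)
    exact Subtype.ext (hμ.strictMono_pow.injective
      (show (c : ℝ) ^ _ = 1 ^ _ by rw [one_pow]; exact_mod_cast h2))
  have he : ∃ n : ℕ, 0 < n ∧ ∃ g κ, R (n, g) κ := by
    refine ⟨b.1.natAbs, Int.natAbs_pos.2 fun e => hc (ht hb e), ?_⟩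
    obtain e | e := b.1.natAbs_eq
    · exact ⟨b.2, c, e ▸ hb⟩
    · exact ⟨-b.2, c⁻¹, neg_eq_iff_eq_neg.2 e ▸ hn hb⟩
  obtain ⟨h2, g, κ, h3⟩ := Nat.find_spec he
  have h4 := fun m => Nat.find_min he (m := m)
  generalize Nat.find he = n at h2 h3 h4
  have h5 : (0 : ℤ) < n := by exact_mod_cast h2
  refine ⟨κ, (n, g), ⟨⟨⟨{g | R (0, g) 1}, fun h h' => by simpa using ha h h'⟩, h0⟩,
    fun h => by simpa using hn h⟩, h5, h3, fun _ h => h, fun l c' h => ?_⟩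
  have h6 := ha h (hz (-(l.1 / n)) h3)
  have h7 : (l + -(l.1 / n) • ((n : ℤ), g)).1 = l.1 % n := by
    simp [Int.emod_def, sub_eq_add_neg, mul_comm]
  have h8 : l.1 % n = 0 := by_contra fun e => by
    obtain ⟨m, hm⟩ := Int.eq_ofNat_of_zero_le (Int.emod_nonneg l.1 h5.ne')
    have := Int.emod_lt_of_pos l.1 h5
    exact h4 m (by omega) ⟨by omega, _, _, by rw [← hm, ← h7]; exact h6⟩
  have h9 := ht h6 (h7.trans h8)
  refine ⟨l.1 / n, (l + -(l.1 / n) • ((n : ℤ), g)).2, ?_, ?_, h9⟩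
  · change R (0, _) 1
    rw [← h7.trans h8, ← h9]
    exact h6
  · rw [← h7.trans h8, neg_smul]
    exact (add_add_neg_cancel'_right _ _).symm

/-- The `l` with `[l] - c' ∈ J` for some `c'` form a subgroup `S`; `c' = κ l` is unique, nonzero and multiplicative. On
`S ∩ μ`, `κ ^ |μ| = 1`, so `κ = 1` (real, odd). `b ∈ S`, `κ b = -1 / c < 0`, so `deg b ≠ 0`. Let `b₀ ∈ S` have minimal
positive degree: `S = ℤ b₀ + H`, `b = i b₀ + h`, `κ b₀ ^ i = -1 / c`, so `κ b₀ < 0`; `c₀ = -1 / κ b₀`, `k = |i|`. -/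
theorem exists_st (hμ : Odd (Fintype.card μ)) {J : Ideal (AL K (ℤ × μ))} (hJ : J ≠ ⊤) {c : K}
    (hc : 0 < (c : ℝ)) {b : ℤ × μ} (hb : Pb c b ∈ J) :
    ∃ (c₀ : K) (b₀ : ℤ × μ) (H : AddSubgroup μ) (k : ℕ), 0 < (c₀ : ℝ) ∧ 0 < b₀.1 ∧ Pb c₀ b₀ ∈ J ∧
      (∀ g ∈ H, sg (0, g) 1 - 1 ∈ J) ∧ (∀ l c', sg l 1 - sg 0 c' ∈ J → l ∈ St b₀ H) ∧
      0 < k ∧ (c₀ ^ k = c ∨ c₀ ^ k = c⁻¹) := by
  have hu : ∀ l c', c' ≠ 0 → sg l c' ∉ J := fun l c' h e =>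
    hJ (J.eq_top_of_isUnit_mem e (isUnit_sg l h))
  have hc0 : c ≠ 0 := by simpa using hc.ne'
  have hc1 : ((-c⁻¹ : K) : ℝ) < 0 := by simpa using hc
  have h0 : ∀ {l c'}, sg l 1 - sg 0 c' ∈ J → c' ≠ 0 := fun {l c'} h e =>
    hu l 1 one_ne_zero (by simpa [e] using h)
  have hb' : sg b 1 - sg 0 (-c⁻¹) ∈ J := by
    convert J.mul_mem_left (sg 0 c⁻¹) hb using 1
    rw [Pb, mul_add, mul_one, sg_mul, zero_add, inv_mul_cancel₀ hc0, sg, sg, sg,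
      AddMonoidAlgebra.single_neg, sub_neg_eq_add, add_comm]
  obtain ⟨κ, b₀, H, h1, h2, h3, h4⟩ := stab_abs hμ (R := fun l c' => sg l 1 - sg 0 c' ∈ J)
    (by simp) (fun c' h => by_contra fun e => hu 0 (1 - c') (sub_ne_zero.2 (Ne.symm e))
      (by rwa [sg, AddMonoidAlgebra.single_sub]))
    (fun {l l' c c'} h h' => by
      convert J.add_mem (J.mul_mem_left (sg l 1) h') (J.mul_mem_right (sg 0 c') h) using 1
      rw [mul_sub, sub_mul, sg_mul, sg_mul, sg_mul, one_mul, add_zero, add_zero, sub_add_sub_cancel])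
    (fun {l c} h => by
      convert J.neg_mem (J.mul_mem_left (sg (-l) c⁻¹) h) using 1
      rw [mul_sub, sg_mul, sg_mul, neg_add_cancel, mul_one, add_zero, inv_mul_cancel₀ (h0 h), neg_sub])
    hb' fun e => by rw [e] at hc1; exact hc1.not_gt zero_lt_one
  obtain ⟨i, -, -, -, h5⟩ := h4 b _ hb'
  rw [zpow_neg, mul_inv_eq_one₀ (zpow_ne_zero _ (h0 h2))] at h5
  rw [h5, show ((κ ^ i : K) : ℝ) = κ ^ i from map_zpow₀ K.subtype κ i] at hc1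
  have h6 : Odd i := Int.not_even_iff_odd.1 fun e => hc1.not_ge (e.zpow_nonneg _)
  have h7 : (-κ⁻¹) ^ i = c := by rw [h6.neg_zpow, inv_zpow, ← h5, inv_neg, inv_inv, neg_neg]
  refine ⟨-κ⁻¹, b₀, H, i.natAbs, by simpa using h6.zpow_neg_iff.1 hc1, h1, ?_, h3,
    fun l c' h => ?_, Int.natAbs_pos.2 fun e => by simp [e] at h6, ?_⟩
  · convert J.mul_mem_left (sg 0 (-κ⁻¹)) h2 using 1
    rw [Pb, mul_sub, sg_mul, sg_mul, zero_add, add_zero, mul_one, neg_mul, inv_mul_cancel₀ (h0 h2),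
      sg, sg, AddMonoidAlgebra.single_neg _ 1, sub_neg_eq_add, add_comm]
    rfl
  · obtain ⟨j, g, hg, e, -⟩ := h4 l c' h
    exact mem_St.2 ⟨j, g, hg, e⟩
  · rw [← h7, ← zpow_natCast, ← zpow_neg]
    exact i.natAbs_eq.imp (fun e => by rw [← e]) fun e => by rw [neg_eq_iff_eq_neg.2 e]

end Pool.Agent.GD
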