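import Pool.Agent.Lib.MP_a01f70_lc.GD.TL
import Pool.Agent.Lib.MP_a01f70_lc.GD.NZ
import Pool.Agent.Lib.MP_a01f70_lc.GD.N9
import Pool.Agent.Lib.MP_a01f70_lc.GD.Rad
import Pool.Agent.Lib.MP_a01f70_lc.GD.Stab
import Pool.Agent.Lib.MP_a01f70_lc.GD.Gnd
import Pool.Agent.Lib.MP_a01f70_lc.GD.Sim2

namespace Pool.Agent.GD
open Finset Pool.Agent.GK

variable {m : ℕ} [NeZero m] {μ : Type} [AddCommGroup μ] [Fintype μ]

/-- If `Den = ⊤` take `P = 1`. Else `J = radical Den ≠ ⊤`; `exists_beta`, `mem_radical`, `exists_st`, `eq_tr_of_pow`,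
`mem_of_radical`, `pole_of_ideal`, `simple`. -/
theorem side (hμ : Odd (Fintype.card μ)) {A B : GR m (ℤ × μ)} (hA : NZ A) (h : TLt A B) :
    ∃ P ξ : AL (KK m) (ℤ × μ), up A * ξ = P * up B ∧ P ∈ nonZeroDivisors (AL (KK m) (ℤ × μ)) ∧
      Side P ξ ∧ ∀ (c : KK m) b, 0 < (c : ℝ) → P = Pb c b → ∃ i, c = tk m i := by
  have hA' := hA.nzd_up
  have hs := h.sm
  by_cases hD : Den (up A) (up B) = ⊤
  · obtain ⟨ξ, hξ⟩ := mem_Den.1 (hD ▸ Submodule.mem_top : (1 : AL (KK m) (ℤ × μ)) ∈ Den (up A) (up B))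
    refine ⟨1, ξ, hξ.symm, one_mem _, ⟨hs.congr hA' hξ.symm, .inl rfl⟩, fun c b hc he => ?_⟩
    have h1 : sg b c = 0 := by simpa [Pb] using he
    have h2 : c = 0 := by simpa using h1
    simp [h2] at hc
  have hJ : (Den (up A) (up B)).radical ≠ ⊤ := fun e => hD (Ideal.radical_eq_top.1 e)
  obtain ⟨γ, hγ⟩ := exists_beta h hA
  have hpos : 0 < ((tk m γ.1 : KK m) : ℝ) := coe_tk (m := m) γ.1 ▸ tr_pos _
  obtain ⟨c, b, H, k, hc, hb, hP, hH, hS, hk, he⟩ := exists_st hμ hJ hpos (mem_radical hγ)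
  have hpole := pole_of_ideal hJ Ideal.le_radical hc hb hP (fun g hg => mem_of_radical (hH g hg)) hS
  obtain ⟨ν, hν⟩ := hP
  obtain ⟨ξ, hξ⟩ := simple hA' hs hpole (mem_Den.1 hν)
  have hn := nzd_Pb c hb
  refine ⟨Pb c b, ξ, hξ.symm, hn, ⟨hs.congr hA' hξ.symm,
    .inr ⟨c, b, H, rfl, hpole.congr hA' hn hξ.symm⟩⟩, fun c' b' hc' he' => ?_⟩
  have h1 : sg b c = sg b' c' := by simpa [Pb] using he'
  have h2 : c = c' := by
    have h3 := congrArg (fun f => cf f b) h1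
    simp only [cf_sg, if_true] at h3
    split_ifs at h3
    · exact Subtype.ext h3
    · exact absurd h3 hc.ne'
  subst h2
  have h5 : ∃ i, (c : ℝ) ^ k = tr m i := by
    rcases he with he | he
    · exact ⟨γ.1, by rw [← coe_tk, ← he]; simp⟩
    · refine ⟨-γ.1, ?_⟩
      have h6 : (c : ℝ) ^ k = (tr m γ.1)⁻¹ := by rw [← coe_tk, ← Subfield.coe_inv, ← he]; simp
      rw [h6]
      refine inv_eq_of_mul_eq_one_right ?_
      rw [← tr_add, add_neg_cancel, tr_zero]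
  obtain ⟨i, hi⟩ := h5
  obtain ⟨e, h7⟩ := eq_tr_of_pow c.2 hc hk hi
  exact ⟨e, Subtype.ext (h7.trans (coe_tk e).symm)⟩

end Pool.Agent.GD
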