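import Pool.Agent.Lib.MP_a01f70_lc.GD.Loc
import Pool.Agent.Lib.MP_a01f70_lc.GD.NZ

namespace Pool.Agent.GD
open Finset Pool.Agent.GK

variable {m : ℕ} [NeZero m] {μ : Type} [AddCommGroup μ] [Fintype μ]

open Filter in
/-- `sum_of_wtD` with the number of terms bounded by the weight for large `D` -/
theorem two_wt {r : O m} {B : ℝ} (h : ∀ D, 2 ≤ D → wtD m D r ≤ B) :
    ∃ S : Finset ℤ, r = ∑ e ∈ S, tz m e ∧ ∀ᶠ D : ℕ in atTop, (S.card : ℝ) ≤ wtD m D r := by
  obtain ⟨k, c, rfl⟩ := exists_coord r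
  have h0 : ∀ D : ℕ, 2 ≤ D → ∑ i, ∑ s ∈ range D, dig (cc (2 ^ D - 1) (2 ^ s * (c i : ZMod (2 ^ D - 1))))
      = wtD m D (∑ i, (c i : O m) * tz m ((i : ℕ) - m * k)) := fun D hD => by
    rw [← wtD_coord (by omega), ← wtD_tz_mul (by omega) (-(m * k)), mul_sum]
    refine congrArg _ (sum_congr rfl fun i _ => ?_)
    rw [mul_left_comm, ← tz_add, neg_add_eq_sub]
  choose S hS hS' using fun i => (int_digits (c i)).resolve_left fun h2 => by
    obtain ⟨D, h3, h4⟩ := ((h2 B).and (eventually_ge_atTop 2)).exists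
    exact h3.not_ge ((single_le_sum (f := fun i => ∑ s ∈ range D,
      dig (cc (2 ^ D - 1) (2 ^ s * (c i : ZMod (2 ^ D - 1)))))
      (fun _ _ => sum_nonneg fun _ _ => dig_nonneg _) (mem_univ i)).trans
        ((h0 D h4).trans_le (h D h4)))
  refine ⟨(univ.sigma S).image fun x => m * x.2 + (((x.1 : ℕ) : ℤ) - m * k), ?_, ?_⟩
  · rw [sum_image, sum_sigma]
    · refine sum_congr rfl fun i _ => ?_
      rw [hS, Int.cast_sum, sum_mul]
      refine sum_congr rfl fun p _ => ?_
      rw [tz_add, tz_mul_m, Int.cast_pow, Int.cast_ofNat]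
    · rintro ⟨i, p⟩ - ⟨j, q⟩ - e
      have e1 : m * p + i = m * q + j := by
        beta_reduce at e
        zify
        linarith
      have e2 := congrArg (· % m) e1
      simp only [Nat.mul_add_mod, Nat.mod_eq_of_lt i.isLt, Nat.mod_eq_of_lt j.isLt] at e2
      obtain rfl : i = j := Fin.ext e2
      rw [Nat.eq_of_mul_eq_mul_left (NeZero.pos m) (add_right_cancel e1)]
  · filter_upwards [eventually_all.2 hS', eventually_ge_atTop 2] with D h3 h4
    refine (Nat.cast_le.2 card_image_le).trans ?_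
    rw [card_sigma, Nat.cast_sum, ← h0 D h4]
    exact sum_le_sum fun i _ => h3 i

/-- `Z f = tor m D (f.coeff 0)`, `vd_mul`, `TLt.loc`: `∑ l, wtD D (p l) ≤ 2` for all `D ≥ 2` (`wtD_tz`); `sum_of_wtD` writes each
coefficient as a sum of different `t ^ e`, and the total number of terms is at most `2` (from the proof of
`sum_of_wtD`, or: two nonzero coefficients have `wtD ≥ 1` by `exists_dig` for suitable `D`; simpler, apply `sum_of_wtD`
with `B = 2`, and for `D` large a sum of `j ≤ 2` different `t ^ e` has `wtD = j`). One monomial is a sum of two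
(`mon_add_sig`). -/
theorem TLt.two {A B : GR m (ℤ × μ)} (h : TLt A B) (hA : NZ A) {p : GR m (ℤ × μ)} (hp0 : p ≠ 0)
    {i : ℤ} {b : ℤ × μ} (he : A * p = B * (1 + mon m (i, b))) {c : KK m} (hc : 0 < (c : ℝ))
    (hb : 0 < b.1) {r : ℤ × μ → ℝ} (hr : Gs (up A) (up B) c b r) (hn : ∀ l, r l ≠ 0)
    (hp : ∀ l, p.coeff l ≠ 0 → 0 < r l) : ∃ γ₁ γ₂, p = mon m γ₁ + mon m γ₂ := by
  classical
  have h1 : ∀ D, 2 ≤ D → ∑ l ∈ p.coeff.support, wtD m D (p.coeff l) ≤ 2 := fun D hD => by
    let Z : GR m (ℤ × μ) →+ Tc := (tor m D).comp ⟨⟨fun f => f.coeff 0, rfl⟩, fun _ _ => rfl⟩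
    have hZ : ∀ f e l, Z.comp (AddMonoidHom.mulRight f) (mon m (e, -l)) =
        tor m D (tz m e * f.coeff l) := fun f e l => congrArg (tor m D) <|
      (AddMonoidAlgebra.coeff_single_mul_apply f _ _ _).trans (by rw [neg_neg, add_zero])
    have hq : ∀ l, (1 + mon m (i, b)).coeff l =
        (if 0 = l then tz m 0 else 0) + if b = l then tz m i else 0 := fun l => by
      rw [← mon_zero, AddMonoidAlgebra.coeff_add, Finsupp.add_apply]
      exact congrArg₂ _ Finsupp.single_apply Finsupp.single_apply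
    have hb0 : 0 ≠ b := fun e => hb.ne (congrArg Prod.fst e)
    have h0 : ∀ l ∉ ({0, b} : Finset _), (1 + mon m (i, b)).coeff l = 0 := fun l hl => by
      rw [hq, if_neg fun e => hl (by simp [← e]), if_neg fun e => hl (by simp [← e]), add_zero]
    have h2 := h.loc (D := D) (by omega) hc hb hr hn (vd_mul hA.nzd he Z)
      (fun f => tor_torsion D _) (fun f => tor_torsion D _)
      (fun e l hl => by rw [hZ, by_contra fun e => hl.not_gt (hp l e), mul_zero, map_zero])
      (p.coeff.support ∪ {0, b})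
      (fun e l hl => by rw [hZ, h0 l (notMem_union.1 hl).2, mul_zero, map_zero])
      fun e l hl => by rw [hZ, Finsupp.notMem_support_iff.1 (notMem_union.1 hl).1, mul_zero, map_zero]
    simp only [hZ, ← wtD.eq_1] at h2
    replace h2 := (sum_le_sum_of_subset_of_nonneg subset_union_left
      fun _ _ _ => wtD_nonneg _ _).trans (h2.trans_eq
        (sum_subset subset_union_right fun l _ hl => by rw [h0 l hl, wtD_zero]).symm)
    rwa [sum_pair hb0, hq, hq, if_pos rfl, if_pos rfl, if_neg hb0, if_neg hb0.symm, add_zero,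
      zero_add, wtD_tz hD, wtD_tz hD, one_add_one_eq_two] at h2
  choose! S hS hS' using fun l (hl : l ∈ p.coeff.support) => two_wt (r := p.coeff l) fun D hD =>
    (single_le_sum (f := fun l => wtD m D (p.coeff l)) (fun _ _ => wtD_nonneg _ _) hl).trans (h1 D hD)
  obtain ⟨D, h2, h3⟩ := (((Filter.eventually_all_finset _).2 hS').and
    (Filter.eventually_ge_atTop 2)).exists
  have h4 : (p.coeff.support.sigma S).card ≤ 2 := by
    rw [card_sigma, ← Nat.cast_le (α := ℝ), Nat.cast_sum]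
    exact (sum_le_sum h2).trans (h1 D h3)
  have h5 : p = ∑ x ∈ p.coeff.support.sigma S, mon m (x.2, x.1) := by
    rw [sum_sigma]
    refine p.sum_coeff_single.symm.trans (sum_congr rfl fun l hl => ?_)
    rw [hS l hl]
    exact map_sum (AddMonoidAlgebra.singleAddHom l) _ _
  generalize p.coeff.support.sigma S = T at h4 h5
  obtain e | e | e : T.card = 0 ∨ T.card = 1 ∨ T.card = 2 := by omega
  · rw [card_eq_zero.1 e] at h5
    exact absurd h5 hp0
  · obtain ⟨x, rfl⟩ := card_eq_one.1 e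
    refine ⟨(x.2, x.1) - ((m : ℤ), 0), (x.2, x.1) - ((m : ℤ), 0), ?_⟩
    rw [← two_nsmul, ← mon_add_sig, sub_add_cancel, h5, sum_singleton]
  · obtain ⟨x, y, e', rfl⟩ := card_eq_two.1 e
    exact ⟨_, _, h5.trans (sum_pair e')⟩

end Pool.Agent.GD
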