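import Pool.Agent.Lib.MP_a01f70_lc.GD.Dinf
import Pool.Agent.Lib.MP_a01f70_lc.GD.Side
import Pool.Agent.Lib.MP_a01f70_lc.GD.D2
import Pool.Agent.Lib.MP_a01f70_lc.GD.Int
import Pool.Agent.Lib.MP_a01f70_lc.GD.Two
import Pool.Agent.Lib.MP_a01f70_lc.GD.BB

namespace Pool.Agent.GD
open Finset Pool.Agent.GK

variable {m : ℕ} [NeZero m] {μ : Type} [AddCommGroup μ] [Fintype μ]

/-- `c₂ = 0`: `gs0` up to sign. `a₁ - a₂ ∉ ℤ b`: `gs2`. In both cases `TLt.int`, `TLt.two`. Otherwise `a₂ = a₁ + b`,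
`same_chain` (`Pole.not_dvd`). -/
theorem const_two {A B : GR m (ℤ × μ)} (hA : NZ A) (hB : NZ B) (hd : DD A B) (h : TLt A B) {i : ℤ}
    {b : ℤ × μ} {ξ : AL (KK m) (ℤ × μ)} (he : up A * ξ = Pb (tk m i) b * up B)
    (hP : Pole (Pb (tk m i) b) ξ (tk m i) b ⊥) (h2 : Two ξ b) : FormQ A B := by
  classical
  obtain ⟨a₁, a₂, c₁, c₂, h1, h2, hne, hd1, hd2, hξ⟩ := h2
  have hQ := hP.congr (nzd_Pb _ hP.deg) hA.nzd_up he.symm
  have he' : up A * ξ = up B * up (1 + mon m (i, b)) := by rw [up_Pb, he, mul_comm]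
  have hcf : ∀ l, cf ξ l = (if a₁ = l then (c₁ : ℝ) else 0) + if a₂ = l then (c₂ : ℝ) else 0 := fun l => by
    rw [hξ, cf_add, cf_sg, cf_sg]
    congr
  have key : ∀ r, Gs (up A) (up B) (tk m i) b r → (∀ l, r l ≠ 0) → (∀ l, ξ.coeff l ≠ 0 → 0 < r l) →
      FormQ A B := fun r hr hn hp => by
    obtain ⟨p, rfl⟩ := h.int hA he' hP.pos hP.deg hr hn hp
    have h3 : A * p = B * (1 + mon m (i, b)) := up_injective (by rw [map_mul, map_mul, he'])
    have h4 : p ≠ 0 := by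
      rintro rfl
      have h5 := hcf a₁
      rw [map_zero, cf_zero, if_pos rfl, if_neg hne.symm, add_zero] at h5
      exact h1.ne h5
    obtain ⟨γ₁, γ₂, rfl⟩ := h.two hA h4 h3 hP.pos hP.deg hr hn fun l hl => hp l fun e =>
      hl (ok_injective (by rw [← up_coeff, e, map_zero]))
    exact ⟨γ₁, γ₂, 0, (i, b), by rw [h3, mon_zero]⟩
  rcases h2.eq_or_lt with h0 | h0
  · obtain ⟨r, hr, hn⟩ := hQ.gs0
    have hs : ∀ l, ξ.coeff l ≠ 0 → l = a₁ := fun l hl => by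
      by_contra h5
      refine hl (cf_eq_zero.1 ?_)
      rw [hcf, if_neg (Ne.symm h5), ← h0]
      simp
    rcases (hn a₁).lt_or_gt with h5 | h5
    · exact key (-r) hr.neg (fun l => neg_ne_zero.2 (hn l)) fun l hl => by
        rw [hs l hl]; exact neg_pos.2 h5
    · exact key r hr hn fun l hl => by rw [hs l hl]; exact h5
  by_cases hS : a₁ - a₂ ∈ St b ⊥
  · obtain ⟨j, g, hg, h3⟩ := mem_St.1 hS
    obtain rfl : g = 0 := AddSubgroup.mem_bot.1 hg
    have h4 : a₁.1 - a₂.1 = j * b.1 := by simpa using congrArg Prod.fst h3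
    have hb := hP.deg
    have h5 : j ≠ 0 := by
      rintro rfl
      exact hne (sub_eq_zero.1 (by simpa [Prod.mk_zero_zero] using h3))
    have h6 : j = -1 := by
      have : j ≤ 0 := by nlinarith
      have : -1 ≤ j := by nlinarith
      omega
    subst h6
    obtain rfl : a₂ = a₁ + b := by
      have h7 : a₁ - a₂ = -b := by simpa [Prod.mk_zero_zero] using h3
      rw [← neg_neg b, ← h7]
      abel
    have h7 : c₂ ≠ c₁ * tk m i := fun e => hP.not_dvd ⟨sg a₁ c₁, by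
      rw [hξ, e, Pb, add_mul, one_mul, sg_mul, add_comm b, mul_comm c₁]⟩
    obtain ⟨e₁, e₂, rfl, rfl⟩ := same_chain hA hB hd hb h1 h0 h7 (by rw [← hξ, he, mul_comm])
    refine ⟨(e₁, a₁), (e₂, a₁ + b), 0, (i, b), up_injective ?_⟩
    rw [map_mul, map_mul, mon_zero, ← he', hξ, map_add, up_mon, up_mon]
  · obtain ⟨r, hr, hn, p1, p2⟩ := hQ.gs2 _ _ hS
    refine key r hr hn fun l hl => ?_
    by_cases e1 : a₁ = l
    · exact e1 ▸ p1
    by_cases e2 : a₂ = l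
    · exact e2 ▸ p2
    exact absurd (cf_eq_zero.1 (by rw [hcf, if_neg e1, if_neg e2, add_zero])) hl

omit [Fintype μ] in
/-- `exists_odd_up` -/
theorem formT_of_slice {A B : GR m (ℤ × μ)} {ξ : AL (KK m) (ℤ × μ)} (he : up A * ξ = up B) {j : ℤ}
    (hl : Low ξ j) (hh : High ξ j) : FormT A B := by
  obtain ⟨q, p, hq, hp⟩ := exists_odd_up ξ
  refine ⟨q, p, j, hq.pos, fun l h => ok_injective ?_, up_injective ?_⟩
  · have h0 : ξ.coeff l = 0 := h.lt_or_gt.elim (hl l) (hh l)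
    rw [← up_coeff, hp, map_zero, ← nsmul_eq_mul, AddMonoidAlgebra.coeff_smul, Finsupp.smul_apply, h0,
      smul_zero]
  · rw [map_mul, map_mul, hp, map_natCast, ← he]
    ring

/-- `dinft`, `Dinft.tl`, `side` for `(A, B)` and `(B, A)`, `d2`, `const_two`, `formT_of_slice`, `FormQ.symm` -/
theorem form_one (hμ : Odd (Fintype.card μ)) {A B : GR m (ℤ × μ)} (hA : NZ A) (hB : NZ B)
    (h : DD A B) : FormT A B ∨ FormQ A B := by
  have t := (dinft h hA).tl
  have t' := (dinft h.symm hB).tl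
  obtain ⟨P, ξ, he, -, hs, hc⟩ := side hμ hA t
  obtain ⟨P', ξ', he', -, hs', hc'⟩ := side hμ hB t'
  have hm : ξ * ξ' = P * P' := by
    refine (mul_cancel_left_mem_nonZeroDivisors hA.nzd_up).1 ?_
    linear_combination ξ' * he + P * he'
  rcases d2 hμ hs hs' hm with (⟨rfl, j, η, h1, h2, -⟩ | ⟨c, b, rfl, h1, h2⟩) |
    (⟨rfl, j, η, -, -, h1, h2, h3⟩ | ⟨c, b, rfl, h1, h2⟩)
  · exact .inl (formT_of_slice (he.trans (one_mul _)) h1 h2)
  · obtain ⟨i, rfl⟩ := hc c b h1.pos rfl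
    exact .inr (const_two hA hB h t he h1 h2)
  · refine .inl (formT_of_slice ?_ h1 h2)
    linear_combination up B * h3 - η * he'
  · obtain ⟨i, rfl⟩ := hc' c b h1.pos rfl
    exact .inr (const_two hB hA h.symm t' he' h1 h2).symm

end Pool.Agent.GD
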