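import Pool.Agent.Lib.MP_a01f70_lc.GD.Bx

namespace Pool.Agent.GD
open Finset Pool.Agent.GK

variable {K : Subfield ℝ} {μ : Type} [AddCommGroup μ] [Fintype μ]

omit [Fintype μ] in
/-- `[a + i b] ≡ (-c)⁻¹ ^ i [a]` modulo `P`; group the terms of `f` by chains (representatives of degree in
`[j, j + deg b)`) -/
theorem dvd_of_chain {c : K} (hc : c ≠ 0) {b : ℤ × μ} (hb : 0 < b.1) {f : AL K (ℤ × μ)} {j : ℤ}
    (hl : Low f j) {N : ℕ} (hh : High f (j + N * b.1 - 1))
    (h : ∀ a : ℤ × μ, j ≤ a.1 → a.1 < j + b.1 →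
      ∑ i ∈ range N, cf f (a + i • b) * (-(c : ℝ))⁻¹ ^ i = 0) : Pb c b ∣ f := by
  induction N generalizing f with
  | zero =>
    rw [eq_zero_of_high_low hl hh (by simp)]
    exact dvd_zero _
  | succ N ih =>
    cases N with
    | zero =>
      have h0 : f = 0 := cf_ext fun l => by
        rw [cf_zero]
        by_cases h1 : l.1 < j
        · exact cf_eq_zero.2 (hl l h1)
        by_cases h2 : l.1 < j + b.1
        · simpa using h l (not_lt.1 h1) h2
        · exact cf_eq_zero.2 (hh l (by push_cast; omega))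
      rw [h0]
      exact dvd_zero _
    | succ M =>
      have hc' : (c : ℝ) ≠ 0 := fun h0 => hc (Subtype.ext h0)
      let u : AL K (ℤ × μ) :=
        AddMonoidAlgebra.ofCoeff (f.coeff.filter fun l => j + (M + 1) * b.1 ≤ l.1)
      have hu : ∀ l, cf u l = if j + (M + 1) * b.1 ≤ l.1 then cf f l else 0 := fun l => by
        simp only [cf, u, Finsupp.filter_apply]
        split_ifs <;> simp
      have h1 : Pb c b * (sg (-b) c⁻¹ * u) = u + sg (-b) c⁻¹ * u := by
        rw [Pb, add_mul, one_mul, ← mul_assoc, sg_mul, add_neg_cancel, mul_inv_cancel₀ hc,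
          add_comm]
        congr 1
        exact one_mul u
      have h2 : ∀ l, cf (f - Pb c b * (sg (-b) c⁻¹ * u)) l =
          cf f l - cf u l - (c : ℝ)⁻¹ * cf u (l + b) := fun l => by
        rw [h1, cf_sub, cf_add, cf_sg_mul, sub_neg_eq_add, sub_sub]
        simp
      have hM : (0 : ℤ) ≤ M * b.1 := by positivity
      have h3 := ih (f := f - Pb c b * (sg (-b) c⁻¹ * u)) (fun l hl' => cf_eq_zero.1 (by
          rw [h2, hu, hu, if_neg (by nlinarith), if_neg (by rw [Prod.fst_add]; nlinarith),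
            cf_eq_zero.2 (hl l hl')]
          simp))
        (fun l hl' => cf_eq_zero.1 (by
          push_cast at hl' hh
          rw [h2, hu, hu, if_pos (by linarith), if_pos (by rw [Prod.fst_add]; linarith),
            cf_eq_zero.2 (hh (l + b) (by rw [Prod.fst_add]; linarith))]
          simp))
        (fun a ha ha' => by
          have h4 := h a ha ha'
          rw [sum_range_succ, sum_range_succ] at h4
          rw [sum_range_succ, ← h4, add_assoc]
          congr 1
          · refine sum_congr rfl fun i hi => ?_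
            have h5 : (i : ℤ) + 1 ≤ M := by exact_mod_cast mem_range.1 hi
            have h6 : (i + 1) * b.1 ≤ M * b.1 := mul_le_mul_of_nonneg_right h5 hb.le
            rw [h2, hu, hu, if_neg (by simp; nlinarith), if_neg (by simp; nlinarith)]
            simp
          · rw [h2, hu, hu, if_neg (by simp; nlinarith), if_pos (by simp; nlinarith),
              succ_nsmul, add_assoc, pow_succ, inv_neg]
            ring)
      simpa using dvd_add h3 (dvd_mul_right (Pb c b) (sg (-b) c⁻¹ * u))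

/-- `|H| ξ = N ξ - ∑ ([h] - 1) ξ` with `N = ∑ [h]`; `dvd_of_chain` for `N ξ` -/
theorem exists_chain {c : K} (hc : c ≠ 0) {b : ℤ × μ} (hb : 0 < b.1) {ξ : AL K (ℤ × μ)}
    {H : AddSubgroup μ} [Fintype H] (hH : ∀ g ∈ H, Pb c b ∣ (sg (0, g) 1 - 1) * ξ)
    (h : ¬ Pb c b ∣ ξ) : ∃ (a : ℤ × μ) (N : ℕ), Low ξ (a.1 - b.1 + 1) ∧ High ξ (a.1 + N * b.1 - 1) ∧
      ∑ i ∈ range N, (∑ g : H, cf ξ (a + i • b + (0, g.1))) * (-(c : ℝ))⁻¹ ^ i ≠ 0 := by
  by_contra hcon
  push Not at hcon
  have h0 : ξ ≠ 0 := fun h0 => h (h0 ▸ dvd_zero _)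
  obtain ⟨j, hj, -⟩ := exists_low h0
  obtain ⟨j', hj', -⟩ := exists_high h0
  obtain ⟨N, hN⟩ : ∃ N : ℕ, j' ≤ j + N * b.1 - 1 := ⟨(j' - j + 1).toNat, by
    have h1 := Int.self_le_toNat (j' - j + 1)
    have h2 : (0 : ℤ) ≤ (j' - j + 1).toNat := Int.natCast_nonneg _
    nlinarith⟩
  have h1 : ∀ l, cf (∑ g : H, sg ((0 : ℤ), -g.1) (1 : K) * ξ) l = ∑ g : H, cf ξ (l + (0, g.1)) :=
    fun l => by
      rw [cf_sum]
      refine sum_congr rfl fun g _ => ?_
      rw [cf_sg_mul, sub_eq_add_neg]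
      simp
  have h2 : Pb c b ∣ ∑ g : H, sg ((0 : ℤ), -g.1) (1 : K) * ξ :=
    dvd_of_chain hc hb (j := j) (N := N)
      (fun l hl => cf_eq_zero.1 (by
        rw [h1]
        exact sum_eq_zero fun g _ => cf_eq_zero.2 (hj _ (by simpa using hl))))
      (fun l hl => cf_eq_zero.1 (by
        rw [h1]
        exact sum_eq_zero fun g _ => cf_eq_zero.2 (hj' _ (by simpa using hN.trans_lt hl))))
      fun a ha ha' => by
        simp only [h1]
        exact hcon a N (hj.mono (by omega)) (hj'.mono (by omega))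
  have h3 : Pb c b ∣ ∑ g : H, (sg ((0 : ℤ), -g.1) (1 : K) - 1) * ξ :=
    dvd_sum fun g _ => hH _ (H.neg_mem g.2)
  have h4 := dvd_sub h2 h3
  rw [← sum_sub_distrib] at h4
  simp only [sub_mul, one_mul, sub_sub_cancel, sum_const, card_univ, nsmul_eq_mul] at h4
  have h5 : IsUnit ((Fintype.card H : ℕ) : AL K (ℤ × μ)) := by
    rw [← map_natCast (algebraMap K (AL K (ℤ × μ)))]
    exact (IsUnit.mk0 _ (Nat.cast_ne_zero.2 Fintype.card_ne_zero)).map _
  exact h (h5.dvd_mul_left.1 h4)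

open Classical in
/-- the response on `a + ℤ b + H` to a function on `ℤ b + H` -/
theorem cv_chn {c : K} (hc : c ≠ 0) {b : ℤ × μ} (hb : 0 < b.1) {ξ : AL K (ℤ × μ)}
    {H : AddSubgroup μ} [Fintype H] {a : ℤ × μ} {N : ℕ} (hl : Low ξ (a.1 - b.1 + 1))
    (hh : High ξ (a.1 + N * b.1 - 1)) (f : ℤ → ℝ) (s : ℤ) {g : μ} (hg : g ∈ H) :
    cv ξ (chn b fun i g' => if g' ∈ H then (-(c : ℝ)) ^ i * f i else 0) (a + s • b + (0, g)) =
      (-(c : ℝ)) ^ s * ∑ i ∈ range N,
        (∑ g' : H, cf ξ (a + i • b + (0, g'.1))) * (-(c : ℝ))⁻¹ ^ i * f (s - i) := by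
  have hc' : -(c : ℝ) ≠ 0 := neg_ne_zero.2 fun h0 => hc (Subtype.ext h0)
  let e : ℕ × H → ℤ × μ := fun p => a + p.1 • b + (0, p.2.1)
  have he : Function.Injective e := by
    rintro ⟨i, x⟩ ⟨i', x'⟩ h
    have h1 : (i : ℤ) * b.1 = i' * b.1 := by simpa [e] using congrArg Prod.fst h
    obtain rfl : i = i' := by exact_mod_cast mul_right_cancel₀ hb.ne' h1
    have h2 : x.1 = x'.1 := by simpa [e] using congrArg Prod.snd h
    rw [Subtype.ext h2]
  rw [cv_eq_sum (S := ξ.coeff.support ∪ (range N ×ˢ univ).image e) subset_union_left,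
    ← sum_subset (subset_union_right (s₁ := ξ.coeff.support)), sum_image he.injOn, sum_product,
    mul_sum]
  · refine sum_congr rfl fun i _ => ?_
    rw [sum_mul, sum_mul, mul_sum]
    refine sum_congr rfl fun x _ => ?_
    have h1 : a + s • b + (0, g) - e (i, x) = (s - i) • b + (0, g - x.1) := by
      ext <;> simp [e, sub_smul] <;> abel
    rw [h1, chn_apply hb.ne', if_pos (H.sub_mem hg x.2), zpow_sub₀ hc', zpow_natCast, inv_pow]
    simp only [e]
    ring
  · intro l _ hl'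
    by_contra h0
    obtain ⟨h1, h2⟩ := mul_ne_zero_iff.1 h0
    obtain ⟨i, g', h3⟩ := exists_chn (not_not.1 fun h => h2 (chn_of_not_dvd h _))
    rw [h3, chn_apply hb.ne'] at h2
    have h4 : g' ∈ H := by
      by_contra h4
      exact h2 (if_neg h4)
    have h5 : l = a + (s - i) • b + (0, g - g') := by
      rw [sub_eq_iff_eq_add, ← sub_eq_iff_eq_add'] at h3
      rw [← h3]
      ext <;> simp [sub_smul] <;> abel
    have h6 : l.1 = a.1 + (s - i) * b.1 := by simp [h5]
    have h7 : ¬ l.1 < a.1 - b.1 + 1 := fun h => h1 (cf_eq_zero.2 (hl l h))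
    have h8 : ¬ a.1 + N * b.1 - 1 < l.1 := fun h => h1 (cf_eq_zero.2 (hh l h))
    have h9 : 0 ≤ s - i := by nlinarith
    have h10 : s - i < N := by nlinarith
    obtain ⟨k, hk⟩ := Int.eq_ofNat_of_zero_le h9
    refine hl' (mem_image.2 ⟨(k, ⟨g - g', H.sub_mem hg h4⟩), by simp; omega, ?_⟩)
    rw [h5, hk]
    simp [e]

omit [Fintype μ] in
open Classical in
/-- the sources are nonnegative if the twisted second differences of `f` are -/
theorem cv_pow_nonneg {c : K} (hc : 0 < (c : ℝ)) {b : ℤ × μ} (hb : 0 < b.1) (H : AddSubgroup μ)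
    {f : ℤ → ℝ} (hf : ∀ s : ℤ, 0 ≤ (-1 : ℝ) ^ s * (f s - 2 * f (s - 1) + f (s - 2))) (ν : ℕ)
    (l : ℤ × μ) : 0 ≤ cv (Pb c b ^ (ν + 2))
      (chn b fun i g' => if g' ∈ H then (-(c : ℝ)) ^ i * f i else 0) l := by
  induction ν generalizing l with
  | succ ν ih =>
    rw [add_right_comm, pow_succ', cv_mul, cv_Pb]
    exact add_nonneg (ih _) (mul_nonneg hc.le (ih _))
  | zero =>
    rw [zero_add, pow_two, cv_mul, cv_Pb, cv_Pb, cv_Pb]
    by_cases h : b.1 ∣ l.1
    · obtain ⟨i, g, rfl⟩ := exists_chn h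
      have h1 : ∀ i : ℤ, i • b + (0, g) - b = (i - 1) • b + (0, g) := fun i => by
        rw [sub_smul, one_smul]
        abel
      rw [h1, h1, chn_apply hb.ne', chn_apply hb.ne', chn_apply hb.ne']
      split_ifs
      · have hc' : -(c : ℝ) ≠ 0 := neg_ne_zero.2 hc.ne'
        have h2 := mul_nonneg (zpow_pos hc i).le (hf i)
        rw [← mul_assoc, ← mul_zpow, mul_neg_one] at h2
        rw [zpow_sub_one₀ hc' (i - 1), zpow_sub_one₀ hc' i, show i - 1 - 1 = i - 2 by ring]
        refine h2.trans_eq ?_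
        have h3 := hc.ne'
        field_simp
        ring
      · simp
    · have h1 : ¬ b.1 ∣ (l - b).1 := fun h' => h (by simpa using dvd_add h' (dvd_refl b.1))
      have h2 : ¬ b.1 ∣ (l - b - b).1 := fun h' => h1 (by simpa using dvd_add h' (dvd_refl b.1))
      rw [chn_of_not_dvd h, chn_of_not_dvd h1, chn_of_not_dvd h2]
      simp

end Pool.Agent.GD
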