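import Pool.Agent.Lib.MP_a01f70_lc.GD.Up
import Pool.Agent.Lib.MP_a01f70_lc.GD.Bx
import Pool.Agent.Lib.MP_a01f70_lc.GK.TLe

namespace Pool.Agent.GD
open Finset Pool.Agent.GK

variable {m : ℕ} [NeZero m] {μ : Type} [AddCommGroup μ] [Fintype μ]

omit [Fintype μ] in
theorem tl_per {D : ℕ} {X : GR m (ℤ × μ) →+ Tc} (hX : ∀ f, (2 ^ D - 1) • X f = 0) (e : ℕ)
    (v : ℤ × μ) : X (mon m (((e + m * D : ℕ) : ℤ), v)) = X (mon m ((e : ℤ), v)) := by
  have h1 : mon m (((e + m * D : ℕ) : ℤ), v) = 2 ^ D • mon m ((e : ℤ), v) := by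
    have h2 : (((e + m * D : ℕ) : ℤ), v) = ((e : ℤ), v) + D • ((m : ℤ), (0 : ℤ × μ)) :=
      Prod.ext (by simp [mul_comm]) (by simp)
    rw [h2, mon_add, ← mon_pow, mon_sig, nsmul_eq_mul, mul_comm]
    push_cast
    rfl
  have h3 : 2 ^ D = (2 ^ D - 1) + 1 := (Nat.sub_add_cancel Nat.one_le_two_pow).symm
  rw [h1, map_nsmul, h3, add_nsmul, hX, zero_add, one_nsmul]

/-- the perturbation of size `c` -/
noncomputable def tlS {G : Type} [AddCommGroup G] (c : ℝ) (Z : G →+ ℝ) : G →+ Tc :=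
  (QuotientAddGroup.mk' _).comp ((AddMonoidHom.mulLeft c).comp Z)

theorem tlS_apply {G : Type} [AddCommGroup G] (c : ℝ) (Z : G →+ ℝ) (f : G) :
    tlS c Z f = ((c * Z f : ℝ) : Tc) := rfl

theorem tl_zero {A B : GR m (ℤ × μ)} {C₁ C : ℝ} {T : ℕ}
    (h : ∀ (H : ℕ) (X Y : GR m (ℤ × μ) →+ Tc), Vd A B X Y →
      ∑ l ∈ Box μ 0 T, ∑ e ∈ range (m * H),
        (dgr (C * tr m e / 2 ^ H) (Y (mon m ((e : ℤ), -l))) - dig (X (mon m ((e : ℤ), -l))))
          ≤ m * H * (T * Fintype.card μ) / 2 + C₁ * H + C)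
    {D : ℕ} (hD : 0 < D) {X Y : GR m (ℤ × μ) →+ Tc} (hv : Vd A B X Y)
    (hX : ∀ f, (2 ^ D - 1) • X f = 0) (hY : ∀ f, (2 ^ D - 1) • Y f = 0) {x y : ℤ × μ → ℝ}
    (hxy : RV (up A) (up B) x y) :
    ∑ l ∈ Box μ 0 T, ∑ e ∈ range (m * D),
      (sdig (Y (mon m ((e : ℤ), -l))) (y l) - sdig (X (mon m ((e : ℤ), -l))) (x l))
        ≤ m * D * (T * Fintype.card μ) / 2 + C₁ * D := by
  obtain ⟨X', Y', hv', hX', hY'⟩ := hxy.vd
  have hN : Odd (2 ^ D - 1) := Nat.Even.sub_odd Nat.one_le_two_pow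
    ((Nat.even_pow' hD.ne').2 even_two) odd_one
  obtain ⟨K, hK, hKy⟩ : ∃ K : ℝ, 0 < K ∧ ∀ l ∈ Box μ 0 T, y l < 0 → K * y l < -C := by
    refine ((Filter.eventually_gt_atTop (0 : ℝ)).and
      ((Filter.eventually_all_finset (Box μ 0 T)).2 fun l _ => ?_)).exists
    by_cases h0 : y l < 0
    · exact ((Filter.tendsto_id.atTop_mul_const_of_neg h0).eventually_lt_atBot (-C)).mono
        fun K hK _ => hK
    · exact Filter.Eventually.of_forall fun K h1 => absurd h1 h0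
  have hev : ∀ᶠ δ : ℝ in nhdsWithin 0 (Set.Ioi 0), ∀ l ∈ Box μ 0 T,
      ∀ p ∈ {u : Tc | (2 ^ D - 1) • u = 0},
        sdig p (y l) ≤ dgr (C * δ) (p + ((δ * (K * y l) : ℝ) : Tc)) ∧
        dig (p + ((δ * (K * x l) : ℝ) : Tc)) ≤ sdig p (x l) :=
    (Filter.eventually_all_finset (Box μ 0 T)).2 fun l hl =>
      (Filter.eventually_all_finite (AddCircle.finite_torsion 1 hN.pos)).2 fun p hp =>
        (tle_dgr (tle_half hN hp) hK (hKy l hl)).and (tle_dig p hK _)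
  obtain ⟨u, hu, hev⟩ := mem_nhdsGT_iff_exists_Ioo_subset.1 hev
  obtain ⟨k, hk⟩ := exists_pow_lt_of_lt_one (show (0 : ℝ) < u from hu)
    (show (1 / 2 : ℝ) < 1 by norm_num)
  have key : ∀ s : ℕ, s * ∑ l ∈ Box μ 0 T, ∑ e ∈ range (m * D),
      (sdig (Y (mon m ((e : ℤ), -l))) (y l) - sdig (X (mon m ((e : ℤ), -l))) (x l)) ≤
      s * (m * D * (T * Fintype.card μ) / 2 + C₁ * D) + (C + T * Fintype.card μ * (2 * (m * k : ℕ))) := by
    intro s
    have h1 := h (D * s) (X + tlS (K / 2 ^ (D * s)) X') (Y + tlS (K / 2 ^ (D * s)) Y')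
      fun η ξ he => by
        rw [AddMonoidHom.add_apply, AddMonoidHom.add_apply, hv η ξ he, tlS_apply, tlS_apply,
          hv' η ξ he]
    have h2 : ∀ l ∈ Box μ 0 T, s * ∑ e ∈ range (m * D),
        (sdig (Y (mon m ((e : ℤ), -l))) (y l) - sdig (X (mon m ((e : ℤ), -l))) (x l)) ≤
        ∑ e ∈ range (m * (D * s)), (dgr (C * tr m e / 2 ^ (D * s))
          ((Y + tlS (K / 2 ^ (D * s)) Y') (mon m ((e : ℤ), -l))) -
          dig ((X + tlS (K / 2 ^ (D * s)) X') (mon m ((e : ℤ), -l)))) +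
          2 * (m * k : ℕ) := by
      intro l hl
      rw [← tle_sum_per (fun e => by simp only [tl_per hX, tl_per hY]), mul_assoc]
      refine tle_sum_le (fun e he => ?_) fun e => ?_
      · have h3 : tr m e / 2 ^ (D * s) ∈ Set.Ioo 0 u :=
          ⟨div_pos (tr_pos _) (by positivity), (tle_tr he).trans_lt hk⟩
        have h4 := (hev h3 l hl _ (hY (mon m ((e : ℤ), -l)))).1
        have h5 := (hev h3 l hl _ (hX (mon m ((e : ℤ), -l)))).2
        have h6 : ∀ z : ℝ, K / 2 ^ (D * s) * (tr m e * z) = tr m e / 2 ^ (D * s) * (K * z) :=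
          fun z => by ring
        rw [AddMonoidHom.add_apply, AddMonoidHom.add_apply, tlS_apply, tlS_apply, hX',
          hY', h6, h6, mul_div_assoc]
        exact sub_le_sub h4 h5
      · have h3 := (tle_sdig (Y (mon m ((e : ℤ), -l))) (y l)).2
        have h4 := (tle_sdig (X (mon m ((e : ℤ), -l))) (x l)).1
        have h5 := dgr_nonneg (C * tr m e / 2 ^ (D * s))
          ((Y + tlS (K / 2 ^ (D * s)) Y') (mon m ((e : ℤ), -l)))
        have h6 := dig_le_one ((X + tlS (K / 2 ^ (D * s)) X') (mon m ((e : ℤ), -l)))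
        linarith
    have h3 := sum_le_sum h2
    rw [sum_add_distrib, sum_const, card_Box, nsmul_eq_mul, ← mul_sum, Nat.cast_mul] at h3
    rw [Nat.cast_mul] at h1
    linarith
  by_contra hc
  have hg := sub_pos.2 (not_le.1 hc)
  obtain ⟨s, hs⟩ := exists_nat_gt ((C + T * Fintype.card μ * (2 * (m * k : ℕ))) / _)
  rw [div_lt_iff₀ hg] at hs
  have := key s
  linarith

theorem Dinft.tl {A B : GR m (ℤ × μ)} (h : Dinft A B) : TLt A B := by
  obtain ⟨C₁, h⟩ := h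
  refine ⟨C₁, fun D hD X Y hv hX hY x y hxy s T => ?_⟩
  obtain ⟨C, h⟩ := h T
  have h1 := tl_zero h hD (hv.shift (mon m (0, -(s, 0)))) (fun _ => hX _) (fun _ => hY _)
    (hxy.shift (s, 0))
  have h2 := sum_Box_shift (fun l => ∑ e ∈ range (m * D),
    (sdig (Y (mon m ((e : ℤ), -l))) (y l) - sdig (X (mon m ((e : ℤ), -l))) (x l))) (s, 0) 0 T
  rw [zero_add] at h2
  have h3 : ∀ (e : ℤ) (l : ℤ × μ),
      mon m (0, -(s, 0)) * mon m (e, -l) = mon m (e, -(l + (s, 0))) := fun e l => by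
    rw [← mon_add, Prod.mk_add_mk, zero_add, neg_add_rev]
  rw [← h2]
  simpa only [AddMonoidHom.comp_apply, AddMonoidHom.coe_mulLeft, h3] using h1

theorem TLt.sm {A B : GR m (ℤ × μ)} (h : TLt A B) : SMt (up A) (up B) := by
  obtain ⟨C₁, h⟩ := h
  have hm : (0 : ℝ) < m := by exact_mod_cast Nat.pos_of_ne_zero (NeZero.ne m)
  refine ⟨C₁ / m, fun x y hxy s T => ?_⟩
  have h1 := h 1 one_pos 0 0 (fun _ _ _ => rfl) (fun _ => by simp) (fun _ => by simp) x y hxy s T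
  simp only [AddMonoidHom.zero_apply, sdig, if_true, sum_const, card_range, nsmul_eq_mul,
    ← mul_sum, sum_sub_distrib, mul_one, Nat.cast_one] at h1
  rw [ng_eq, ng_eq, ← sub_le_iff_le_add', le_div_iff₀ hm]
  linarith

end Pool.Agent.GD
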